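/-
MP_85545d : billiard flows with a first integral that is not flat at the glancing vectors.
Definitions.
-/
import Mathlib

set_option autoImplicit false

namespace Pool.Agent.H46.BL

open Set Filter Topology
open scoped ContDiff

noncomputable section

/-- the unit vector with angle `a` -/
def ex (a : ℝ) : ℂ := Complex.exp ((a : ℂ) * Complex.I)

/-- A smooth convex billiard table: a compact convex set `Y` with nonempty interior whose boundary is
parametrised counterclockwise by arc length: `γ` has the unit tangent vector `ex (τ s)`, the tangent angle `τ` is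
smooth, its derivative is the curvature (nonnegative, by convexity), and it increases by `2π` in one turn. -/
structure Table where
  Y : Set ℂ
  L : ℝ
  γ : ℝ → ℂ
  τ : ℝ → ℝ
  compact : IsCompact Y
  convex : Convex ℝ Y
  inter : (interior Y).Nonempty
  Lpos : 0 < L
  smooth : ContDiff ℝ ∞ τ
  tangent : ∀ s, HasDerivAt γ (ex (τ s)) s
  periodic : ∀ s, γ (s + L) = γ s
  turning : ∀ s, τ (s + L) = τ s + 2 * Real.pi
  curv : ∀ s, 0 ≤ deriv τ s
  bdry : frontier Y = range γ

/-- `F q p` is a smooth first integral of the billiard flow in `Y`: it is smooth on the phase space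
`q ∈ Y`, `p ≠ 0` (up to the boundary), constant along the straight motion inside `Y`, and compatible with the
reflection at the boundary (`p ↦ ex (2 τ) * conj p` is the reflection in the tangent line at `γ s`). -/
structure Table.Integral (T : Table) (F : ℂ → ℂ → ℝ) : Prop where
  smooth : ContDiffOn ℝ ∞ (fun z : ℂ × ℂ => F z.1 z.2) (T.Y ×ˢ {p : ℂ | p ≠ 0})
  flow : ∀ q ∈ T.Y, ∀ p : ℂ, p ≠ 0 → ∀ t : ℝ, q + t * p ∈ T.Y → F (q + t * p) p = F q p
  refl : ∀ (s : ℝ) (p : ℂ), p ≠ 0 →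
    F (T.γ s) (ex (2 * T.τ s) * (starRingEnd ℂ) p) = F (T.γ s) p

/-- the value of `F` at the boundary point `γ s`, at the vector of length `r` making the angle `θ` with the
tangent vector -/
def Table.fn (T : Table) (F : ℂ → ℂ → ℝ) (r s θ : ℝ) : ℝ := F (T.γ s) ((r : ℂ) * ex (T.τ s + θ))

/-- the `k`-th derivative of `F` with respect to the direction at the glancing (tangent) vector of length `r`
over `γ s` -/
def Table.gd (T : Table) (F : ℂ → ℂ → ℝ) (r : ℝ) (k : ℕ) (s : ℝ) : ℝ := iteratedDeriv k (T.fn F r s) 0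

/-- The billiard map: a particle that leaves `γ s` under the angle `θ` (with the tangent) next hits the boundary
at `γ s'`, and leaves it under the angle `θ'` after the reflection. -/
def Table.Bounce (T : Table) (s θ s' θ' : ℝ) : Prop :=
  θ ∈ Ioo 0 Real.pi ∧ θ' ∈ Ioo 0 Real.pi ∧ s < s' ∧ s' < s + T.L ∧
    T.τ s' = T.τ s + θ + θ' ∧ ∃ ℓ : ℝ, 0 < ℓ ∧ T.γ s' = T.γ s + (ℓ : ℂ) * ex (T.τ s + θ)

/-- A neighbourhood of the boundary component `θ = 0` of the phase cylinder of the billiard map is foliated by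
noncontractible invariant circles, the graphs of the functions `g c`, `0 < c < 1`: they depend continuously and
strictly monotonically on `c`, fill the collar `0 < θ < ε`, and shrink to the boundary as `c → 0`. -/
def Table.Foliated (T : Table) (g : ℝ → ℝ → ℝ) (ε : ℝ) : Prop :=
  0 < ε ∧
  ContinuousOn (fun z : ℝ × ℝ => g z.1 z.2) (Ioo 0 1 ×ˢ univ) ∧
  (∀ c ∈ Ioo (0 : ℝ) 1, ∀ s, g c (s + T.L) = g c s) ∧
  (∀ c ∈ Ioo (0 : ℝ) 1, ∀ s, g c s ∈ Ioo 0 Real.pi) ∧
  (∀ c ∈ Ioo (0 : ℝ) 1, ∀ s θ s' θ', T.Bounce s θ s' θ' → (θ = g c s ↔ θ' = g c s')) ∧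
  (∀ c ∈ Ioo (0 : ℝ) 1, ∀ c' ∈ Ioo (0 : ℝ) 1, c < c' → ∀ s, g c s < g c' s) ∧
  (∀ s, ∀ θ ∈ Ioo 0 ε, ∃ c ∈ Ioo (0 : ℝ) 1, g c s = θ) ∧
  (∀ δ > 0, ∃ c₀ ∈ Ioo (0 : ℝ) 1, ∀ c ∈ Ioo 0 c₀, ∀ s, g c s < δ)

/-- For all sufficiently large `n`, every boundary point is a vertex of a closed billiard polygon with `n`
vertices that winds once around the table. -/
def Table.Closed (T : Table) : Prop :=
  ∃ N : ℕ, ∀ n ≥ N, ∀ s : ℝ, ∃ x θ : ℕ → ℝ, x 0 = s ∧
    (∀ i < n, T.Bounce (x i) (θ i) (x (i + 1)) (θ (i + 1))) ∧ x n = s + T.L ∧ θ n = θ 0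

end

end Pool.Agent.H46.BL
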