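/-
MP_85545d : further definitions (invariant circles, rational circles, energy).
-/
import Mathlib
import Pool.Agent.H46.BL.Defs

set_option autoImplicit false

namespace Pool.Agent.H46.BL

open Set Filter Topology
open scoped ContDiff

noncomputable section

/-- the graph of `g` is an invariant circle of the billiard map -/
structure Table.Leaf (T : Table) (g : ℝ → ℝ) : Prop where
  cont : Continuous g
  per : ∀ s, g (s + T.L) = g s
  mem : ∀ s, g s ∈ Ioo 0 Real.pi
  inv : ∀ s θ s' θ', T.Bounce s θ s' θ' → (θ = g s ↔ θ' = g s')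

/-- For every rational number `p/q` in an interval `(0, ρ)` one of the circles `g c` consists of periodic points of
rotation number `p/q`: every orbit on it closes after `q` bounces and `p` turns. -/
def Table.Rational (T : Table) (g : ℝ → ℝ → ℝ) : Prop :=
  ∃ ρ > 0, ∀ p q : ℕ, 0 < p → (p : ℝ) < ρ * q → ∃ c ∈ Ioo (0 : ℝ) 1, ∀ s : ℝ, ∃ x : ℕ → ℝ, x 0 = s ∧
    (∀ i, T.Bounce (x i) (g c (x i)) (x (i + 1)) (g c (x (i + 1)))) ∧ x q = s + p * T.L

/-- the energy -/
def energy (z : ℂ × ℂ) : ℝ := ‖z.2‖ ^ 2 / 2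

/-- the phase space -/
def Table.phase (T : Table) : Set (ℂ × ℂ) := T.Y ×ˢ {p : ℂ | p ≠ 0}

end

lemma Table.Foliated.leaf {T : Table} {g : ℝ → ℝ → ℝ} {ε : ℝ} (h : T.Foliated g ε) {c : ℝ}
    (hc : c ∈ Ioo (0 : ℝ) 1) : T.Leaf (g c) := by
  obtain ⟨-, h1, h2, h3, h4, -, -, -⟩ := h
  refine ⟨?_, h2 c hc, h3 c hc, h4 c hc⟩
  have h5 : ContinuousOn ((fun z : ℝ × ℝ => g z.1 z.2) ∘ fun s : ℝ => (c, s)) univ :=
    h1.comp (continuous_const.prodMk continuous_id).continuousOn (fun s _ => ⟨hc, mem_univ _⟩)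
  exact continuousOn_univ.1 h5

end Pool.Agent.H46.BL
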