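/-
CMP : tables with positive curvature: comparison of the two angles of a chord.

PROOFS.
* curv_bounds: deriv τ is continuous, L-periodic (from `turning`), positive: minimum and maximum on Icc 0 L.
* cmp: let α = τ s + θ, P x = Im ((γ x - γ s) * ex (-α)), Q x = 1 - cos (τ x - α).  P' x = sin (τ x - α),
  Q' x = sin (τ x - α) * deriv τ x.  P s = 0, P s' = 0 (chord), Q s = 1 - cos θ, Q s' = 1 - cos θ'.  τ is strictly
  increasing; let x₁ ∈ (s, s') be the point with τ x₁ = α (intermediate value), Q x₁ = 0.  On [s, x₁] the sine is ≤ 0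
  and ≥ on [x₁, s'] (angles between -θ and θ'), so Q - K P is monotone nonincreasing on [x₁, s'], Q - k P is monotone
  nondecreasing there, and on [s, x₁]: Q - k P is nonincreasing and Q - K P is nondecreasing.  So
  1 - cos θ' ≤ -K P x₁ , 1 - cos θ' ≥ -k P x₁ , 1 - cos θ ≥ -k P x₁, 1 - cos θ ≤ - K P x₁; multiply (-P x₁ ≥ 0).
* small_angle: 1 - cos is strictly increasing on [0, π]: given ε (WLOG ε < π) choose δ with K (1 - cos δ) < k (1 - cos ε)
  (continuity of cos at 0).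
-/
import Mathlib
import Pool.Agent.H46.BL.Defs

set_option autoImplicit false

namespace Pool.Agent.H46.BL

open Set Filter Topology
open scoped ContDiff

lemma Cmp_diff (T : Table) : Differentiable ℝ T.τ := T.smooth.differentiable (by simp)

lemma Cmp_contDeriv (T : Table) : Continuous (deriv T.τ) := T.smooth.continuous_deriv (by simp)

lemma Cmp_periodic (T : Table) : Function.Periodic (deriv T.τ) T.L := by
  intro x
  have h1 : (fun y => T.τ (y + T.L)) = fun y => T.τ y + 2 * Real.pi := by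
    funext y; exact T.turning y
  have h2 : deriv (fun y => T.τ (y + T.L)) x = deriv T.τ (x + T.L) := by rw [deriv_comp_add_const]
  rw [← h2, h1, deriv_add_const]

lemma curv_bounds (T : Table) (hκ : ∀ s, 0 < deriv T.τ s) :
    ∃ k K : ℝ, 0 < k ∧ ∀ s, k ≤ deriv T.τ s ∧ deriv T.τ s ≤ K := by
  have hne : (Icc (0 : ℝ) T.L).Nonempty := ⟨0, le_rfl, T.Lpos.le⟩
  obtain ⟨a, _, ha⟩ := isCompact_Icc.exists_isMinOn hne (Cmp_contDeriv T).continuousOn
  obtain ⟨b, _, hb⟩ := isCompact_Icc.exists_isMaxOn hne (Cmp_contDeriv T).continuousOn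
  refine ⟨deriv T.τ a, deriv T.τ b, hκ a, fun s => ?_⟩
  obtain ⟨y, hy, hs⟩ := (Cmp_periodic T).exists_mem_Ico₀ T.Lpos s
  rw [hs]
  exact ⟨ha ⟨hy.1, hy.2.le⟩, hb ⟨hy.1, hy.2.le⟩⟩

lemma Cmp_ex_add (a b : ℝ) : ex (a + b) = ex a * ex b := by
  unfold ex
  rw [← Complex.exp_add]
  congr 1
  push_cast
  ring

lemma Cmp_ex_im (a : ℝ) : (ex a).im = Real.sin a := by
  unfold ex
  rw [Complex.exp_ofReal_mul_I_im]

lemma cmp (T : Table) {k K : ℝ} (hk : 0 < k) (h : ∀ s, k ≤ deriv T.τ s ∧ deriv T.τ s ≤ K) {s θ s' θ' : ℝ}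
    (hB : T.Bounce s θ s' θ') :
    k * (1 - Real.cos θ') ≤ K * (1 - Real.cos θ) ∧ k * (1 - Real.cos θ) ≤ K * (1 - Real.cos θ') := by
  obtain ⟨hθ, hθ', hss', _, hτ, ℓ, hℓ, hγ⟩ := hB
  obtain ⟨α, hα⟩ : ∃ α, α = T.τ s + θ := ⟨_, rfl⟩
  have hK0 : 0 < K := hk.trans_le ((h 0).1.trans (h 0).2)
  have hmono : StrictMono T.τ := strictMono_of_deriv_pos fun x => hk.trans_le (h x).1
  -- the point where the tangent is parallel to the chord
  obtain ⟨x₁, hx₁, hτx₁⟩ : ∃ x₁ ∈ Icc s s', T.τ x₁ = α := by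
    have := intermediate_value_Icc hss'.le (Cmp_diff T).continuous.continuousOn
    exact this ⟨by linarith [hθ.1], by linarith [hθ'.1]⟩
  obtain ⟨P, hP⟩ : ∃ P : ℝ → ℝ, P = fun x => ((T.γ x - T.γ s) * ex (-α)).im := ⟨_, rfl⟩
  obtain ⟨Q, hQ⟩ : ∃ Q : ℝ → ℝ, Q = fun x => 1 - Real.cos (T.τ x - α) := ⟨_, rfl⟩
  have hPd : ∀ x, HasDerivAt P (Real.sin (T.τ x - α)) x := by
    intro x
    have h1 : HasDerivAt (fun x => (T.γ x - T.γ s) * ex (-α)) (ex (T.τ x) * ex (-α)) x :=
      ((T.tangent x).sub_const (T.γ s)).mul_const (ex (-α))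
    rw [← Cmp_ex_add] at h1
    have h2 := Complex.imCLM.hasFDerivAt.comp_hasDerivAt x h1
    rw [hP]
    have h3 : Complex.imCLM (ex (T.τ x + -α)) = Real.sin (T.τ x - α) := by
      rw [Complex.imCLM_apply, Cmp_ex_im, sub_eq_add_neg]
    rw [← h3]
    exact h2
  have hQd : ∀ x, HasDerivAt Q (Real.sin (T.τ x - α) * deriv T.τ x) x := by
    intro x
    have h1 : HasDerivAt (fun x => T.τ x - α) (deriv T.τ x) x := ((Cmp_diff T) x).hasDerivAt.sub_const α
    have h2 := (h1.cos).const_sub 1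
    rw [hQ]
    have h3 : Real.sin (T.τ x - α) * deriv T.τ x = -(-Real.sin (T.τ x - α) * deriv T.τ x) := by ring
    rw [h3]
    exact h2
  have hPs : P s = 0 := by rw [hP]; simp
  have hPs' : P s' = 0 := by
    rw [hP]
    show ((T.γ s' - T.γ s) * ex (-α)).im = 0
    rw [hγ, ← hα, add_sub_cancel_left, mul_assoc, ← Cmp_ex_add, add_neg_cancel]
    simp [ex]
  have hQs : Q s = 1 - Real.cos θ := by
    rw [hQ]
    show 1 - Real.cos (T.τ s - α) = 1 - Real.cos θ
    have : T.τ s - α = -θ := by rw [hα]; ring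
    rw [this, Real.cos_neg]
  have hQs' : Q s' = 1 - Real.cos θ' := by
    rw [hQ]
    show 1 - Real.cos (T.τ s' - α) = 1 - Real.cos θ'
    have : T.τ s' - α = θ' := by rw [hα, hτ]; ring
    rw [this]
  have hQx₁ : Q x₁ = 0 := by
    rw [hQ]
    show 1 - Real.cos (T.τ x₁ - α) = 0
    rw [hτx₁, sub_self, Real.cos_zero, sub_self]
  have hsinR : ∀ x ∈ Icc x₁ s', 0 ≤ Real.sin (T.τ x - α) := by
    intro x hx
    have h1 : α ≤ T.τ x := by rw [← hτx₁]; exact hmono.monotone hx.1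
    have h2 : T.τ x ≤ T.τ s' := hmono.monotone hx.2
    exact Real.sin_nonneg_of_nonneg_of_le_pi (by linarith) (by linarith [hθ'.2])
  have hsinL : ∀ x ∈ Icc s x₁, Real.sin (T.τ x - α) ≤ 0 := by
    intro x hx
    have h1 : T.τ x ≤ α := by rw [← hτx₁]; exact hmono.monotone hx.2
    have h2 : T.τ s ≤ T.τ x := hmono.monotone hx.1
    exact Real.sin_nonpos_of_nonpos_of_neg_pi_le (by linarith) (by linarith [hθ.2])
  -- derivative of Q - c P
  have hfd : ∀ c x, HasDerivAt (fun x => Q x - c * P x) (Real.sin (T.τ x - α) * (deriv T.τ x - c)) x := by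
    intro c x
    have h4 := (hQd x).sub ((hPd x).const_mul c)
    have h3 : Real.sin (T.τ x - α) * (deriv T.τ x - c)
        = Real.sin (T.τ x - α) * deriv T.τ x - c * Real.sin (T.τ x - α) := by ring
    rw [h3]
    exact h4
  have hcont : ∀ c, Continuous (fun x => Q x - c * P x) := fun c =>
    continuous_iff_continuousAt.mpr fun x => (hfd c x).continuousAt
  have anti : ∀ c a b, a ≤ b → (∀ x ∈ Icc a b, Real.sin (T.τ x - α) * (deriv T.τ x - c) ≤ 0) →
      Q b - c * P b ≤ Q a - c * P a := by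
    intro c a b hab hx
    have := antitoneOn_of_deriv_nonpos (convex_Icc a b) (hcont c).continuousOn
      (fun x _ => (hfd c x).differentiableAt.differentiableWithinAt)
      (fun x hx' => by
        rw [(hfd c x).deriv]
        exact hx x (interior_subset hx'))
    exact this ⟨le_rfl, hab⟩ ⟨hab, le_rfl⟩ hab
  have mono : ∀ c a b, a ≤ b → (∀ x ∈ Icc a b, 0 ≤ Real.sin (T.τ x - α) * (deriv T.τ x - c)) →
      Q a - c * P a ≤ Q b - c * P b := by
    intro c a b hab hx
    have := monotoneOn_of_deriv_nonneg (convex_Icc a b) (hcont c).continuousOn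
      (fun x _ => (hfd c x).differentiableAt.differentiableWithinAt)
      (fun x hx' => by
        rw [(hfd c x).deriv]
        exact hx x (interior_subset hx'))
    exact this ⟨le_rfl, hab⟩ ⟨hab, le_rfl⟩ hab
  have I1 := anti K x₁ s' hx₁.2 fun x hx => mul_nonpos_of_nonneg_of_nonpos (hsinR x hx) (by linarith [(h x).2])
  have I2 := mono K s x₁ hx₁.1 fun x hx => mul_nonneg_of_nonpos_of_nonpos (hsinL x hx) (by linarith [(h x).2])
  have I3 := mono k x₁ s' hx₁.2 fun x hx => mul_nonneg (hsinR x hx) (by linarith [(h x).1])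
  have I4 := anti k s x₁ hx₁.1 fun x hx => mul_nonpos_of_nonpos_of_nonneg (hsinL x hx) (by linarith [(h x).1])
  rw [hQs', hPs', hQx₁] at I1
  rw [hQs, hPs, hQx₁] at I2
  rw [hQs', hPs', hQx₁] at I3
  rw [hQs, hPs, hQx₁] at I4
  constructor
  · have a1 := mul_le_mul_of_nonneg_left I1 hk.le
    have a2 := mul_le_mul_of_nonneg_left I4 hK0.le
    nlinarith
  · have a1 := mul_le_mul_of_nonneg_left I2 hk.le
    have a2 := mul_le_mul_of_nonneg_left I3 hK0.le
    nlinarith

lemma small_angle (T : Table) (hκ : ∀ s, 0 < deriv T.τ s) {ε : ℝ} (hε : 0 < ε) :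
    ∃ δ > 0, ∀ s θ s' θ', T.Bounce s θ s' θ' → (θ < δ → θ' < ε) ∧ (θ' < δ → θ < ε) := by
  obtain ⟨k, K, hk, h⟩ := curv_bounds T hκ
  have hK0 : 0 < K := hk.trans_le ((h 0).1.trans (h 0).2)
  obtain ⟨η, hη0, hηε, hηπ⟩ : ∃ η : ℝ, 0 < η ∧ η ≤ ε ∧ η ≤ Real.pi := by
    refine ⟨min ε Real.pi, ?_, min_le_left _ _, min_le_right _ _⟩
    exact lt_min hε Real.pi_pos
  have hc : 0 < k * (1 - Real.cos η) := by
    refine mul_pos hk ?_
    have : Real.cos η < Real.cos 0 := Real.cos_lt_cos_of_nonneg_of_le_pi le_rfl hηπ hη0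
    rw [Real.cos_zero] at this
    linarith
  obtain ⟨c, hcdef⟩ : ∃ c, c = k * (1 - Real.cos η) := ⟨_, rfl⟩
  rw [← hcdef] at hc
  have key : ∀ a b : ℝ, a ∈ Ioo 0 Real.pi → b ∈ Ioo 0 Real.pi →
      k * (1 - Real.cos b) ≤ K * (1 - Real.cos a) → a < min 1 (c / K) → b < ε := by
    intro a b ha hb hab hlt
    have h1 : a < 1 := hlt.trans_le (min_le_left _ _)
    have h2 : a < c / K := hlt.trans_le (min_le_right _ _)
    rw [lt_div_iff₀ hK0] at h2
    have h3 := Real.one_sub_sq_div_two_le_cos (x := a)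
    have h4 : 1 - Real.cos a ≤ a := by nlinarith [ha.1]
    have h5 : k * (1 - Real.cos b) < k * (1 - Real.cos η) := by
      rw [← hcdef]
      have := mul_le_mul_of_nonneg_left h4 hK0.le
      linarith
    have h6 : Real.cos η < Real.cos b := by
      have := lt_of_mul_lt_mul_left h5 hk.le
      linarith
    by_contra hcon
    push Not at hcon
    have h7 : Real.cos b ≤ Real.cos η :=
      Real.cos_le_cos_of_nonneg_of_le_pi hη0.le hb.2.le (hηε.trans hcon)
    linarith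
  refine ⟨min 1 (c / K), lt_min one_pos (div_pos hc hK0), fun s θ s' θ' hB => ?_⟩
  obtain ⟨h1, h2⟩ := cmp T hk h hB
  exact ⟨key θ θ' hB.1 hB.2.1 h1, key θ' θ hB.2.1 hB.1 h2⟩

end Pool.Agent.H46.BL
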