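/-
BAS : basic facts.
-/
import Mathlib
import Pool.Agent.H46.BL.Defs

set_option autoImplicit false

namespace Pool.Agent.H46.BL

open Set Filter Topology
open scoped ContDiff

lemma ex_ne (a : ℝ) : ex a ≠ 0 := Complex.exp_ne_zero _

lemma ex_add (a b : ℝ) : ex (a + b) = ex a * ex b := by
  unfold ex
  rw [← Complex.exp_add]; congr 1; push_cast; ring

lemma ex_conj (a : ℝ) : (starRingEnd ℂ) (ex a) = ex (-a) := by
  unfold ex
  rw [← Complex.exp_conj]; congr 1; simp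

lemma ex_norm (a : ℝ) : ‖ex a‖ = 1 := by
  unfold ex
  exact Complex.norm_exp_ofReal_mul_I a

lemma ex_two_pi (a : ℝ) : ex (a + 2 * Real.pi) = ex a := by
  unfold ex
  have : ((a + 2 * Real.pi : ℝ) : ℂ) * Complex.I = (a : ℂ) * Complex.I + 2 * Real.pi * Complex.I := by
    push_cast; ring
  rw [this, Complex.exp_periodic]

lemma ex_smooth : ContDiff ℝ ∞ ex := by
  unfold ex
  exact (Complex.ofRealCLM.contDiff.mul contDiff_const).cexp

lemma Table.γ_mem (T : Table) (s : ℝ) : T.γ s ∈ T.Y := by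
  have h1 : T.γ s ∈ frontier T.Y := by rw [T.bdry]; exact mem_range_self s
  exact T.compact.isClosed.frontier_subset h1

lemma Table.γ_smooth (T : Table) : ContDiff ℝ ∞ T.γ := by
  rw [contDiff_infty_iff_deriv]
  refine ⟨fun s => (T.tangent s).differentiableAt, ?_⟩
  have : deriv T.γ = fun s => ex (T.τ s) := by
    funext s; exact (T.tangent s).deriv
  rw [this]
  exact ex_smooth.comp T.smooth

lemma Table.fn_smooth (T : Table) {F : ℂ → ℂ → ℝ} (hF : T.Integral F) {r : ℝ} (hr : 0 < r) :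
    ContDiff ℝ ∞ (fun z : ℝ × ℝ => T.fn F r z.1 z.2) := by
  have h1 : ContDiff ℝ ∞ (fun z : ℝ × ℝ => (T.γ z.1, (r : ℂ) * ex (T.τ z.1 + z.2))) := by
    refine ContDiff.prodMk (T.γ_smooth.comp contDiff_fst) (contDiff_const.mul (ex_smooth.comp ?_))
    exact (T.smooth.comp contDiff_fst).add contDiff_snd
  have h2 := hF.smooth.comp (s := univ) h1.contDiffOn (by
    intro z _
    refine ⟨T.γ_mem z.1, ?_⟩
    exact mul_ne_zero (by exact_mod_cast hr.ne') (ex_ne _))
  exact contDiffOn_univ.1 h2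

lemma Table.fn_even (T : Table) {F : ℂ → ℂ → ℝ} (hF : T.Integral F) {r : ℝ} (hr : 0 < r) (s θ : ℝ) :
    T.fn F r s (-θ) = T.fn F r s θ := by
  unfold Table.fn
  rw [← hF.refl s ((r : ℂ) * ex (T.τ s + θ)) (mul_ne_zero (by exact_mod_cast hr.ne') (ex_ne _))]
  congr 1
  rw [map_mul, ex_conj, Complex.conj_ofReal]
  have : ex (T.τ s + -θ) = ex (2 * T.τ s) * ex (-(T.τ s + θ)) := by
    rw [← ex_add]; congr 1; ring
  rw [this]; ring

lemma Table.fn_periodic (T : Table) (F : ℂ → ℂ → ℝ) (r s θ : ℝ) :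
    T.fn F r (s + T.L) θ = T.fn F r s θ := by
  unfold Table.fn
  rw [T.periodic, T.turning]
  have : T.τ s + 2 * Real.pi + θ = (T.τ s + θ) + 2 * Real.pi := by ring
  rw [this, ex_two_pi]

/-- chord identity -/
lemma Table.fn_chord (T : Table) {F : ℂ → ℂ → ℝ} (hF : T.Integral F) {r : ℝ} (hr : 0 < r) {s s' θ θ' ℓ : ℝ}
    (hτ : T.τ s' = T.τ s + θ + θ') (hγ : T.γ s' = T.γ s + (ℓ : ℂ) * ex (T.τ s + θ)) :
    T.fn F r s θ = T.fn F r s' θ' := by
  rw [← T.fn_even hF hr s' θ']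
  unfold Table.fn
  have h1 : T.τ s' + -θ' = T.τ s + θ := by rw [hτ]; ring
  rw [h1]
  have hr' : (r : ℂ) ≠ 0 := by exact_mod_cast hr.ne'
  have h2 : T.γ s' = T.γ s + ((ℓ / r : ℝ) : ℂ) * ((r : ℂ) * ex (T.τ s + θ)) := by
    rw [hγ]; push_cast; field_simp
  have h3 := hF.flow (T.γ s) (T.γ_mem s) ((r : ℂ) * ex (T.τ s + θ)) (mul_ne_zero hr' (ex_ne _)) (ℓ / r)
    (by rw [← h2]; exact T.γ_mem s')
  rw [← h2] at h3
  exact h3.symm

/-- the odd derivatives at the glancing vectors vanish -/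
lemma Table.gd_odd (T : Table) {F : ℂ → ℂ → ℝ} (hF : T.Integral F) {r : ℝ} (hr : 0 < r) {k : ℕ} (hk : Odd k)
    (s : ℝ) : T.gd F r k s = 0 := by
  unfold Table.gd
  have h1 : (fun x => T.fn F r s (-x)) = T.fn F r s := by
    funext x; exact T.fn_even hF hr s x
  have h2 := iteratedDeriv_comp_neg k (T.fn F r s) (0 : ℝ)
  rw [h1, hk.neg_one_pow] at h2
  simp only [neg_zero] at h2
  have h3 : iteratedDeriv k (T.fn F r s) 0 = - iteratedDeriv k (T.fn F r s) 0 := by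
    simpa using h2
  linarith

end Pool.Agent.H46.BL
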