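/-
ANG : tables with positive curvature: the angles of a chord.

PROOFS (E x = Im ((γ x - γ s) * ex (-τ s)); D x = Im ((γ x - γ s) * ex (-α)), α = τ s + θ; derivatives by T.tangent:
E' = sin (τ x - τ s), D' = sin (τ x - α); τ is strictly increasing since deriv τ > 0).
* side: D s = 0, D s' = 0 (chord); D' < 0 on (s, x₁), D' > 0 on (x₁, s') where τ x₁ = α (τ x - α ∈ (-θ, θ') ⊆ (-π, π)), so
  D < 0 on (s, s').
* exists_angles: E s = 0 = E (s + L), E is strictly increasing up to the point with τ = τ s + π and strictly decreasing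
  afterwards (up to s + L, τ (s+L) = τ s + 2π), so E > 0 on (s, s + L): the chord z = γ s' - γ s is not 0 and
  θ := arg (z * ex (-τ s)) ∈ (0, π), z = ‖z‖ ex (τ s + θ).  The same argument at s' (on [s', s' + L], at the point s + L):
  Im ((γ (s+L) - γ s') * ex (-τ s')) > 0, i.e. ‖z‖ sin (τ s' - τ s - θ) > 0; θ' := τ s' - τ s - θ ∈ (-π, 2π) has positive
  sine, so θ' ∈ (0, π).
* angles_unique: ex θ₁ * ℓ₁ = ex θ₂ * ℓ₂, both angles in (0, π), ℓ > 0: compare norms and arguments (e.g. sin (θ₁ - θ₂) = 0).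
* angle_lt: α₁ = τ s' - θ₁' is the direction of the chord (s₁, s'), α₂ = τ s' - θ₂' that of (s₂, s').  s₂ ∈ (s₁, s')
  (s₂ < s' is part of h2).  By `side` Im ((γ s₂ - γ s₁) * ex (-α₁)) < 0 and Im ((γ s' - γ s₁) * ex (-α₁)) = 0, so
  0 < Im ((γ s' - γ s₂) * ex (-α₁)) = ℓ₂ sin (α₂ - α₁), α₂ - α₁ = θ₁' - θ₂' ∈ (-π, π), so θ₁' > θ₂'.
* len_left / len_right: the derivative of ‖w x‖ at a point with w ≠ 0 is Re (conj (w) * w') / ‖w‖ (HasDerivAt.norm or
  write ‖w‖ = sqrt (normSq w)); w x = γ s' - γ x, w' = - ex (τ s), w = ℓ ex (τ s + θ): - cos θ.  Similarly on the right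
  with w = γ x - γ s, w' = ex (τ s'), w = ℓ ex (τ s' - θ'): cos θ'.
* angle_mono_left: same as angle_lt at the other end: for fixed s the angle θ increases with s': for s' < s'':
  by `side` for the chord (s, s''), s' ∈ (s, s''): Im ((γ s' - γ s) ex (-α₂)) < 0, i.e. sin (θ₁ - θ₂) < 0.
-/
import Mathlib
import Pool.Agent.H46.BL.Bas
import Pool.Agent.H46.BL.Dfb

set_option autoImplicit false

namespace Pool.Agent.H46.BL

open Set Filter Topology
open scoped ContDiff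

lemma Ang_im (a : ℝ) : (ex a).im = Real.sin a := by
  unfold ex
  exact Complex.exp_ofReal_mul_I_im a

lemma Ang_re (a : ℝ) : (ex a).re = Real.cos a := by
  unfold ex
  exact Complex.exp_ofReal_mul_I_re a

lemma Ang_zero : ex 0 = 1 := by
  unfold ex; simp

lemma Ang_mul_neg (a : ℝ) : ex a * ex (-a) = 1 := by
  rw [← ex_add, add_neg_cancel, Ang_zero]

lemma Ang_ofReal_im (l a : ℝ) : ((l : ℂ) * ex a).im = l * Real.sin a := by
  rw [Complex.im_ofReal_mul, Ang_im]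

lemma Ang_deriv (T : Table) (c : ℂ) (a x : ℝ) :
    HasDerivAt (fun x => ((T.γ x - c) * ex (-a)).im) (Real.sin (T.τ x - a)) x := by
  have h1 : HasDerivAt (fun x => (T.γ x - c) * ex (-a)) (ex (T.τ x) * ex (-a)) x :=
    ((T.tangent x).sub_const c).mul_const _
  have h2 : HasDerivAt (fun x => Complex.imCLM ((T.γ x - c) * ex (-a)))
      (Complex.imCLM (ex (T.τ x) * ex (-a))) x :=
    Complex.imCLM.hasFDerivAt.comp_hasDerivAt x h1
  have h3 : Complex.imCLM (ex (T.τ x) * ex (-a)) = Real.sin (T.τ x - a) := by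
    rw [← ex_add, Complex.imCLM_apply, Ang_im, sub_eq_add_neg]
  rw [h3] at h2
  exact h2

lemma Ang_mono (T : Table) (hκ : ∀ s, 0 < deriv T.τ s) : StrictMono T.τ :=
  strictMono_of_deriv_pos hκ

lemma Ang_cont (T : Table) : Continuous T.τ := T.smooth.continuous

/-- the height function decreases and then increases -/
lemma Ang_valley (T : Table) (hκ : ∀ s, 0 < deriv T.τ s) (c : ℂ) {a u v : ℝ} (huv : u < v)
    (hu : T.τ u ∈ Ioo (a - Real.pi) a) (hv : T.τ v ∈ Ioo a (a + Real.pi))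
    (hu0 : ((T.γ u - c) * ex (-a)).im = 0) (hv0 : ((T.γ v - c) * ex (-a)).im = 0) {x : ℝ} (hx : x ∈ Ioo u v) :
    ((T.γ x - c) * ex (-a)).im < 0 := by
  have hmono := Ang_mono T hκ
  set D : ℝ → ℝ := fun x => ((T.γ x - c) * ex (-a)).im with hD
  have hDd : ∀ x, HasDerivAt D (Real.sin (T.τ x - a)) x := fun x => Ang_deriv T c a x
  have hDc : Continuous D := continuous_iff_continuousAt.2 fun x => (hDd x).continuousAt
  obtain ⟨m, hm, hm'⟩ := intermediate_value_Ioo huv.le (Ang_cont T).continuousOn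
    (show a ∈ Ioo (T.τ u) (T.τ v) from ⟨hu.2, hv.1⟩)
  have hanti : StrictAntiOn D (Icc u m) := by
    apply strictAntiOn_of_deriv_neg (convex_Icc u m) hDc.continuousOn
    intro y hy
    rw [interior_Icc] at hy
    rw [(hDd y).deriv]
    have h1 := hmono hy.1
    have h2 := hmono hy.2
    apply Real.sin_neg_of_neg_of_neg_pi_lt <;> linarith [hu.1, hu.2]
  have hmon : StrictMonoOn D (Icc m v) := by
    apply strictMonoOn_of_deriv_pos (convex_Icc m v) hDc.continuousOn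
    intro y hy
    rw [interior_Icc] at hy
    rw [(hDd y).deriv]
    have h1 := hmono hy.1
    have h2 := hmono hy.2
    apply Real.sin_pos_of_pos_of_lt_pi <;> linarith [hv.1, hv.2]
  show D x < 0
  rcases le_total x m with h | h
  · have := hanti ⟨le_rfl, hm.1.le⟩ ⟨hx.1.le, h⟩ hx.1
    have h0 : D u = 0 := hu0
    linarith
  · have := hmon ⟨h, hx.2.le⟩ ⟨hm.2.le, le_rfl⟩ hx.2
    have h0 : D v = 0 := hv0
    linarith

/-- all other boundary points lie on the left of a tangent line -/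
lemma Ang_left (T : Table) (hκ : ∀ s, 0 < deriv T.τ s) {s x : ℝ} (hx : x ∈ Ioo s (s + T.L)) :
    0 < ((T.γ x - T.γ s) * ex (-(T.τ s))).im := by
  have hmono := Ang_mono T hκ
  have hpi := Real.pi_pos
  set a := T.τ s with ha
  set D : ℝ → ℝ := fun x => ((T.γ x - T.γ s) * ex (-a)).im with hD
  have hDd : ∀ x, HasDerivAt D (Real.sin (T.τ x - a)) x := fun x => Ang_deriv T (T.γ s) a x
  have hDc : Continuous D := continuous_iff_continuousAt.2 fun x => (hDd x).continuousAt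
  have hL := T.Lpos
  have hturn := T.turning s
  obtain ⟨m, hm, hm'⟩ := intermediate_value_Ioo (show s ≤ s + T.L by linarith) (Ang_cont T).continuousOn
    (show a + Real.pi ∈ Ioo (T.τ s) (T.τ (s + T.L)) from ⟨by linarith, by linarith⟩)
  have hmon : StrictMonoOn D (Icc s m) := by
    apply strictMonoOn_of_deriv_pos (convex_Icc s m) hDc.continuousOn
    intro y hy
    rw [interior_Icc] at hy
    rw [(hDd y).deriv]
    have h1 := hmono hy.1
    have h2 := hmono hy.2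
    apply Real.sin_pos_of_pos_of_lt_pi <;> linarith
  have hanti : StrictAntiOn D (Icc m (s + T.L)) := by
    apply strictAntiOn_of_deriv_neg (convex_Icc m (s + T.L)) hDc.continuousOn
    intro y hy
    rw [interior_Icc] at hy
    rw [(hDd y).deriv]
    have h1 := hmono hy.1
    have h2 := hmono hy.2
    have h3 : Real.sin (T.τ y - a) = - Real.sin (T.τ y - a - Real.pi) := by
      rw [Real.sin_sub_pi]; ring
    rw [h3]
    have h4 : 0 < Real.sin (T.τ y - a - Real.pi) := by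
      apply Real.sin_pos_of_pos_of_lt_pi <;> linarith
    linarith
  have h0 : D s = 0 := by simp [hD]
  have h1 : D (s + T.L) = 0 := by
    show ((T.γ (s + T.L) - T.γ s) * ex (-a)).im = 0
    rw [T.periodic, sub_self, zero_mul, Complex.zero_im]
  show 0 < D x
  rcases le_total x m with h | h
  · have := hmon ⟨le_rfl, hm.1.le⟩ ⟨hx.1.le, h⟩ hx.1
    linarith
  · have := hanti ⟨h, hx.2.le⟩ ⟨hm.2.le, le_rfl⟩ hx.2
    linarith

lemma Ang_pos_of_sin_pos {t : ℝ} (h1 : -Real.pi < t) (h2 : 0 < Real.sin t) : 0 < t := by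
  by_contra h
  have := Real.sin_nonpos_of_nonpos_of_neg_pi_le (not_lt.1 h) h1.le
  linarith

lemma Ang_bounce_im (T : Table) {s θ s' θ' : ℝ} (hB : T.Bounce s θ s' θ') (a : ℝ) :
    ∃ ℓ : ℝ, 0 < ℓ ∧ ((T.γ s' - T.γ s) * ex (-a)).im = ℓ * Real.sin (T.τ s + θ - a) := by
  obtain ⟨-, -, -, -, -, ℓ, hℓ, h⟩ := hB
  refine ⟨ℓ, hℓ, ?_⟩
  rw [h, add_sub_cancel_left, mul_assoc, ← ex_add, Ang_ofReal_im, sub_eq_add_neg]

lemma side (T : Table) (hκ : ∀ s, 0 < deriv T.τ s) {s θ s' θ' : ℝ} (hB : T.Bounce s θ s' θ') {x : ℝ}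
    (hx : x ∈ Ioo s s') : ((T.γ x - T.γ s) * ex (-(T.τ s + θ))).im < 0 := by
  obtain ⟨ℓ, -, h⟩ := Ang_bounce_im T hB (T.τ s + θ)
  obtain ⟨hθ, hθ', hss, -, hτ, -⟩ := hB
  refine Ang_valley T hκ (T.γ s) hss ⟨by linarith [hθ.2], by linarith [hθ.1]⟩
    ⟨by linarith [hθ'.1], by linarith [hθ'.2]⟩ (by simp) ?_ hx
  rw [h]; simp

lemma angles_unique (T : Table) {s s' θ₁ θ₁' θ₂ θ₂' : ℝ} (h1 : T.Bounce s θ₁ s' θ₁')
    (h2 : T.Bounce s θ₂ s' θ₂') : θ₁ = θ₂ ∧ θ₁' = θ₂' := by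
  obtain ⟨ℓ₁, hℓ₁, e1⟩ := Ang_bounce_im T h1 (T.τ s + θ₂)
  obtain ⟨ℓ₂, -, e2⟩ := Ang_bounce_im T h2 (T.τ s + θ₂)
  obtain ⟨hθ₁, -, -, -, hτ₁, -⟩ := h1
  obtain ⟨hθ₂, -, -, -, hτ₂, -⟩ := h2
  have h3 : ℓ₁ * Real.sin (T.τ s + θ₁ - (T.τ s + θ₂)) = 0 := by
    rw [← e1, e2]; simp
  have h4 : Real.sin (T.τ s + θ₁ - (T.τ s + θ₂)) = 0 := by
    rcases mul_eq_zero.1 h3 with h | h
    · exact absurd h hℓ₁.ne'
    · exact h
  have h5 := (Real.sin_eq_zero_iff_of_lt_of_lt (by linarith [hθ₁.1, hθ₂.2]) (by linarith [hθ₁.2, hθ₂.1])).1 h4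
  have h6 : θ₁ = θ₂ := by linarith
  exact ⟨h6, by linarith⟩

lemma exists_angles (T : Table) (hκ : ∀ s, 0 < deriv T.τ s) {s s' : ℝ} (h : s < s') (h' : s' < s + T.L) :
    ∃ θ θ', T.Bounce s θ s' θ' := by
  have hmono := Ang_mono T hκ
  have hL := T.Lpos
  have hpos := Ang_left T hκ (s := s) (x := s') ⟨h, h'⟩
  have hpos' := Ang_left T hκ (s := s') (x := s + T.L) ⟨h', by linarith⟩
  rw [T.periodic] at hpos'
  set z := T.γ s' - T.γ s with hz
  set w := z * ex (-(T.τ s)) with hw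
  have hw0 : w ≠ 0 := by
    intro h0; rw [h0] at hpos; simp at hpos
  have hz0 : z ≠ 0 := by
    intro h0; apply hw0; rw [hw, h0, zero_mul]
  have hnorm : ‖w‖ = ‖z‖ := by rw [hw, norm_mul, ex_norm, mul_one]
  have hzn : 0 < ‖z‖ := norm_pos_iff.2 hz0
  set θ := Complex.arg w with hθ
  have hsin : 0 < Real.sin θ := by
    rw [hθ, Complex.sin_arg]
    exact div_pos hpos (norm_pos_iff.2 hw0)
  have hθ0 : 0 < θ := Ang_pos_of_sin_pos (Complex.neg_pi_lt_arg w) hsin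
  have hθπ : θ < Real.pi := by
    rcases (Complex.arg_le_pi w).lt_or_eq with h1 | h1
    · exact h1
    · exfalso; rw [← hθ] at h1; rw [h1, Real.sin_pi] at hsin; exact lt_irrefl _ hsin
  have hwe : w = (‖z‖ : ℂ) * ex θ := by
    rw [← hnorm]; unfold ex; exact (Complex.norm_mul_exp_arg_mul_I w).symm
  have hze : z = (‖z‖ : ℂ) * ex (T.τ s + θ) := by
    have : z = w * ex (T.τ s) := by
      rw [hw, mul_assoc, mul_comm (ex (-(T.τ s))), Ang_mul_neg, mul_one]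
    conv_lhs => rw [this, hwe]
    rw [ex_add]; ring
  have h4 : ((T.γ s - T.γ s') * ex (-(T.τ s'))).im = ‖z‖ * Real.sin (T.τ s' - T.τ s - θ) := by
    have e1 : T.γ s - T.γ s' = -z := by rw [hz]; ring
    rw [e1]
    conv_lhs => rw [hze]
    rw [neg_mul, Complex.neg_im, mul_assoc, ← ex_add, Ang_ofReal_im, ← mul_neg, ← Real.sin_neg]
    congr 2; ring
  rw [h4] at hpos'
  have h5 : 0 < Real.sin (T.τ s' - T.τ s - θ) := by
    by_contra hc
    have := mul_nonpos_of_nonneg_of_nonpos hzn.le (not_lt.1 hc)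
    linarith
  have h6 := hmono h
  have h7 : T.τ s' < T.τ s + 2 * Real.pi := by rw [← T.turning]; exact hmono h'
  have h8 : 0 < T.τ s' - T.τ s - θ := Ang_pos_of_sin_pos (by linarith) h5
  have h9 : T.τ s' - T.τ s - θ < Real.pi := by
    by_contra hc
    have hc := not_lt.1 hc
    have h10 : Real.sin (T.τ s' - T.τ s - θ) = - Real.sin (T.τ s' - T.τ s - θ - Real.pi) := by
      rw [Real.sin_sub_pi]; ring
    have h11 := Real.sin_nonneg_of_nonneg_of_le_pi (x := T.τ s' - T.τ s - θ - Real.pi) (by linarith) (by linarith)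
    linarith
  refine ⟨θ, T.τ s' - T.τ s - θ, ⟨hθ0, hθπ⟩, ⟨h8, h9⟩, h, h', by ring, ‖z‖, hzn, ?_⟩
  rw [← hze, hz]; ring

lemma angle_lt (T : Table) (hκ : ∀ s, 0 < deriv T.τ s) {s₁ s₂ s' θ₁ θ₁' θ₂ θ₂' : ℝ} (h12 : s₁ < s₂)
    (h1 : T.Bounce s₁ θ₁ s' θ₁') (h2 : T.Bounce s₂ θ₂ s' θ₂') : θ₂' < θ₁' := by
  obtain ⟨ℓ₁, hℓ₁, e1⟩ := Ang_bounce_im T h1 (T.τ s₁ + θ₁)
  obtain ⟨ℓ₂, hℓ₂, e2⟩ := Ang_bounce_im T h2 (T.τ s₁ + θ₁)
  have h3 := side T hκ h1 (x := s₂) ⟨h12, h2.2.2.1⟩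
  obtain ⟨hθ₁, hθ₁', -, -, hτ₁, -⟩ := h1
  obtain ⟨hθ₂, hθ₂', -, -, hτ₂, -⟩ := h2
  have h4 : ((T.γ s₂ - T.γ s₁) * ex (-(T.τ s₁ + θ₁))).im
      = ((T.γ s' - T.γ s₁) * ex (-(T.τ s₁ + θ₁))).im - ((T.γ s' - T.γ s₂) * ex (-(T.τ s₁ + θ₁))).im := by
    rw [← Complex.sub_im]; congr 1; ring
  rw [h4, e1, e2] at h3
  have h5 : Real.sin (T.τ s₁ + θ₁ - (T.τ s₁ + θ₁)) = 0 := by simp
  rw [h5, mul_zero, zero_sub] at h3
  have h6 : 0 < Real.sin (T.τ s₂ + θ₂ - (T.τ s₁ + θ₁)) := by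
    by_contra hc
    have := mul_nonpos_of_nonneg_of_nonpos hℓ₂.le (not_lt.1 hc)
    linarith
  have h7 := Ang_pos_of_sin_pos (by linarith [hθ₁'.1, hθ₂'.2]) h6
  linarith

lemma angle_mono_left (T : Table) (hκ : ∀ s, 0 < deriv T.τ s) {s s₁ s₂ θ₁ θ₁' θ₂ θ₂' : ℝ} (h12 : s₁ < s₂)
    (h1 : T.Bounce s θ₁ s₁ θ₁') (h2 : T.Bounce s θ₂ s₂ θ₂') : θ₁ < θ₂ := by
  obtain ⟨ℓ₁, hℓ₁, e1⟩ := Ang_bounce_im T h1 (T.τ s + θ₂)
  have h3 := side T hκ h2 (x := s₁) ⟨h1.2.2.1, h12⟩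
  obtain ⟨hθ₁, -, -, -, -, -⟩ := h1
  obtain ⟨hθ₂, -, -, -, -, -⟩ := h2
  rw [e1] at h3
  have h5 : 0 < Real.sin (-(T.τ s + θ₁ - (T.τ s + θ₂))) := by
    rw [Real.sin_neg]
    by_contra hc
    have : 0 ≤ Real.sin (T.τ s + θ₁ - (T.τ s + θ₂)) := by linarith
    have := mul_nonneg hℓ₁.le this
    linarith
  have h6 := Ang_pos_of_sin_pos (by linarith [hθ₁.2, hθ₂.1]) h5
  linarith

lemma Ang_norm_deriv {w : ℝ → ℂ} {w' : ℂ} {x l a : ℝ} (hw : HasDerivAt w w' x) (hl : 0 < l)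
    (hx : w x = (l : ℂ) * ex a) : HasDerivAt (fun y => ‖w y‖) (ex (-a) * w').re x := by
  have h1 := hw.norm_sq
  have hn : ‖w x‖ = l := by
    rw [hx, norm_mul, ex_norm, mul_one, Complex.norm_real, Real.norm_eq_abs, abs_of_pos hl]
  have h2 := h1.sqrt (by rw [hn]; positivity)
  have h3 : (fun y => Real.sqrt (‖w y‖ ^ 2)) = fun y => ‖w y‖ := by
    funext y; exact Real.sqrt_sq (norm_nonneg _)
  rw [h3, Real.sqrt_sq (norm_nonneg _), hn] at h2
  convert h2 using 1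
  have h4 : inner ℝ (w x) w' = l * (ex (-a) * w').re := by
    rw [Complex.inner, hx, map_mul, Complex.conj_ofReal, ex_conj]
    rw [show w' * ((l : ℂ) * ex (-a)) = (l : ℂ) * (ex (-a) * w') by ring, Complex.re_ofReal_mul]
  rw [h4]
  field_simp

lemma len_left (T : Table) {s θ s' θ' : ℝ} (hB : T.Bounce s θ s' θ') :
    HasDerivAt (fun x => ‖T.γ s' - T.γ x‖) (-Real.cos θ) s := by
  obtain ⟨-, -, -, -, -, ℓ, hℓ, h⟩ := hB
  have h1 : HasDerivAt (fun x => T.γ s' - T.γ x) (-ex (T.τ s)) s := (T.tangent s).const_sub _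
  have h2 := Ang_norm_deriv (a := T.τ s + θ) h1 hℓ (by rw [h]; ring)
  convert h2 using 1
  rw [mul_neg, ← ex_add, Complex.neg_re, Ang_re, show -(T.τ s + θ) + T.τ s = -θ by ring, Real.cos_neg]

lemma len_right (T : Table) {s θ s' θ' : ℝ} (hB : T.Bounce s θ s' θ') :
    HasDerivAt (fun x => ‖T.γ x - T.γ s‖) (Real.cos θ') s' := by
  obtain ⟨-, -, -, -, hτ, ℓ, hℓ, h⟩ := hB
  have h1 : HasDerivAt (fun x => T.γ x - T.γ s) (ex (T.τ s')) s' := (T.tangent s').sub_const _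
  have h2 := Ang_norm_deriv (a := T.τ s + θ) h1 hℓ (by rw [h]; ring)
  convert h2 using 1
  rw [← ex_add, Ang_re]
  congr 1; rw [hτ]; ring

end Pool.Agent.H46.BL
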