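/-
NXT : tables with positive curvature: the billiard map is well defined and continuous.

PROOF.  For s, θ ∈ (0, π) let α = τ s + θ and D x = Im ((γ x - γ s) * ex (-α)), D' x = sin (τ x - α).  τ is strictly
increasing and continuous; let x₁ < x₂ in (s, s + L) be the points with τ x₁ = α, τ x₂ = α + π
(τ s < α < α + π < τ s + 2π = τ (s+L)).  D s = 0 and D (s + L) = 0 (γ is periodic), D' < 0 on (s, x₁), > 0 on (x₁, x₂),
< 0 on (x₂, s + L).  So D < 0 on (s, x₁], D > 0 on [x₂, s+L), and D has exactly one zero S in (x₁, x₂) (strictly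
monotone there), which is the only zero in (s, s + L).  Then θ' = τ S - α ∈ (0, π), and
γ S - γ s = ℓ ex α with ℓ real: ℓ = Re ((γ S - γ s) ex (-α)) = ∫_s^S cos (τ x - α) dx.  ℓ > 0: let
R x = Re ((γ x - γ s) * ex (-α - θ'))... simplest: consider E x = Im ((γ x - γ s) * ex (-τ s)), E' = sin (τ x - τ s);
if τ S - τ s ≤ π then E S > 0 and E S = ℓ sin θ, so ℓ > 0.  If τ S - τ s > π use the tangent at S instead: the
function x ↦ Im ((γ x - γ S) * ex (-τ S)) on [S, s + L]: τ (s+L) - τ S = 2π - (τ S - τ s) < π, so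
Im ((γ (s+L) - γ S) * ex (-τ S)) > 0, i.e. Im (-ℓ ex (α - τ S)) = ℓ sin θ' > 0.
Continuity of S at (s₀, θ₀): D depends continuously on (s, θ, x); S₀ = S s₀ θ₀; for small e > 0 D(s₀,θ₀,S₀ - e) < 0 <
D(s₀,θ₀,S₀ + e) with S₀ ± e ∈ (s₀, s₀ + L); these inequalities persist for (s, θ) near (s₀, θ₀), and by the sign
pattern (D < 0 exactly on (s, S), D > 0 exactly on (S, s+L)) S s θ ∈ (S₀ - e, S₀ + e).
(The uniqueness part is only needed inside the proof.)
-/
import Mathlib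
import Pool.Agent.H46.BL.Defs

set_option autoImplicit false

namespace Pool.Agent.H46.BL

open Set Filter Topology
open scoped ContDiff

lemma Nxt_mul (a b : ℝ) : ex a * ex (-b) = ex (a - b) := by
  unfold ex
  rw [← Complex.exp_add]
  congr 1
  push_cast
  ring

lemma Nxt_im (a : ℝ) : (ex a).im = Real.sin a := by
  unfold ex
  exact Complex.exp_ofReal_mul_I_im a

lemma Nxt_cont : Continuous ex := by
  unfold ex
  exact Complex.continuous_exp.comp (Complex.continuous_ofReal.mul continuous_const)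

/-- the height of `γ x` above the direction `β` -/
noncomputable def Nxt_h (T : Table) (β x : ℝ) : ℝ := (T.γ x * ex (-β)).im

lemma Nxt_der (T : Table) (β x : ℝ) : HasDerivAt (Nxt_h T β) (Real.sin (T.τ x - β)) x := by
  have h1 : HasDerivAt (fun x => T.γ x * ex (-β)) (ex (T.τ x) * ex (-β)) x :=
    (T.tangent x).mul_const _
  have h2 := (Complex.imCLM.hasFDerivAt (x := T.γ x * ex (-β))).comp_hasDerivAt x h1
  rw [Nxt_mul] at h2
  have h3 : Complex.imCLM (ex (T.τ x - β)) = Real.sin (T.τ x - β) := by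
    rw [Complex.imCLM_apply, Nxt_im]
  rw [h3] at h2
  exact h2

lemma Nxt_mono (T : Table) {β a b : ℝ} (h : ∀ x ∈ Ioo a b, 0 < Real.sin (T.τ x - β)) :
    StrictMonoOn (Nxt_h T β) (Icc a b) := by
  apply strictMonoOn_of_deriv_pos (convex_Icc a b)
  · exact fun x _ => (Nxt_der T β x).continuousAt.continuousWithinAt
  · intro x hx
    rw [interior_Icc] at hx
    rw [(Nxt_der T β x).deriv]
    exact h x hx

lemma Nxt_anti (T : Table) {β a b : ℝ} (h : ∀ x ∈ Ioo a b, Real.sin (T.τ x - β) < 0) :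
    StrictAntiOn (Nxt_h T β) (Icc a b) := by
  apply strictAntiOn_of_deriv_neg (convex_Icc a b)
  · exact fun x _ => (Nxt_der T β x).continuousAt.continuousWithinAt
  · intro x hx
    rw [interior_Icc] at hx
    rw [(Nxt_der T β x).deriv]
    exact h x hx

/-- the sign pattern of the height above the direction of the shot -/
lemma Nxt_sign (T : Table) (hκ : ∀ s, 0 < deriv T.τ s) (s : ℝ) {θ : ℝ} (hθ : θ ∈ Ioo 0 Real.pi) :
    ∃ S, s < S ∧ S < s + T.L ∧ T.τ s + θ < T.τ S ∧ T.τ S < T.τ s + θ + Real.pi ∧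
      Nxt_h T (T.τ s + θ) S = Nxt_h T (T.τ s + θ) s ∧
      (∀ x, s < x → x < S → Nxt_h T (T.τ s + θ) x < Nxt_h T (T.τ s + θ) s) ∧
      (∀ x, S < x → x < s + T.L → Nxt_h T (T.τ s + θ) s < Nxt_h T (T.τ s + θ) x) := by
  have hτm : StrictMono T.τ := strictMono_of_deriv_pos hκ
  have hτc : Continuous T.τ := T.smooth.continuous
  have hL := T.Lpos
  have hturn := T.turning s
  obtain ⟨α, hα⟩ : ∃ α, α = T.τ s + θ := ⟨_, rfl⟩
  rw [← hα]
  obtain ⟨x₁, hx₁, hτ₁⟩ : α ∈ T.τ '' Ioo s (s + T.L) := by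
    apply intermediate_value_Ioo (by linarith) hτc.continuousOn
    rw [hturn, hα]
    exact ⟨by linarith [hθ.1], by linarith [hθ.2, Real.pi_pos]⟩
  obtain ⟨x₂, hx₂, hτ₂⟩ : α + Real.pi ∈ T.τ '' Ioo s (s + T.L) := by
    apply intermediate_value_Ioo (by linarith) hτc.continuousOn
    rw [hturn, hα]
    exact ⟨by linarith [hθ.1, Real.pi_pos], by linarith [hθ.2]⟩
  have h12 : x₁ < x₂ := by
    rw [← hτm.lt_iff_lt, hτ₁, hτ₂]
    linarith [Real.pi_pos]
  have hA1 : StrictAntiOn (Nxt_h T α) (Icc s x₁) := by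
    apply Nxt_anti
    intro x hx
    have h1 := hτm hx.1
    have h2 := hτm hx.2
    apply Real.sin_neg_of_neg_of_neg_pi_lt
    · linarith
    · linarith [hθ.2]
  have hM : StrictMonoOn (Nxt_h T α) (Icc x₁ x₂) := by
    apply Nxt_mono
    intro x hx
    have h1 := hτm hx.1
    have h2 := hτm hx.2
    apply Real.sin_pos_of_pos_of_lt_pi
    · linarith
    · linarith
  have hA2 : StrictAntiOn (Nxt_h T α) (Icc x₂ (s + T.L)) := by
    apply Nxt_anti
    intro x hx
    have h1 := hτm hx.1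
    have h2 := hτm hx.2
    rw [← Real.sin_sub_two_pi]
    apply Real.sin_neg_of_neg_of_neg_pi_lt
    · linarith [hθ.1]
    · linarith
  have hper : Nxt_h T α (s + T.L) = Nxt_h T α s := by
    unfold Nxt_h
    rw [T.periodic]
  have hneg : ∀ x, s < x → x ≤ x₁ → Nxt_h T α x < Nxt_h T α s := fun x h1 h2 =>
    hA1 ⟨le_rfl, hx₁.1.le⟩ ⟨h1.le, h2⟩ h1
  have hpos : ∀ x, x₂ ≤ x → x < s + T.L → Nxt_h T α s < Nxt_h T α x := fun x h1 h2 => by
    rw [← hper]
    exact hA2 ⟨h1, h2.le⟩ ⟨hx₂.2.le, le_rfl⟩ h2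
  obtain ⟨S, hS, hSv⟩ : Nxt_h T α s ∈ Nxt_h T α '' Ioo x₁ x₂ := by
    apply intermediate_value_Ioo h12.le
    · exact fun x _ => (Nxt_der T α x).continuousAt.continuousWithinAt
    · exact ⟨hneg x₁ hx₁.1 le_rfl, hpos x₂ le_rfl hx₂.2⟩
  refine ⟨S, hx₁.1.trans hS.1, hS.2.trans hx₂.2, ?_, ?_, hSv, ?_, ?_⟩
  · rw [← hτ₁]
    exact hτm hS.1
  · rw [← hτ₂]
    exact hτm hS.2
  · intro x h1 h2
    rcases le_or_gt x x₁ with h | h
    · exact hneg x h1 h
    · rw [← hSv]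
      exact hM ⟨h.le, (h2.trans hS.2).le⟩ ⟨hS.1.le, hS.2.le⟩ h2
  · intro x h1 h2
    rcases le_or_gt x₂ x with h | h
    · exact hpos x h h2
    · rw [← hSv]
      exact hM ⟨hS.1.le, hS.2.le⟩ ⟨(hS.1.trans h1).le, h.le⟩ h1

/-- the length of the chord is positive -/
lemma Nxt_bounce (T : Table) (hκ : ∀ s, 0 < deriv T.τ s) (s : ℝ) {θ S : ℝ} (hθ : θ ∈ Ioo 0 Real.pi)
    (h1 : s < S) (h2 : S < s + T.L) (h3 : T.τ s + θ < T.τ S) (h4 : T.τ S < T.τ s + θ + Real.pi)
    (h5 : Nxt_h T (T.τ s + θ) S = Nxt_h T (T.τ s + θ) s) :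
    T.Bounce s θ S (T.τ S - T.τ s - θ) := by
  have hτm : StrictMono T.τ := strictMono_of_deriv_pos hκ
  have hturn := T.turning s
  refine ⟨hθ, ⟨by linarith, by linarith⟩, h1, h2, by ring, ?_⟩
  obtain ⟨α, hα⟩ : ∃ α, α = T.τ s + θ := ⟨_, rfl⟩
  rw [← hα] at h5 ⊢
  obtain ⟨ℓ, hℓ⟩ : ∃ ℓ : ℝ, ℓ = ((T.γ S - T.γ s) * ex (-α)).re := ⟨_, rfl⟩
  have him : ((T.γ S - T.γ s) * ex (-α)).im = 0 := by
    unfold Nxt_h at h5
    rw [sub_mul, Complex.sub_im, h5, sub_self]
  have hz : (T.γ S - T.γ s) * ex (-α) = (ℓ : ℂ) := by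
    apply Complex.ext
    · rw [hℓ, Complex.ofReal_re]
    · rw [him, Complex.ofReal_im]
  have hone : ex (-α) * ex α = 1 := by
    have := Nxt_mul (-α) (-α)
    rw [neg_neg, sub_self] at this
    rw [this]
    unfold ex
    simp
  have hchord : T.γ S - T.γ s = (ℓ : ℂ) * ex α := by
    rw [← hz, mul_assoc, hone, mul_one]
  refine ⟨ℓ, ?_, by rw [← hchord]; ring⟩
  have hval : ∀ β : ℝ, Nxt_h T β S - Nxt_h T β s = ℓ * Real.sin (α - β) := by
    intro β
    unfold Nxt_h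
    rw [← Complex.sub_im, ← sub_mul, hchord, mul_assoc, Nxt_mul, Complex.im_ofReal_mul, Nxt_im]
  rcases le_or_gt (T.τ S - T.τ s) Real.pi with hle | hgt
  · have hM : StrictMonoOn (Nxt_h T (T.τ s)) (Icc s S) := by
      apply Nxt_mono
      intro x hx
      have g1 := hτm hx.1
      have g2 := hτm hx.2
      apply Real.sin_pos_of_pos_of_lt_pi
      · linarith
      · linarith
    have g3 := hM ⟨le_rfl, h1.le⟩ ⟨h1.le, le_rfl⟩ h1
    have g4 := hval (T.τ s)
    have g5 : 0 < Real.sin (α - T.τ s) := by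
      rw [hα, add_sub_cancel_left]
      exact Real.sin_pos_of_pos_of_lt_pi hθ.1 hθ.2
    have g6 : 0 < ℓ * Real.sin (α - T.τ s) := by linarith
    exact (mul_pos_iff_of_pos_right g5).mp g6
  · have hM : StrictMonoOn (Nxt_h T (T.τ S)) (Icc S (s + T.L)) := by
      apply Nxt_mono
      intro x hx
      have g1 := hτm hx.1
      have g2 := hτm hx.2
      apply Real.sin_pos_of_pos_of_lt_pi
      · linarith
      · linarith
    have g3 := hM ⟨le_rfl, h2.le⟩ ⟨h2.le, le_rfl⟩ h2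
    have hper : Nxt_h T (T.τ S) (s + T.L) = Nxt_h T (T.τ S) s := by
      unfold Nxt_h
      rw [T.periodic]
    rw [hper] at g3
    have g4 := hval (T.τ S)
    have g5 : 0 < Real.sin (T.τ S - α) := by
      apply Real.sin_pos_of_pos_of_lt_pi
      · linarith
      · linarith
    have g7 : Real.sin (α - T.τ S) = - Real.sin (T.τ S - α) := by
      rw [← Real.sin_neg]
      congr 1
      ring
    rw [g7] at g4
    have g6 : 0 < ℓ * Real.sin (T.τ S - α) := by linarith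
    exact (mul_pos_iff_of_pos_right g5).mp g6

lemma exists_next (T : Table) (hκ : ∀ s, 0 < deriv T.τ s) : ∃ S : ℝ → ℝ → ℝ,
    ContinuousOn (fun z : ℝ × ℝ => S z.1 z.2) (univ ×ˢ Ioo 0 Real.pi) ∧
    ∀ s, ∀ θ ∈ Ioo 0 Real.pi, T.Bounce s θ (S s θ) (T.τ (S s θ) - T.τ s - θ) := by
  classical
  have hex : ∀ s θ : ℝ, ∃ S : ℝ, θ ∈ Ioo 0 Real.pi → s < S ∧ S < s + T.L ∧ T.τ s + θ < T.τ S ∧
      T.τ S < T.τ s + θ + Real.pi ∧ Nxt_h T (T.τ s + θ) S = Nxt_h T (T.τ s + θ) s ∧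
      (∀ x, s < x → x < S → Nxt_h T (T.τ s + θ) x < Nxt_h T (T.τ s + θ) s) ∧
      (∀ x, S < x → x < s + T.L → Nxt_h T (T.τ s + θ) s < Nxt_h T (T.τ s + θ) x) := by
    intro s θ
    by_cases hθ : θ ∈ Ioo 0 Real.pi
    · obtain ⟨S, hS⟩ := Nxt_sign T hκ s hθ
      exact ⟨S, fun _ => hS⟩
    · exact ⟨0, fun h => absurd h hθ⟩
  choose S hS using hex
  refine ⟨S, ?_, ?_⟩
  · have hγc : Continuous T.γ := continuous_iff_continuousAt.2 fun x => (T.tangent x).continuousAt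
    have hτc : Continuous T.τ := T.smooth.continuous
    have hD : ∀ x : ℝ, Continuous (fun z : ℝ × ℝ =>
        Nxt_h T (T.τ z.1 + z.2) x - Nxt_h T (T.τ z.1 + z.2) z.1) := by
      intro x
      unfold Nxt_h
      have c1 : Continuous (fun z : ℝ × ℝ => ex (-(T.τ z.1 + z.2))) :=
        Nxt_cont.comp ((hτc.comp continuous_fst).add continuous_snd).neg
      exact (Complex.continuous_im.comp (continuous_const.mul c1)).sub
        (Complex.continuous_im.comp ((hγc.comp continuous_fst).mul c1))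
    rintro ⟨s₀, θ₀⟩ hz
    have hθ₀ : θ₀ ∈ Ioo 0 Real.pi := hz.2
    obtain ⟨a1, a2, a3, a4, a5, a6, a7⟩ := hS s₀ θ₀ hθ₀
    have hθev : ∀ᶠ z : ℝ × ℝ in 𝓝[univ ×ˢ Ioo 0 Real.pi] (s₀, θ₀), z.2 ∈ Ioo 0 Real.pi := by
      filter_upwards [self_mem_nhdsWithin] with z hz
      exact hz.2
    refine tendsto_order.2 ⟨fun a ha => ?_, fun b hb => ?_⟩
    · have ha' : a < S s₀ θ₀ := ha
      obtain ⟨a', ha1, ha2⟩ : ∃ a', max a s₀ < a' ∧ a' < S s₀ θ₀ :=
        exists_between (max_lt ha' a1)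
      have hs : s₀ < a' := (le_max_right _ _).trans_lt ha1
      have haa : a < a' := (le_max_left _ _).trans_lt ha1
      have e1 : ∀ᶠ z : ℝ × ℝ in 𝓝 (s₀, θ₀), z.1 < a' :=
        continuous_fst.continuousAt.eventually_lt continuousAt_const hs
      have e2 : ∀ᶠ z : ℝ × ℝ in 𝓝 (s₀, θ₀), a' - T.L < z.1 :=
        continuousAt_const.eventually_lt continuous_fst.continuousAt (by
          show a' - T.L < s₀
          linarith)
      have e3 : ∀ᶠ z : ℝ × ℝ in 𝓝 (s₀, θ₀),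
          Nxt_h T (T.τ z.1 + z.2) a' - Nxt_h T (T.τ z.1 + z.2) z.1 < 0 :=
        (hD a').continuousAt.eventually_lt continuousAt_const (by
          show Nxt_h T (T.τ s₀ + θ₀) a' - Nxt_h T (T.τ s₀ + θ₀) s₀ < 0
          linarith [a6 a' hs ha2])
      filter_upwards [mem_nhdsWithin_of_mem_nhds e1, mem_nhdsWithin_of_mem_nhds e2,
        mem_nhdsWithin_of_mem_nhds e3, hθev] with z h1 h2 h3 h4
      have h1' : z.1 < a' := h1
      have h2' : a' - T.L < z.1 := h2
      have h3' : Nxt_h T (T.τ z.1 + z.2) a' - Nxt_h T (T.τ z.1 + z.2) z.1 < 0 := h3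
      obtain ⟨b1, b2, b3, b4, b5, b6, b7⟩ := hS z.1 z.2 h4
      show a < S z.1 z.2
      by_contra hcon
      rw [not_lt] at hcon
      have h5 : S z.1 z.2 < a' := lt_of_le_of_lt hcon haa
      have h6 := b7 a' h5 (by linarith)
      linarith
    · have hb' : S s₀ θ₀ < b := hb
      obtain ⟨b', hb1, hb2⟩ : ∃ b', S s₀ θ₀ < b' ∧ b' < min b (s₀ + T.L) :=
        exists_between (lt_min hb' a2)
      have hs : b' < s₀ + T.L := hb2.trans_le (min_le_right _ _)
      have hbb : b' < b := hb2.trans_le (min_le_left _ _)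
      have e1 : ∀ᶠ z : ℝ × ℝ in 𝓝 (s₀, θ₀), z.1 < b' :=
        continuous_fst.continuousAt.eventually_lt continuousAt_const (by
          show s₀ < b'
          linarith)
      have e2 : ∀ᶠ z : ℝ × ℝ in 𝓝 (s₀, θ₀), b' - T.L < z.1 :=
        continuousAt_const.eventually_lt continuous_fst.continuousAt (by
          show b' - T.L < s₀
          linarith)
      have e3 : ∀ᶠ z : ℝ × ℝ in 𝓝 (s₀, θ₀),
          0 < Nxt_h T (T.τ z.1 + z.2) b' - Nxt_h T (T.τ z.1 + z.2) z.1 :=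
        continuousAt_const.eventually_lt (hD b').continuousAt (by
          show 0 < Nxt_h T (T.τ s₀ + θ₀) b' - Nxt_h T (T.τ s₀ + θ₀) s₀
          linarith [a7 b' hb1 hs])
      filter_upwards [mem_nhdsWithin_of_mem_nhds e1, mem_nhdsWithin_of_mem_nhds e2,
        mem_nhdsWithin_of_mem_nhds e3, hθev] with z h1 h2 h3 h4
      have h1' : z.1 < b' := h1
      have h2' : b' - T.L < z.1 := h2
      have h3' : 0 < Nxt_h T (T.τ z.1 + z.2) b' - Nxt_h T (T.τ z.1 + z.2) z.1 := h3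
      obtain ⟨b1, b2, b3, b4, b5, b6, b7⟩ := hS z.1 z.2 h4
      show S z.1 z.2 < b
      by_contra hcon
      rw [not_lt] at hcon
      have h5 : b' < S z.1 z.2 := lt_of_lt_of_le hbb hcon
      have h6 := b6 b' h1' h5
      linarith
  · intro s θ hθ
    obtain ⟨a1, a2, a3, a4, a5, _, _⟩ := hS s θ hθ
    exact Nxt_bounce T hκ s hθ a1 a2 a3 a4 a5

end Pool.Agent.H46.BL
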