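/-
LEF : the billiard map on an invariant circle, and the variational characterisation (string constant).

PROOFS.
* leaf_map: S from exists_next, f s := S s (g s), continuous (S is continuous on ℝ × (0, π), g continuous in (0, π)).
  Bounce s (g s) (f s) (θ') with θ' = τ (f s) - τ s - g s, and θ' = g (f s) by hg.inv.  f is injective: if f s₁ = f s₂ = s',
  s₁ < s₂, then angle_lt gives g s' < g s'.  A continuous injective function ℝ → ℝ is strictly monotone or strictly antitone
  (Continuous.strictMono_of_inj); it is not antitone since s < f s (f s → ∞ as s → ∞).  Surjective: s < f s < s + L gives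
  f → ±∞ at ±∞ (Continuous.surjective).
* leaf_max: fix s and put B(s') = ‖γ s' - γ s‖ - ∫_s^{s'} cos (g x) dx on (s, s + L).  By exists_angles and len_right the
  derivative at s' is cos θ' - cos (g s') where Bounce s θ s' θ'.  If s' < f s: let s₀ with f s₀ = s' (surjective), s₀ < s
  (strict monotonicity), s₀ < s' < s₀ + L, Bounce s₀ (g s₀) s' (g s'), so by angle_lt (s₀ < s) θ' < g s', the derivative is
  positive.  If s' > f s: s₀ > s, and g s' < θ', the derivative is negative.  So B has on (s, s + L) its strict maximum at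
  s' = f s (StrictMonoOn (Ioc s (f s)), StrictAntiOn (Ico (f s) (s + L))).  Let M s = ‖γ (f s) - γ s‖ - ∫_s^{f s} cos (g x) dx.
  M is constant: for s, t close to each other (so that s < f t < s + L and t < f s < t + L; f is continuous)
  M t ≥ B(t, f s) and M s ≥ B(s, f t), hence  B(t, f s) - B(s, f s) ≤ M t - M s ≤ B(t, f t) - B(s, f t).
  For fixed s' the function x ↦ B(x, s') has the derivative - cos θ + cos (g x), Bounce x θ s' θ' (len_left, exists_angles);
  by the mean value theorem both bounds are of the form (t - s) * (- cos θ + cos (g x)) with x between s and t and s' = f s or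
  f t; as t → s the angle θ of the chord (x, s') tends to that of (s, f s), which is g s (continuity of the angle: e.g.
  θ = arg ((γ s' - γ x) * ex (-τ x)), continuous in (x, s') on the region x < s' < x + L since the argument has positive
  imaginary part), so M has derivative 0 everywhere, and is constant =: A.
* The equality case is the strictness of the maximum.
-/
import Mathlib
import Pool.Agent.H46.BL.Ang
import Pool.Agent.H46.BL.Nxt

set_option autoImplicit false

namespace Pool.Agent.H46.BL

open Set Filter Topology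
open scoped ContDiff

/-- a continuous function which does not decrease to first order at any point is constant -/
lemma Lef_mono {M : ℝ → ℝ} (hM : Continuous M)
    (h : ∀ s, ∀ ε > 0, ∀ᶠ t in 𝓝 s, M s - ε * |t - s| ≤ M t) {a b : ℝ} (hab : a ≤ b) : M a ≤ M b := by
  have h1 := image_le_of_liminf_slope_right_le_deriv_boundary (f := fun x => -M x) (a := a) (b := b)
    (B := fun _ => -M a) (B' := fun _ => 0) hM.neg.continuousOn le_rfl continuousOn_const
    (fun x _ => hasDerivWithinAt_const _ _ _)
    (by
      intro x _ r hr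
      apply Filter.Eventually.frequently
      have h2 := (h x (r / 2) (by linarith)).filter_mono (nhdsWithin_le_nhds (s := Ioi x))
      filter_upwards [h2, self_mem_nhdsWithin] with z hz hzx
      have hzx' : 0 < z - x := sub_pos.2 hzx
      rw [abs_of_pos hzx'] at hz
      rw [slope_def_field, div_lt_iff₀ hzx']
      nlinarith)
  have h2 := h1 (show b ∈ Icc a b from ⟨hab, le_rfl⟩)
  linarith

lemma Lef_const {M : ℝ → ℝ} (hM : Continuous M)
    (h : ∀ s, ∀ ε > 0, ∀ᶠ t in 𝓝 s, M s - ε * |t - s| ≤ M t) (a b : ℝ) : M a = M b := by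
  have key : ∀ a b : ℝ, a ≤ b → M a = M b := by
    intro a b hab
    apply le_antisymm (Lef_mono hM h hab)
    have h1 := Lef_mono (M := fun x => M (-x)) (hM.comp continuous_neg) (by
      intro s ε hε
      have h2 := (continuous_neg.tendsto s).eventually (h (-s) ε hε)
      filter_upwards [h2] with t ht
      have h3 : |-t - -s| = |t - s| := by
        rw [← abs_neg]
        congr 1
        ring
      rw [h3] at ht
      exact ht) (neg_le_neg hab)
    simpa using h1
  rcases le_total a b with hab | hab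
  · exact key a b hab
  · exact (key b a hab).symm

lemma leaf_map (T : Table) (hκ : ∀ s, 0 < deriv T.τ s) {g : ℝ → ℝ} (hg : T.Leaf g) :
    ∃ f : ℝ → ℝ, Continuous f ∧ StrictMono f ∧ Function.Surjective f ∧
      ∀ s, T.Bounce s (g s) (f s) (g (f s)) := by
  obtain ⟨S, hSc, hS⟩ := exists_next T hκ
  have hB : ∀ s, T.Bounce s (g s) (S s (g s)) (g (S s (g s))) := by
    intro s
    have h1 := hS s (g s) (hg.mem s)
    have h2 := (hg.inv _ _ _ _ h1).1 rfl
    rw [h2] at h1
    exact h1
  have hc : Continuous fun s => S s (g s) := by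
    rw [← continuousOn_univ]
    exact hSc.comp (continuous_id.prodMk hg.cont).continuousOn (fun s _ => ⟨mem_univ _, hg.mem s⟩)
  have hinj : Function.Injective fun s => S s (g s) := by
    have key : ∀ s₁ s₂ : ℝ, s₁ < s₂ → S s₁ (g s₁) = S s₂ (g s₂) → False := by
      intro s₁ s₂ h12 heq
      have h1 := hB s₁
      have h2 := hB s₂
      rw [← heq] at h2
      exact lt_irrefl _ (angle_lt T hκ h12 h1 h2)
    intro s₁ s₂ heq
    rcases lt_trichotomy s₁ s₂ with h | h | h
    · exact (key _ _ h heq).elim
    · exact h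
    · exact (key _ _ h heq.symm).elim
  have hgt : ∀ s, s < S s (g s) := fun s => (hB s).2.2.1
  have hlt : ∀ s, S s (g s) < s + T.L := fun s => (hB s).2.2.2.1
  refine ⟨fun s => S s (g s), hc, ?_, ?_, hB⟩
  · rcases hc.strictMono_of_inj hinj with h | h
    · exact h
    · exfalso
      have h1 := h (show (0:ℝ) < max 1 (S 0 (g 0)) from lt_of_lt_of_le one_pos (le_max_left _ _))
      have h2 := hgt (max 1 (S 0 (g 0)))
      have h3 := le_max_right 1 (S 0 (g 0))
      simp only at h1
      linarith
  · apply hc.surjective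
    · exact tendsto_atTop_mono (fun s => (hgt s).le) tendsto_id
    · exact tendsto_atBot_mono (fun s => (hlt s).le) (tendsto_atBot_add_const_right _ _ tendsto_id)

lemma leaf_max (T : Table) (hκ : ∀ s, 0 < deriv T.τ s) {g : ℝ → ℝ} (hg : T.Leaf g) {f : ℝ → ℝ}
    (hf1 : Continuous f) (hf2 : StrictMono f) (hf3 : Function.Surjective f)
    (hf4 : ∀ s, T.Bounce s (g s) (f s) (g (f s))) :
    ∃ A : ℝ, ∀ s s', s < s' → s' < s + T.L →
      ‖T.γ s' - T.γ s‖ - (∫ x in s..s', Real.cos (g x)) ≤ A ∧
      (‖T.γ s' - T.γ s‖ - (∫ x in s..s', Real.cos (g x)) = A ↔ s' = f s) := by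
  have hγc : Continuous T.γ := continuous_iff_continuousAt.2 fun x => (T.tangent x).continuousAt
  have hcg : Continuous fun x => Real.cos (g x) := Real.continuous_cos.comp hg.cont
  obtain ⟨B, hB⟩ : ∃ B : ℝ → ℝ → ℝ, ∀ s s', B s s' =
    ‖T.γ s' - T.γ s‖ - (∫ x in s..s', Real.cos (g x)) := ⟨_, fun _ _ => rfl⟩
  have hgt : ∀ s, s < f s := fun s => (hf4 s).2.2.1
  have hlt : ∀ s, f s < s + T.L := fun s => (hf4 s).2.2.2.1
  -- derivative in the second variable
  have hder2 : ∀ s θ s' θ', T.Bounce s θ s' θ' →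
      HasDerivAt (B s) (Real.cos θ' - Real.cos (g s')) s' := by
    intro s θ s' θ' hb
    have h1 := len_right T hb
    have h2 : HasDerivAt (fun u => ∫ x in s..u, Real.cos (g x)) (Real.cos (g s')) s' :=
      (hcg.integral_hasStrictDerivAt s s').hasDerivAt
    have h3 := h1.sub h2
    have h4 : B s = (fun x => ‖T.γ x - T.γ s‖) - fun u => ∫ x in s..u, Real.cos (g x) := by
      funext u
      rw [hB]
      rfl
    rw [h4]
    exact h3
  have hder1 : ∀ s θ s' θ', T.Bounce s θ s' θ' →
      HasDerivAt (fun x => B x s') (-Real.cos θ + Real.cos (g s)) s := by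
    intro s θ s' θ' hb
    have h1 := len_left T hb
    have h2 : HasDerivAt (fun u => ∫ x in s'..u, Real.cos (g x)) (Real.cos (g s)) s :=
      (hcg.integral_hasStrictDerivAt s' s).hasDerivAt
    have h3 := h1.add h2
    have h4 : (fun x => B x s') = (fun x => ‖T.γ s' - T.γ x‖) + fun u => ∫ x in s'..u, Real.cos (g x) := by
      funext u
      rw [hB, intervalIntegral.integral_symm, sub_neg_eq_add]
      rfl
    rw [h4]
    exact h3
  have hpos : ∀ s s', s < s' → s' < f s → ∃ d, HasDerivAt (B s) d s' ∧ 0 < d := by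
    intro s s' h1 h2
    obtain ⟨θ, θ', hb⟩ := exists_angles T hκ h1 (h2.trans (hlt s))
    obtain ⟨s₀, hs₀⟩ := hf3 s'
    have h3 : s₀ < s := by
      rw [← hf2.lt_iff_lt, hs₀]
      exact h2
    have h4 := hf4 s₀
    rw [hs₀] at h4
    have h5 := angle_lt T hκ h3 h4 hb
    refine ⟨_, hder2 _ _ _ _ hb, ?_⟩
    have h6 := Real.cos_lt_cos_of_nonneg_of_le_pi (hb.2.1.1.le) (hg.mem s').2.le h5
    linarith
  have hneg : ∀ s s', f s < s' → s' < s + T.L → ∃ d, HasDerivAt (B s) d s' ∧ d < 0 := by
    intro s s' h1 h2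
    obtain ⟨θ, θ', hb⟩ := exists_angles T hκ ((hgt s).trans h1) h2
    obtain ⟨s₀, hs₀⟩ := hf3 s'
    have h3 : s < s₀ := by
      rw [← hf2.lt_iff_lt, hs₀]
      exact h1
    have h4 := hf4 s₀
    rw [hs₀] at h4
    have h5 := angle_lt T hκ h3 hb h4
    refine ⟨_, hder2 _ _ _ _ hb, ?_⟩
    have h6 := Real.cos_lt_cos_of_nonneg_of_le_pi (hg.mem s').1.le hb.2.1.2.le h5
    linarith
  have hBc : ∀ s, Continuous (B s) := by
    intro s
    have h4 : B s = (fun x => ‖T.γ x - T.γ s‖) - fun u => ∫ x in s..u, Real.cos (g x) := by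
      funext u
      rw [hB]
      rfl
    rw [h4]
    refine Continuous.sub ((hγc.sub continuous_const).norm) ?_
    exact continuous_iff_continuousAt.2 fun t =>
      (hcg.integral_hasStrictDerivAt s t).hasDerivAt.continuousAt
  have hM1 : ∀ s, StrictMonoOn (B s) (Ioc s (f s)) := by
    intro s
    apply strictMonoOn_of_deriv_pos (convex_Ioc _ _) (hBc s).continuousOn
    intro x hx
    rw [interior_Ioc] at hx
    obtain ⟨d, hd, hd0⟩ := hpos s x hx.1 hx.2
    rw [hd.deriv]
    exact hd0
  have hM2 : ∀ s, StrictAntiOn (B s) (Ico (f s) (s + T.L)) := by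
    intro s
    apply strictAntiOn_of_deriv_neg (convex_Ico _ _) (hBc s).continuousOn
    intro x hx
    rw [interior_Ico] at hx
    obtain ⟨d, hd, hd0⟩ := hneg s x hx.1 hx.2
    rw [hd.deriv]
    exact hd0
  have hmax : ∀ s s', s < s' → s' < s + T.L → s' ≠ f s → B s s' < B s (f s) := by
    intro s s' h1 h2 h3
    rcases lt_or_gt_of_ne h3 with h | h
    · exact hM1 s ⟨h1, h.le⟩ ⟨hgt s, le_rfl⟩ h
    · exact hM2 s ⟨le_rfl, hlt s⟩ ⟨h.le, h2⟩ h
  have hmax' : ∀ s s', s < s' → s' < s + T.L → B s s' ≤ B s (f s) := by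
    intro s s' h1 h2
    by_cases h3 : s' = f s
    · rw [h3]
    · exact (hmax s s' h1 h2 h3).le
  -- the maximum is constant
  have hMc : Continuous fun s => B s (f s) := by
    have h4 : (fun s => B s (f s)) = fun s => ‖T.γ (f s) - T.γ s‖ -
        ((∫ x in (0:ℝ)..(f s), Real.cos (g x)) - ∫ x in (0:ℝ)..s, Real.cos (g x)) := by
      funext s
      rw [hB, intervalIntegral.integral_interval_sub_left (hcg.intervalIntegrable _ _)
        (hcg.intervalIntegrable _ _)]
    rw [h4]
    have h5 : Continuous fun u => ∫ x in (0:ℝ)..u, Real.cos (g x) :=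
      continuous_iff_continuousAt.2 fun t =>
        (hcg.integral_hasStrictDerivAt 0 t).hasDerivAt.continuousAt
    exact (((hγc.comp hf1).sub hγc).norm).sub ((h5.comp hf1).sub h5)
  have hM : ∀ s t, B s (f s) = B t (f t) := by
    apply Lef_const hMc
    intro s ε hε
    have h1 := hder1 _ _ _ _ (hf4 s)
    rw [neg_add_cancel] at h1
    have h2 := h1.isLittleO.def hε
    have h3 : ∀ᶠ t in 𝓝 s, t < f s := eventually_lt_nhds (hgt s)
    have h4 : ∀ᶠ t in 𝓝 s, f s - T.L < t := eventually_gt_nhds (by linarith [hlt s])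
    filter_upwards [h2, h3, h4] with t h5 h6 h7
    have h8 := hmax' t (f s) h6 (by linarith)
    simp only [smul_zero, sub_zero, Real.norm_eq_abs] at h5
    have h9 := (abs_le.1 h5).1
    linarith
  refine ⟨B 0 (f 0), fun s s' h1 h2 => ?_⟩
  rw [← hB, ← hM s 0]
  refine ⟨hmax' s s' h1 h2, fun h3 => ?_, fun h3 => by rw [h3]⟩
  by_contra h4
  exact absurd h3 (hmax s s' h1 h2 h4).ne

end Pool.Agent.H46.BL
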