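/-
PON : a foliated collar and positive curvature give closed polygons through every boundary point.

PROOF.  Let S be given by exists_next.  For c ∈ (0,1) and s put x c 0 = s, x c (i+1) = S (x c i) (g c (x c i)).
By induction on i, c ↦ x c i is continuous on (0,1) (S and g are continuous, g ∈ (0, π)).  By the invariance of the
graph of g c (Foliated, with θ = g c (x c i)) the new angle θ' = τ (x c (i+1)) - τ (x c i) - θ equals g c (x c (i+1)).
Hence τ (x c (i+1)) - τ (x c i) = g c (x c i) + g c (x c (i+1)).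
Let k ≤ deriv τ ≤ K (curv_bounds).  By the mean value theorem
 (g c (x i) + g c (x (i+1))) / K ≤ x (i+1) - x i ≤ (g c (x i) + g c (x (i+1))) / k.
Let m₀ > 0 be the minimum of g (1/2) (continuous, periodic, positive).  N := a natural number with N * m₀ / K ≥ L, N ≥ 1.
For n ≥ N: x (1/2) n ≥ s + L.  For small c (last clause of Foliated with δ = k L / (2 n + 2)) x c n < s + L.  By the
intermediate value theorem there is c ∈ (0, 1/2] with x c n = s + L.  Take x = x c, θ i = g c (x c i);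
θ n = g c (s + L) = g c s = θ 0.
-/
import Mathlib
import Pool.Agent.H46.BL.Cmp
import Pool.Agent.H46.BL.Nxt

set_option autoImplicit false

namespace Pool.Agent.H46.BL

open Set Filter Topology
open scoped ContDiff

/-- the orbit with angle function `h` starting at `s` -/
noncomputable def Pon_x (S : ℝ → ℝ → ℝ) (h : ℝ → ℝ) (s : ℝ) : ℕ → ℝ
  | 0 => s
  | i + 1 => S (Pon_x S h s i) (h (Pon_x S h s i))

lemma Pon_tau (T : Table) {k K : ℝ} (h : ∀ s, k ≤ deriv T.τ s ∧ deriv T.τ s ≤ K) {a b : ℝ} (hab : a < b) :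
    k * (b - a) ≤ T.τ b - T.τ a ∧ T.τ b - T.τ a ≤ K * (b - a) := by
  have hd : Differentiable ℝ T.τ := T.smooth.differentiable (by simp)
  obtain ⟨ξ, -, hξ⟩ := exists_deriv_eq_slope T.τ hab hd.continuous.continuousOn
    hd.differentiableOn
  have hpos : 0 < b - a := sub_pos.mpr hab
  have he : T.τ b - T.τ a = deriv T.τ ξ * (b - a) := by
    rw [hξ]; field_simp
  rw [he]
  exact ⟨mul_le_mul_of_nonneg_right (h ξ).1 hpos.le, mul_le_mul_of_nonneg_right (h ξ).2 hpos.le⟩

lemma closed_of_foliated (T : Table) (hκ : ∀ s, 0 < deriv T.τ s) {g : ℝ → ℝ → ℝ} {ε : ℝ}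
    (h : T.Foliated g ε) : T.Closed := by
  obtain ⟨hε, hgc, hper, hgπ, hinv, hmono, hfill, hshr⟩ := h
  obtain ⟨k, K, hk, hkK⟩ := curv_bounds T hκ
  have hK : 0 < K := hk.trans_le ((hkK 0).1.trans (hkK 0).2)
  obtain ⟨S, hSc, hSB⟩ := exists_next T hκ
  have hL := T.Lpos
  -- one step
  have hstep : ∀ s : ℝ, ∀ c ∈ Ioo (0 : ℝ) 1, ∀ i : ℕ,
      T.Bounce (Pon_x S (g c) s i) (g c (Pon_x S (g c) s i)) (Pon_x S (g c) s (i + 1))
        (g c (Pon_x S (g c) s (i + 1))) := by
    intro s c hc i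
    have h1 := hSB (Pon_x S (g c) s i) (g c (Pon_x S (g c) s i)) (hgπ c hc _)
    have h2 := (hinv c hc _ _ _ _ h1).mp rfl
    rw [h2] at h1
    exact h1
  have hcont : ∀ s : ℝ, ∀ i : ℕ, ContinuousOn (fun c => Pon_x S (g c) s i) (Ioo 0 1) := by
    intro s i
    induction i with
    | zero => exact continuousOn_const
    | succ i ih =>
      have h1 : ContinuousOn (fun c => g c (Pon_x S (g c) s i)) (Ioo 0 1) := by
        have := hgc.comp (f := fun c : ℝ => (c, Pon_x S (g c) s i)) (s := Ioo 0 1)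
          (continuousOn_id.prodMk ih) (fun c hc => ⟨hc, mem_univ _⟩)
        exact this
      have h2 := hSc.comp (f := fun c : ℝ => (Pon_x S (g c) s i, g c (Pon_x S (g c) s i)))
        (s := Ioo 0 1) (ih.prodMk h1) (fun c hc => ⟨mem_univ _, hgπ c hc _⟩)
      exact h2
  -- the minimum of `g (1/2)`
  have hhalf : (1 / 2 : ℝ) ∈ Ioo (0 : ℝ) 1 := by constructor <;> norm_num
  have hgh : Continuous (g (1 / 2)) := by
    have h1 := hgc.comp (f := fun s : ℝ => ((1 / 2 : ℝ), s)) (s := univ)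
      (continuousOn_const.prodMk continuousOn_id) (fun s _ => ⟨hhalf, mem_univ _⟩)
    exact continuousOn_univ.mp h1
  obtain ⟨s₀, hs₀, hmin⟩ := (isCompact_Icc (a := (0 : ℝ)) (b := T.L)).exists_isMinOn
    ⟨0, by constructor <;> linarith⟩ hgh.continuousOn
  set m₀ := g (1 / 2) s₀ with hm₀
  have hm₀pos : 0 < m₀ := (hgπ _ hhalf s₀).1
  have hm₀min : ∀ s, m₀ ≤ g (1 / 2) s := by
    intro s
    have hp : Function.Periodic (g (1 / 2)) T.L := fun s => hper _ hhalf s
    obtain ⟨y, hy, hy2⟩ := hp.exists_mem_Ico₀ hL s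
    rw [hy2]
    exact hmin ⟨hy.1, hy.2.le⟩
  refine ⟨⌈T.L * K / m₀⌉₊ + 1, fun n hn s => ?_⟩
  have hnL : T.L ≤ n * (m₀ / K) := by
    have h1 : T.L * K / m₀ ≤ n := by
      have := Nat.le_ceil (T.L * K / m₀)
      have h2 : ((⌈T.L * K / m₀⌉₊ + 1 : ℕ) : ℝ) ≤ n := by exact_mod_cast hn
      push_cast at h2
      linarith
    rw [div_le_iff₀ hm₀pos] at h1
    rw [← mul_div_assoc, le_div_iff₀ hK]
    exact h1
  have hbig : s + T.L ≤ Pon_x S (g (1 / 2)) s n := by
    have : ∀ i : ℕ, s + i * (m₀ / K) ≤ Pon_x S (g (1 / 2)) s i := by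
      intro i
      induction i with
      | zero => simp [Pon_x]
      | succ i ih =>
        have hb := hstep s _ hhalf i
        have h1 := (Pon_tau T hkK hb.2.2.1).2
        have h2 := hb.2.2.2.2.1
        have h3 := hm₀min (Pon_x S (g (1 / 2)) s i)
        have h4 := hb.2.1.1
        have h5 : m₀ ≤ K * (Pon_x S (g (1 / 2)) s (i + 1) - Pon_x S (g (1 / 2)) s i) := by linarith
        have h6 : m₀ / K ≤ Pon_x S (g (1 / 2)) s (i + 1) - Pon_x S (g (1 / 2)) s i := by
          rw [div_le_iff₀ hK]; linarith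
        push_cast
        linarith
    have := this n
    linarith
  -- small `c`
  obtain ⟨c₀, hc₀, hsmall⟩ := hshr (k * T.L / (2 * n + 2)) (by positivity)
  set c₁ := min (c₀ / 2) (1 / 2) with hc₁
  have hc₁pos : 0 < c₁ := lt_min (by linarith [hc₀.1]) (by norm_num)
  have hc₁half : c₁ ≤ 1 / 2 := min_le_right _ _
  have hc₁c₀ : c₁ < c₀ := (min_le_left _ _).trans_lt (by linarith [hc₀.1])
  have hc₁m : c₁ ∈ Ioo (0 : ℝ) 1 := ⟨hc₁pos, by linarith⟩
  have hlow : Pon_x S (g c₁) s n < s + T.L := by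
    have hn1 : (0 : ℝ) < n + 1 := by positivity
    have : ∀ i : ℕ, Pon_x S (g c₁) s i ≤ s + i * (T.L / (n + 1)) := by
      intro i
      induction i with
      | zero => simp [Pon_x]
      | succ i ih =>
        have hb := hstep s _ hc₁m i
        have h1 := (Pon_tau T hkK hb.2.2.1).1
        have h2 := hb.2.2.2.2.1
        have h3 := hsmall c₁ ⟨hc₁pos, hc₁c₀⟩ (Pon_x S (g c₁) s i)
        have h4 := hsmall c₁ ⟨hc₁pos, hc₁c₀⟩ (Pon_x S (g c₁) s (i + 1))
        have h5 : k * T.L / (2 * n + 2) = k * (T.L / (n + 1)) / 2 := by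
          field_simp
        rw [h5] at h3 h4
        have h6 : k * (Pon_x S (g c₁) s (i + 1) - Pon_x S (g c₁) s i) ≤ k * (T.L / (n + 1)) := by
          linarith
        have h7 := le_of_mul_le_mul_left h6 hk
        push_cast
        linarith
    have h1 := this n
    have h2 : (n : ℝ) * (T.L / (n + 1)) < T.L := by
      rw [← mul_div_assoc, div_lt_iff₀ hn1]
      nlinarith
    linarith
  have hIcc : Icc c₁ (1 / 2) ⊆ Ioo (0 : ℝ) 1 := fun c hc => ⟨hc₁pos.trans_le hc.1, by linarith [hc.2]⟩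
  obtain ⟨c, hc, hcn⟩ := intermediate_value_Icc hc₁half ((hcont s n).mono hIcc) ⟨hlow.le, hbig⟩
  have hcm := hIcc hc
  refine ⟨Pon_x S (g c) s, fun i => g c (Pon_x S (g c) s i), rfl, fun i _ => hstep s c hcm i, hcn, ?_⟩
  show g c (Pon_x S (g c) s n) = g c (Pon_x S (g c) s 0)
  have hcn' : Pon_x S (g c) s n = s + T.L := hcn
  rw [hcn', hper c hcm]
  rfl

end Pool.Agent.H46.BL
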