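/-
PER : rational circles.

PROOF.  Let S be given by exists_next and for c ∈ (0,1) let f c be given by leaf_map for the leaf g c (h.leaf).  (As in
Pon.lean:) put x c 0 = s, x c (i+1) = S (x c i) (g c (x c i)); c ↦ x c i is continuous on (0,1).  All the relations
Bounce (x c i) (g c (x c i)) (x c (i+1)) (g c (x c (i+1))) hold (invariance).
Let k ≤ deriv τ ≤ K (curv_bounds).  By the mean value theorem and τ (x (i+1)) - τ (x i) = g (x i) + g (x (i+1)):
 (g c (x i) + g c (x (i+1))) / K ≤ x (i+1) - x i ≤ (g c (x i) + g c (x (i+1))) / k.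
Let m₀ > 0 be the minimum of g (1/2) and ρ := m₀ / (K L).  Let 0 < p, p < ρ q; then q > 0 and x (1/2) q ≥ s + q m₀ / K ≥ s + p L.
For small c (last clause of Foliated, δ = k L / (2 q + 2)) x c q < s + L ≤ s + p L.  By the intermediate value theorem there
is c(s) ∈ (0, 1/2] with x c q = s + p L.
UNIQUENESS: let c, c' ∈ (0,1), c ≠ c', and suppose the orbit of s on the circle c and that of s₁ on the circle c' close:
x q = s + p L, y q = s₁ + p L.  With A = A(c), A' = A(c') from leaf_max (applied to the maps of leaf_map; x (i+1) = f (x i)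
because ... simply use x (i+1) = f c (x i) as the definition of the orbit, it is the same point as S (x i) (g c (x i)): both are
next bounce points for the same (s, θ); or define S-free orbits with f c and prove continuity in c from f c s = S s (g c s) by
taking S := the function of exists_next inside leaf_map's proof; if awkward, note that a point s' with Bounce s θ s' θ' is
unique: angle_mono_left), and H = ∫_0^L cos (g c):
  Σ_{i<q} ‖γ (x (i+1)) - γ (x i)‖ = Σ (A + ∫_{x i}^{x (i+1)} cos (g c)) = q A + ∫_s^{s+pL} cos (g c) = q A + p H,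
  and by leaf_max for c' (strict: x (i+1) ≠ f c' (x i), otherwise angles_unique gives g c (x i) = g c' (x i), but
  g c < g c' or conversely)  it is < q A' + p H'.
So q A + p H < q A' + p H', and by symmetry also the converse: contradiction.  Hence c(s) does not depend on s.
(Periodic integrals: Function.Periodic.intervalIntegral_add_eq, or intervalIntegral_add_zsmul_eq.)
-/
import Mathlib
import Pool.Agent.H46.BL.Cmp
import Pool.Agent.H46.BL.Lef
import Pool.Agent.H46.BL.Pon

set_option autoImplicit false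

namespace Pool.Agent.H46.BL

open Set Filter Topology
open scoped ContDiff

/-- `A` is the string constant of the invariant circle `g` -/
def Per_P (T : Table) (g : ℝ → ℝ) (A : ℝ) : Prop :=
  ∃ f : ℝ → ℝ, (∀ s, T.Bounce s (g s) (f s) (g (f s))) ∧
    ∀ s s', s < s' → s' < s + T.L →
      ‖T.γ s' - T.γ s‖ - (∫ x in s..s', Real.cos (g x)) ≤ A ∧
      (‖T.γ s' - T.γ s‖ - (∫ x in s..s', Real.cos (g x)) = A ↔ s' = f s)

lemma Per_exists (T : Table) (hκ : ∀ s, 0 < deriv T.τ s) {g : ℝ → ℝ} (hg : T.Leaf g) :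
    ∃ A, Per_P T g A := by
  obtain ⟨f, hf1, hf2, hf3, hf4⟩ := leaf_map T hκ hg
  obtain ⟨A, hA⟩ := leaf_max T hκ hg hf1 hf2 hf3 hf4
  exact ⟨A, f, hf4, hA⟩

lemma Per_next (T : Table) (hκ : ∀ s, 0 < deriv T.τ s) {s θ s₁ θ₁ s₂ θ₂ : ℝ}
    (h1 : T.Bounce s θ s₁ θ₁) (h2 : T.Bounce s θ s₂ θ₂) : s₁ = s₂ := by
  rcases lt_trichotomy s₁ s₂ with h | h | h
  · exact absurd (angle_mono_left T hκ h h1 h2) (lt_irrefl _)
  · exact h
  · exact absurd (angle_mono_left T hκ h h2 h1) (lt_irrefl _)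

lemma Per_cosint {g : ℝ → ℝ} (hg : Continuous g) (a b : ℝ) :
    IntervalIntegrable (fun x => Real.cos (g x)) MeasureTheory.volume a b :=
  (Real.continuous_cos.comp hg).intervalIntegrable a b

lemma Per_int (T : Table) {g : ℝ → ℝ} (hg : T.Leaf g) {x : ℕ → ℝ} {p q : ℕ}
    (hx : x q = x 0 + p * T.L) :
    ∑ i ∈ Finset.range q, ∫ y in x i..x (i + 1), Real.cos (g y) =
      p * ∫ y in (0 : ℝ)..T.L, Real.cos (g y) := by
  rw [intervalIntegral.sum_integral_adjacent_intervals
    (fun i _ => Per_cosint hg.cont (x i) (x (i + 1))), hx]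
  have hper : Function.Periodic (fun y => Real.cos (g y)) T.L := fun y => by
    show Real.cos (g (y + T.L)) = Real.cos (g y)
    rw [hg.per]
  have h1 := hper.intervalIntegral_add_zsmul_eq (p : ℤ) (x 0) (Per_cosint hg.cont)
  have h2 := hper.intervalIntegral_add_eq (x 0) 0
  rw [h2, zero_add] at h1
  simpa using h1

lemma Per_strict (T : Table) (hκ : ∀ s, 0 < deriv T.τ s) {g g' : ℝ → ℝ} (hg : T.Leaf g)
    (hg' : T.Leaf g') (hne : ∀ s, g s ≠ g' s) {A A' : ℝ} (hA : Per_P T g A) (hA' : Per_P T g' A')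
    {x : ℕ → ℝ} (hx : ∀ i, T.Bounce (x i) (g (x i)) (x (i + 1)) (g (x (i + 1)))) {p q : ℕ}
    (hq : 0 < q) (hxq : x q = x 0 + p * T.L) :
    q * A + p * (∫ y in (0 : ℝ)..T.L, Real.cos (g y)) <
      q * A' + p * (∫ y in (0 : ℝ)..T.L, Real.cos (g' y)) := by
  obtain ⟨f, hf, hmax⟩ := hA
  obtain ⟨f', hf', hmax'⟩ := hA'
  have h1 : ∀ i, A + (∫ y in x i..x (i + 1), Real.cos (g y)) <
      A' + (∫ y in x i..x (i + 1), Real.cos (g' y)) := by
    intro i
    have hb := hx i
    have he : x (i + 1) = f (x i) := Per_next T hκ hb (hf (x i))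
    have ha := (hmax (x i) (x (i + 1)) hb.2.2.1 hb.2.2.2.1).2.2 he
    have hle := (hmax' (x i) (x (i + 1)) hb.2.2.1 hb.2.2.2.1).1
    have hnq : ‖T.γ (x (i + 1)) - T.γ (x i)‖ -
        (∫ y in x i..x (i + 1), Real.cos (g' y)) ≠ A' := by
      intro h
      have he' := (hmax' (x i) (x (i + 1)) hb.2.2.1 hb.2.2.2.1).2.1 h
      have hb' := hf' (x i)
      rw [← he'] at hb'
      exact hne (x i) (angles_unique T hb hb').1
    have hlt := lt_of_le_of_ne hle hnq
    linarith
  have h2 : ∑ i ∈ Finset.range q, (A + (∫ y in x i..x (i + 1), Real.cos (g y))) <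
      ∑ i ∈ Finset.range q, (A' + (∫ y in x i..x (i + 1), Real.cos (g' y))) :=
    Finset.sum_lt_sum_of_nonempty ⟨0, Finset.mem_range.2 hq⟩ fun i _ => h1 i
  rw [Finset.sum_add_distrib, Finset.sum_add_distrib, Per_int T hg hxq, Per_int T hg' hxq] at h2
  simpa using h2

lemma rational_of_foliated (T : Table) (hκ : ∀ s, 0 < deriv T.τ s) {g : ℝ → ℝ → ℝ} {ε : ℝ}
    (h : T.Foliated g ε) : T.Rational g := by
  have hleaf : ∀ c ∈ Ioo (0 : ℝ) 1, T.Leaf (g c) := fun c hc => h.leaf hc
  obtain ⟨hε, hgc, hper, hgπ, hinv, hmono, hfill, hshr⟩ := h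
  obtain ⟨k, K, hk, hkK⟩ := curv_bounds T hκ
  have hK : 0 < K := hk.trans_le ((hkK 0).1.trans (hkK 0).2)
  obtain ⟨S, hSc, hSB⟩ := exists_next T hκ
  have hL := T.Lpos
  -- one step
  have hstep : ∀ s : ℝ, ∀ c ∈ Ioo (0 : ℝ) 1, ∀ i : ℕ,
      T.Bounce (Pon_x S (g c) s i) (g c (Pon_x S (g c) s i)) (Pon_x S (g c) s (i + 1))
        (g c (Pon_x S (g c) s (i + 1))) := by
    intro s c hc i
    have h1 := hSB (Pon_x S (g c) s i) (g c (Pon_x S (g c) s i)) (hgπ c hc _)
    have h2 := (hinv c hc _ _ _ _ h1).mp rfl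
    rw [h2] at h1
    exact h1
  have hcont : ∀ s : ℝ, ∀ i : ℕ, ContinuousOn (fun c => Pon_x S (g c) s i) (Ioo 0 1) := by
    intro s i
    induction i with
    | zero => exact continuousOn_const
    | succ i ih =>
      have h1 : ContinuousOn (fun c => g c (Pon_x S (g c) s i)) (Ioo 0 1) := by
        have := hgc.comp (f := fun c : ℝ => (c, Pon_x S (g c) s i)) (s := Ioo 0 1)
          (continuousOn_id.prodMk ih) (fun c hc => ⟨hc, mem_univ _⟩)
        exact this
      have h2 := hSc.comp (f := fun c : ℝ => (Pon_x S (g c) s i, g c (Pon_x S (g c) s i)))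
        (s := Ioo 0 1) (ih.prodMk h1) (fun c hc => ⟨mem_univ _, hgπ c hc _⟩)
      exact h2
  -- the minimum of `g (1/2)`
  have hhalf : (1 / 2 : ℝ) ∈ Ioo (0 : ℝ) 1 := by constructor <;> norm_num
  have hgh : Continuous (g (1 / 2)) := (hleaf _ hhalf).cont
  obtain ⟨s₀, hs₀, hmin⟩ := (isCompact_Icc (a := (0 : ℝ)) (b := T.L)).exists_isMinOn
    ⟨0, by constructor <;> linarith⟩ hgh.continuousOn
  set m₀ := g (1 / 2) s₀ with hm₀
  have hm₀pos : 0 < m₀ := (hgπ _ hhalf s₀).1
  have hm₀min : ∀ s, m₀ ≤ g (1 / 2) s := by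
    intro s
    have hp : Function.Periodic (g (1 / 2)) T.L := fun s => hper _ hhalf s
    obtain ⟨y, hy, hy2⟩ := hp.exists_mem_Ico₀ hL s
    rw [hy2]
    exact hmin ⟨hy.1, hy.2.le⟩
  refine ⟨m₀ / (K * T.L), by positivity, fun p q hp hpq => ?_⟩
  have hq : 0 < q := by
    rcases Nat.eq_zero_or_pos q with h0 | h0
    · rw [h0] at hpq
      have : (0 : ℝ) < p := by exact_mod_cast hp
      simp at hpq
      linarith
    · exact h0
  have hnL : (p : ℝ) * T.L ≤ q * (m₀ / K) := by
    have h1 : (p : ℝ) * T.L ≤ m₀ / (K * T.L) * q * T.L :=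
      mul_le_mul_of_nonneg_right hpq.le hL.le
    have h2 : m₀ / (K * T.L) * q * T.L = q * (m₀ / K) := by field_simp
    rw [h2] at h1
    exact h1
  have hp1 : T.L ≤ p * T.L := by
    have : (1 : ℝ) ≤ p := by exact_mod_cast hp
    nlinarith
  have hex : ∀ s : ℝ, ∃ c ∈ Ioo (0 : ℝ) 1, Pon_x S (g c) s q = s + p * T.L := by
    intro s
    have hbig : s + p * T.L ≤ Pon_x S (g (1 / 2)) s q := by
      have : ∀ i : ℕ, s + i * (m₀ / K) ≤ Pon_x S (g (1 / 2)) s i := by
        intro i
        induction i with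
        | zero => simp [Pon_x]
        | succ i ih =>
          have hb := hstep s _ hhalf i
          have h1 := (Pon_tau T hkK hb.2.2.1).2
          have h2 := hb.2.2.2.2.1
          have h3 := hm₀min (Pon_x S (g (1 / 2)) s i)
          have h4 := hb.2.1.1
          have h5 : m₀ ≤ K * (Pon_x S (g (1 / 2)) s (i + 1) - Pon_x S (g (1 / 2)) s i) := by
            linarith
          have h6 : m₀ / K ≤ Pon_x S (g (1 / 2)) s (i + 1) - Pon_x S (g (1 / 2)) s i := by
            rw [div_le_iff₀ hK]; linarith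
          push_cast
          linarith
      have := this q
      linarith
    -- small `c`
    obtain ⟨c₀, hc₀, hsmall⟩ := hshr (k * T.L / (2 * q + 2)) (by positivity)
    set c₁ := min (c₀ / 2) (1 / 2) with hc₁
    have hc₁pos : 0 < c₁ := lt_min (by linarith [hc₀.1]) (by norm_num)
    have hc₁half : c₁ ≤ 1 / 2 := min_le_right _ _
    have hc₁c₀ : c₁ < c₀ := (min_le_left _ _).trans_lt (by linarith [hc₀.1])
    have hc₁m : c₁ ∈ Ioo (0 : ℝ) 1 := ⟨hc₁pos, by linarith⟩
    have hlow : Pon_x S (g c₁) s q ≤ s + p * T.L := by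
      have hn1 : (0 : ℝ) < q + 1 := by positivity
      have : ∀ i : ℕ, Pon_x S (g c₁) s i ≤ s + i * (T.L / (q + 1)) := by
        intro i
        induction i with
        | zero => simp [Pon_x]
        | succ i ih =>
          have hb := hstep s _ hc₁m i
          have h1 := (Pon_tau T hkK hb.2.2.1).1
          have h2 := hb.2.2.2.2.1
          have h3 := hsmall c₁ ⟨hc₁pos, hc₁c₀⟩ (Pon_x S (g c₁) s i)
          have h4 := hsmall c₁ ⟨hc₁pos, hc₁c₀⟩ (Pon_x S (g c₁) s (i + 1))
          have h5 : k * T.L / (2 * q + 2) = k * (T.L / (q + 1)) / 2 := by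
            field_simp
          rw [h5] at h3 h4
          have h6 : k * (Pon_x S (g c₁) s (i + 1) - Pon_x S (g c₁) s i) ≤
              k * (T.L / (q + 1)) := by
            linarith
          have h7 := le_of_mul_le_mul_left h6 hk
          push_cast
          linarith
      have h1 := this q
      have h2 : (q : ℝ) * (T.L / (q + 1)) < T.L := by
        rw [← mul_div_assoc, div_lt_iff₀ hn1]
        nlinarith
      linarith
    have hIcc : Icc c₁ (1 / 2) ⊆ Ioo (0 : ℝ) 1 :=
      fun c hc => ⟨hc₁pos.trans_le hc.1, by linarith [hc.2]⟩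
    obtain ⟨c, hc, hcn⟩ := intermediate_value_Icc hc₁half ((hcont s q).mono hIcc) ⟨hlow, hbig⟩
    exact ⟨c, hIcc hc, hcn⟩
  -- the circle does not depend on the point
  have hlt : ∀ s s₁ : ℝ, ∀ c ∈ Ioo (0 : ℝ) 1, ∀ c' ∈ Ioo (0 : ℝ) 1,
      Pon_x S (g c) s q = s + p * T.L → Pon_x S (g c') s₁ q = s₁ + p * T.L → c < c' → False := by
    intro s s₁ c hc c' hc' hcq hcq' hcc
    obtain ⟨A, hA⟩ := Per_exists T hκ (hleaf c hc)
    obtain ⟨A', hA'⟩ := Per_exists T hκ (hleaf c' hc')
    have hne : ∀ s, g c s ≠ g c' s := fun s => (hmono c hc c' hc' hcc s).ne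
    have e1 := Per_strict T hκ (hleaf c hc) (hleaf c' hc') hne hA hA' (hstep s c hc) hq hcq
    have e2 := Per_strict T hκ (hleaf c' hc') (hleaf c hc) (fun s => (hne s).symm) hA' hA
      (hstep s₁ c' hc') hq hcq'
    exact lt_asymm e1 e2
  obtain ⟨c, hc, hcq⟩ := hex 0
  refine ⟨c, hc, fun s => ?_⟩
  obtain ⟨c', hc', hcq'⟩ := hex s
  have hcc : c = c' := by
    rcases lt_trichotomy c c' with h | h | h
    · exact (hlt 0 s c hc c' hc' hcq hcq' h).elim
    · exact h
    · exact (hlt s 0 c' hc' c hc hcq' hcq h).elim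
  subst hcc
  exact ⟨Pon_x S (g c) s, rfl, hstep s c hc, hcq'⟩

end Pool.Agent.H46.BL
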