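/-
GLN : at a glancing vector dF and dH are dependent unless the second direction derivative and the curvature are not 0.

PROOF.  z₀ = (γ s, r ex (τ s)), P = T.phase = Y × {p ≠ 0} (convexity of Y and inter: uniqueDiffOn), F̂ z = F z.1 z.2, smooth on P,
Φ z = fderivWithin ℝ F̂ P z, continuous on P (ContDiffOn.continuousOn_fderivWithin).
For x, θ ∈ ℝ put z(x,θ) = (γ x, r ex (τ x + θ)) ∈ P, κ = deriv τ.  Chain rule (HasFDerivWithinAt.comp_hasDerivAt for curves
staying in P):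
 (1) ∂θ fn (x,θ) = Φ(z(x,θ)) (0, i r ex (τ x + θ));
 (2) ∂x fn (x,θ) = Φ(z(x,θ)) (ex (τ x), 0) + κ x * Φ(z(x,θ)) (0, i r ex (τ x + θ)) = Φ(z) (ex (τ x), 0) + κ x ∂θ fn (x,θ).
 (3) transport: for 0 < θ < π there is t₀ > 0 with γ x + t ex (τ x + θ) ∈ Y for 0 ≤ t ≤ t₀ (only needed when κ x > 0 ... in
     general: if the ray does not enter Y, then Y lies on one side ...).  To avoid this, get the transport identity by
     continuity from the interior: at an interior point q of Y and every p ≠ 0, F is constant on the segment, so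
     Φ(q,p) (p, 0) = 0; interior Y is dense in Y (convex, nonempty interior: Convex.closure_interior_eq_closure_of_nonempty_interior),
     Φ is continuous on P, so Φ(z) (z.2, 0) = 0 for every z ∈ P.
 Hence, with t = ex (τ x), n = i ex (τ x), ex (τ x + θ) = cos θ t + sin θ n:  cos θ Φ(z(x,θ)) (t,0) = - sin θ Φ(z(x,θ)) (n,0), so
 (4) cos θ (∂x fn (x,θ) - κ x ∂θ fn (x,θ)) = - sin θ Φ(z(x,θ)) (n, 0).
 At θ = 0: ∂θ fn (x,0) = gd 1 x = 0 (T.gd_odd), ∂x fn (x,0) = 0 (hypothesis h0).  Divide (4) by θ and let θ → 0: the left side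
 tends to ∂θ∂x fn (x,0) - κ x ∂θ∂θ fn (x,0) = 0 - κ x gd 2 x, where ∂θ∂x fn (x,0) = ∂x∂θ fn (x,0) = 0 (symmetry of second
 derivatives of the smooth function fn, T.fn_smooth, and ∂θ fn (x,0) = 0 for all x); the right side tends to - Φ(z(x,0)) (n,0).
 So (5) Φ(z₀)(n,0) = κ s * gd 2 s;  also Φ(z₀)(t,0) = 0 (θ = 0 in transport), Φ(z₀)(0, i r t) = gd 1 s = 0.
 If κ s = 0 or gd 2 s = 0, then Φ(z₀) vanishes on (t,0), (n,0), (0, i t), and so does the derivative of `energy` at z₀,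
 which is (dq, dp) ↦ Re (conj (r t) * dp).  As (0,t) completes these to a basis of ℂ × ℂ over ℝ, Φ(z₀) is a multiple of
 the derivative of `energy` (whose value at (0,t) is r ≠ 0): they are linearly dependent.
-/
import Mathlib
import Pool.Agent.H46.BL.Bas
import Pool.Agent.H46.BL.Dfb

set_option autoImplicit false

namespace Pool.Agent.H46.BL

open Set Filter Topology
open scoped ContDiff

lemma Gln_uniq (T : Table) : UniqueDiffOn ℝ T.phase := by
  refine UniqueDiffOn.prod (uniqueDiffOn_convex T.convex T.inter) ?_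
  exact (isOpen_ne (x := (0 : ℂ))).uniqueDiffOn

lemma Gln_ex_deriv (a : ℝ) : HasDerivAt ex (ex a * Complex.I) a := by
  unfold ex
  have h1 : HasDerivAt (fun a : ℝ => (a : ℂ) * Complex.I) (1 * Complex.I) a :=
    (Complex.ofRealCLM.hasDerivAt (x := a)).mul_const Complex.I
  rw [one_mul] at h1
  exact h1.cexp

lemma Gln_transport (T : Table) {F : ℂ → ℂ → ℝ} (hF : T.Integral F) :
    ∀ z ∈ T.phase, fderivWithin ℝ (fun z : ℂ × ℂ => F z.1 z.2) T.phase z (z.2, 0) = 0 := by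
  have hU := Gln_uniq T
  have hsm : ContDiffOn ℝ ∞ (fun z : ℂ × ℂ => F z.1 z.2) T.phase := hF.smooth
  have hc := hsm.continuousOn_fderivWithin hU (by simp)
  have hcont : ContinuousOn (fun z : ℂ × ℂ =>
      fderivWithin ℝ (fun z : ℂ × ℂ => F z.1 z.2) T.phase z (z.2, 0)) T.phase :=
    hc.clm_apply (continuous_snd.prodMk continuous_const).continuousOn
  have hEq : EqOn (fun z : ℂ × ℂ => fderivWithin ℝ (fun z : ℂ × ℂ => F z.1 z.2) T.phase z (z.2, 0))
      (fun _ => (0 : ℝ)) (interior T.Y ×ˢ {p : ℂ | p ≠ 0}) := by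
    rintro ⟨q, p⟩ ⟨hq, hp⟩
    have hopen : IsOpen (interior T.Y ×ˢ {p : ℂ | p ≠ 0}) := isOpen_interior.prod isOpen_ne
    have hmem : (q, p) ∈ interior T.Y ×ˢ {p : ℂ | p ≠ 0} := ⟨hq, hp⟩
    have hnhds : T.phase ∈ 𝓝 (q, p) :=
      mem_of_superset (hopen.mem_nhds hmem) (prod_mono interior_subset (le_refl _))
    have hd : HasFDerivWithinAt (fun z : ℂ × ℂ => F z.1 z.2)
        (fderivWithin ℝ (fun z : ℂ × ℂ => F z.1 z.2) T.phase (q, p)) T.phase (q, p) :=
      (hsm.differentiableOn (by simp) (q, p) (mem_of_mem_nhds hnhds)).hasFDerivWithinAt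
    have hd' := hd.hasFDerivAt hnhds
    have hcurve : HasDerivAt (fun t : ℝ => ((q + t * p, p) : ℂ × ℂ)) (p, 0) 0 := by
      refine HasDerivAt.prodMk ?_ (hasDerivAt_const _ _)
      have h1 : HasDerivAt (fun t : ℝ => (t : ℂ) * p) (1 * p) 0 :=
        (Complex.ofRealCLM.hasDerivAt (x := (0 : ℝ))).mul_const p
      rw [one_mul] at h1
      exact h1.const_add q
    have h2 : HasDerivAt (fun t : ℝ => F (q + t * p) p)
        (fderivWithin ℝ (fun z : ℂ × ℂ => F z.1 z.2) T.phase (q, p) (p, 0)) 0 := by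
      have h3 : HasFDerivAt (fun z : ℂ × ℂ => F z.1 z.2)
        (fderivWithin ℝ (fun z : ℂ × ℂ => F z.1 z.2) T.phase (q, p)) (q + ((0 : ℝ) : ℂ) * p, p) := by
        simpa using hd'
      exact h3.comp_hasDerivAt (0 : ℝ) hcurve
    have h4 : (fun t : ℝ => F (q + t * p) p) =ᶠ[𝓝 0] fun _ => F q p := by
      have h5 : ContinuousAt (fun t : ℝ => q + (t : ℂ) * p) 0 := by fun_prop
      have h6 : interior T.Y ∈ 𝓝 (q + ((0 : ℝ) : ℂ) * p) := by
        simpa using isOpen_interior.mem_nhds hq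
      filter_upwards [h5.preimage_mem_nhds h6] with t ht
      exact hF.flow q (interior_subset hq) p hp t (interior_subset ht)
    have h7 : HasDerivAt (fun t : ℝ => F (q + t * p) p) 0 0 :=
      (hasDerivAt_const (0 : ℝ) (F q p)).congr_of_eventuallyEq h4
    exact h2.unique h7
  have hcl : T.phase ⊆ closure (interior T.Y ×ˢ {p : ℂ | p ≠ 0}) := by
    rintro ⟨q, p⟩ ⟨hq, hp⟩
    rw [closure_prod_eq, T.convex.closure_interior_eq_closure_of_nonempty_interior T.inter]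
    exact ⟨subset_closure hq, subset_closure hp⟩
  have := hEq.of_subset_closure hcont continuousOn_const
    (prod_mono interior_subset (le_refl _)) hcl
  intro z hz
  exact this hz

lemma glancing_indep (T : Table) {F : ℂ → ℂ → ℝ} (hF : T.Integral F) {r : ℝ} (hr : 0 < r)
    (h0 : ∀ s s' : ℝ, T.fn F r s 0 = T.fn F r s' 0) {s : ℝ}
    (hli : LinearIndependent ℝ ![fderivWithin ℝ (fun z : ℂ × ℂ => F z.1 z.2) T.phase
        (T.γ s, (r : ℂ) * ex (T.τ s)), fderiv ℝ energy (T.γ s, (r : ℂ) * ex (T.τ s))]) :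
    0 < deriv T.τ s ∧ T.gd F r 2 s ≠ 0 := by
  by_contra hcon
  have hr' : (r : ℂ) ≠ 0 := by exact_mod_cast hr.ne'
  have hU := Gln_uniq T
  have hsm : ContDiffOn ℝ ∞ (fun z : ℂ × ℂ => F z.1 z.2) T.phase := hF.smooth
  set Φ : ℂ × ℂ → (ℂ × ℂ →L[ℝ] ℝ) :=
    fun z => fderivWithin ℝ (fun z : ℂ × ℂ => F z.1 z.2) T.phase z with hΦ
  have hΦsm : ContDiffOn ℝ ∞ Φ T.phase := hsm.fderivWithin hU (by simp)
  have hmem : ∀ x θ : ℝ, ((T.γ x, (r : ℂ) * ex (T.τ x + θ)) : ℂ × ℂ) ∈ T.phase := fun x θ =>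
    ⟨T.γ_mem x, mul_ne_zero hr' (ex_ne _)⟩
  have hFd : ∀ x θ : ℝ, HasFDerivWithinAt (fun z : ℂ × ℂ => F z.1 z.2)
      (Φ (T.γ x, (r : ℂ) * ex (T.τ x + θ))) T.phase (T.γ x, (r : ℂ) * ex (T.τ x + θ)) := fun x θ =>
    (hsm.differentiableOn (by simp) _ (hmem x θ)).hasFDerivWithinAt
  have hτd : ∀ x, HasDerivAt T.τ (deriv T.τ x) x := fun x =>
    (T.smooth.differentiable (by simp) x).hasDerivAt
  -- derivative in θ
  have d2 : ∀ x θ : ℝ, HasDerivAt (T.fn F r x)
      (Φ (T.γ x, (r : ℂ) * ex (T.τ x + θ)) (0, (r : ℂ) * (ex (T.τ x + θ) * Complex.I))) θ := by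
    intro x θ
    have hcurve : HasDerivAt (fun t : ℝ => ((T.γ x, (r : ℂ) * ex (T.τ x + t)) : ℂ × ℂ))
        (0, (r : ℂ) * (ex (T.τ x + θ) * Complex.I)) θ := by
      refine HasDerivAt.prodMk (hasDerivAt_const _ _) ?_
      exact ((Gln_ex_deriv (T.τ x + θ)).comp_const_add (T.τ x) θ).const_mul (r : ℂ)
    exact (hFd x θ).comp_hasDerivAt θ hcurve (Eventually.of_forall fun t => hmem x t)
  -- derivative in x
  have d1 : ∀ x θ : ℝ, HasDerivAt (fun y => T.fn F r y θ)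
      (Φ (T.γ x, (r : ℂ) * ex (T.τ x + θ))
        (ex (T.τ x), (r : ℂ) * ((deriv T.τ x : ℝ) • (ex (T.τ x + θ) * Complex.I)))) x := by
    intro x θ
    have hcurve : HasDerivAt (fun t : ℝ => ((T.γ t, (r : ℂ) * ex (T.τ t + θ)) : ℂ × ℂ))
        (ex (T.τ x), (r : ℂ) * ((deriv T.τ x : ℝ) • (ex (T.τ x + θ) * Complex.I))) x := by
      refine HasDerivAt.prodMk (T.tangent x) ?_
      have h1 : HasDerivAt (fun t => T.τ t + θ) (deriv T.τ x) x := (hτd x).add_const θ
      exact ((Gln_ex_deriv (T.τ x + θ)).scomp x h1).const_mul (r : ℂ)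
    exact (hFd x θ).comp_hasDerivAt x hcurve (Eventually.of_forall fun t => hmem t θ)
  have d1' : ∀ x θ : ℝ, Φ (T.γ x, (r : ℂ) * ex (T.τ x + θ))
        (ex (T.τ x), (r : ℂ) * ((deriv T.τ x : ℝ) • (ex (T.τ x + θ) * Complex.I)))
      = Φ (T.γ x, (r : ℂ) * ex (T.τ x + θ)) (ex (T.τ x), 0)
        + deriv T.τ x * Φ (T.γ x, (r : ℂ) * ex (T.τ x + θ)) (0, (r : ℂ) * (ex (T.τ x + θ) * Complex.I)) := by
    intro x θ
    have h1 : ((ex (T.τ x), (r : ℂ) * ((deriv T.τ x : ℝ) • (ex (T.τ x + θ) * Complex.I))) : ℂ × ℂ)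
        = (ex (T.τ x), 0) + (deriv T.τ x : ℝ) • (0, (r : ℂ) * (ex (T.τ x + θ) * Complex.I)) := by
      ext1
      · simp
      · simp [mul_left_comm]
    rw [h1, map_add, map_smul, smul_eq_mul]
  -- transport
  have tr : ∀ x θ : ℝ, Real.cos θ * Φ (T.γ x, (r : ℂ) * ex (T.τ x + θ)) (ex (T.τ x), 0)
      = - (Real.sin θ * Φ (T.γ x, (r : ℂ) * ex (T.τ x + θ)) (ex (T.τ x) * Complex.I, 0)) := by
    intro x θ
    have h1 := Gln_transport T hF _ (hmem x θ)
    have h2 : ((((r : ℂ) * ex (T.τ x + θ)), 0) : ℂ × ℂ)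
        = (r * Real.cos θ) • ((ex (T.τ x), 0) : ℂ × ℂ)
          + (r * Real.sin θ) • ((ex (T.τ x) * Complex.I, 0) : ℂ × ℂ) := by
      have h3 : ex θ = (Real.cos θ : ℂ) + (Real.sin θ : ℂ) * Complex.I := by
        unfold ex; rw [Complex.exp_mul_I]; push_cast; rfl
      ext1
      · simp only [Prod.fst_add, Prod.smul_fst, Complex.real_smul]
        rw [ex_add, h3]; push_cast; ring
      · simp
    simp only at h1
    rw [h2, map_add, map_smul, map_smul, smul_eq_mul, smul_eq_mul] at h1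
    have h3 : r * (Real.cos θ * Φ (T.γ x, (r : ℂ) * ex (T.τ x + θ)) (ex (T.τ x), 0)
      + (Real.sin θ * Φ (T.γ x, (r : ℂ) * ex (T.τ x + θ)) (ex (T.τ x) * Complex.I, 0))) = 0 := by
      linear_combination h1
    rcases mul_eq_zero.1 h3 with h4 | h4
    · exact absurd h4 hr.ne'
    · linarith
  -- second derivatives of fn
  have hfsm := T.fn_smooth hF hr
  set f : ℝ × ℝ → ℝ := fun z => T.fn F r z.1 z.2 with hf
  have hDsm : ContDiff ℝ ∞ (fderiv ℝ f) := hfsm.fderiv_right (by simp)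
  have hfd : ∀ z, HasFDerivAt f (fderiv ℝ f z) z := fun z => (hfsm.differentiable (by simp) z).hasFDerivAt
  have hDd : ∀ z, HasFDerivAt (fderiv ℝ f) (fderiv ℝ (fderiv ℝ f) z) z := fun z =>
    (hDsm.differentiable (by simp) z).hasFDerivAt
  have hc1 : ∀ x θ : ℝ, HasDerivAt (fun y : ℝ => ((y, θ) : ℝ × ℝ)) (1, 0) x := fun x θ =>
    (hasDerivAt_id x).prodMk (hasDerivAt_const _ _)
  have hc2 : ∀ x θ : ℝ, HasDerivAt (fun y : ℝ => ((x, y) : ℝ × ℝ)) (0, 1) θ := fun x θ =>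
    (hasDerivAt_const _ _).prodMk (hasDerivAt_id θ)
  have e1 : ∀ x θ : ℝ, fderiv ℝ f (x, θ) (1, 0) = Φ (T.γ x, (r : ℂ) * ex (T.τ x + θ)) (ex (T.τ x), 0)
        + deriv T.τ x * Φ (T.γ x, (r : ℂ) * ex (T.τ x + θ)) (0, (r : ℂ) * (ex (T.τ x + θ) * Complex.I)) := by
    intro x θ
    rw [← d1']
    have h1 : HasDerivAt (f ∘ fun y : ℝ => ((y, θ) : ℝ × ℝ)) (fderiv ℝ f (x, θ) (1, 0)) x :=
      (hfd (x, θ)).comp_hasDerivAt x (hc1 x θ)
    have h2 : HasDerivAt (fun y => T.fn F r y θ) (fderiv ℝ f (x, θ) (1, 0)) x := h1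
    exact h2.unique (d1 x θ)
  have e2 : ∀ x θ : ℝ, fderiv ℝ f (x, θ) (0, 1)
      = Φ (T.γ x, (r : ℂ) * ex (T.τ x + θ)) (0, (r : ℂ) * (ex (T.τ x + θ) * Complex.I)) := by
    intro x θ
    have h1 : HasDerivAt (T.fn F r x) (fderiv ℝ f (x, θ) (0, 1)) θ :=
      (hfd (x, θ)).comp_hasDerivAt θ (hc2 x θ)
    exact h1.unique (d2 x θ)
  have e2' : ∀ x θ : ℝ, deriv (T.fn F r x) θ = fderiv ℝ f (x, θ) (0, 1) := by
    intro x θ
    rw [e2]; exact (d2 x θ).deriv
  have g1 : ∀ x, fderiv ℝ f (x, 0) (0, 1) = 0 := by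
    intro x
    rw [← e2']
    have := T.gd_odd hF hr (k := 1) (by decide) x
    unfold Table.gd at this
    rwa [iteratedDeriv_one] at this
  -- mixed derivative vanishes
  have m1 : ∀ x, fderiv ℝ (fderiv ℝ f) (x, 0) (1, 0) (0, 1) = 0 := by
    intro x
    have h1 : HasDerivAt (fun y : ℝ => fderiv ℝ f (y, 0) (0, 1))
        (fderiv ℝ (fderiv ℝ f) (x, 0) (1, 0) (0, 1)) x := by
      have h2 := ((hDd (x, 0)).comp_hasDerivAt x (hc1 x 0)).clm_apply (hasDerivAt_const x ((0, 1) : ℝ × ℝ))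
      simpa using h2
    have h3 : (fun y : ℝ => fderiv ℝ f (y, 0) (0, 1)) = fun _ => 0 := by funext y; exact g1 y
    rw [h3] at h1
    exact h1.unique (hasDerivAt_const x 0)
  have hsymm : fderiv ℝ (fderiv ℝ f) (s, 0) (0, 1) (1, 0) = 0 := by
    have h1 : IsSymmSndFDerivAt ℝ f (s, 0) :=
      (hfsm.contDiffAt).isSymmSndFDerivAt (by
        rw [minSmoothness_of_isRCLikeNormedField]; exact WithTop.coe_le_coe.2 (le_top : (2 : ℕ∞) ≤ ⊤))
    rw [h1 (0, 1) (1, 0)]; exact m1 s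
  -- the two sides as functions of θ
  have A1 : HasDerivAt (fun θ : ℝ => fderiv ℝ f (s, θ) (1, 0)) 0 0 := by
    have h2 := ((hDd (s, 0)).comp_hasDerivAt (0 : ℝ) (hc2 s 0)).clm_apply (hasDerivAt_const (0 : ℝ) ((1, 0) : ℝ × ℝ))
    have h3 : HasDerivAt (fun θ : ℝ => fderiv ℝ f (s, θ) (1, 0))
        (fderiv ℝ (fderiv ℝ f) (s, 0) (0, 1) (1, 0)) 0 := by simpa using h2
    rwa [hsymm] at h3
  have A2 : HasDerivAt (fun θ : ℝ => fderiv ℝ f (s, θ) (0, 1)) (T.gd F r 2 s) 0 := by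
    have h2 := ((hDd (s, 0)).comp_hasDerivAt (0 : ℝ) (hc2 s 0)).clm_apply (hasDerivAt_const (0 : ℝ) ((0, 1) : ℝ × ℝ))
    have h3 : HasDerivAt (fun θ : ℝ => fderiv ℝ f (s, θ) (0, 1))
        (fderiv ℝ (fderiv ℝ f) (s, 0) (0, 1) (0, 1)) 0 := by simpa using h2
    have h4 : T.gd F r 2 s = fderiv ℝ (fderiv ℝ f) (s, 0) (0, 1) (0, 1) := by
      unfold Table.gd
      rw [iteratedDeriv_succ, iteratedDeriv_one]
      have h5 : deriv (T.fn F r s) = fun θ : ℝ => fderiv ℝ f (s, θ) (0, 1) := by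
        funext θ; exact e2' s θ
      rw [h5]; exact h3.deriv
    rw [h4]; exact h3
  set κ := deriv T.τ s with hκ
  -- left side
  have L1 : HasDerivAt (fun θ : ℝ => Real.cos θ * (fderiv ℝ f (s, θ) (1, 0) - κ * fderiv ℝ f (s, θ) (0, 1)))
      (- (κ * T.gd F r 2 s)) 0 := by
    have h1 := (Real.hasDerivAt_cos 0).mul (A1.sub (A2.const_mul κ))
    have h2 : fderiv ℝ f (s, 0) (1, 0) = 0 := by
      have h3' : HasDerivAt (f ∘ fun y : ℝ => ((y, 0) : ℝ × ℝ)) (fderiv ℝ f (s, 0) (1, 0)) s :=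
        (hfd (s, 0)).comp_hasDerivAt s (hc1 s 0)
      have h3 : HasDerivAt (fun y => T.fn F r y 0) (fderiv ℝ f (s, 0) (1, 0)) s := h3'
      have h4 : (fun y => T.fn F r y 0) = fun _ => T.fn F r 0 0 := by funext y; exact h0 y 0
      rw [h4] at h3
      exact h3.unique (hasDerivAt_const s _)
    refine HasDerivAt.congr_deriv h1 ?_
    rw [Real.cos_zero, Real.sin_zero]; ring
  -- right side
  set N : ℝ → ℝ := fun θ => Φ (T.γ s, (r : ℂ) * ex (T.τ s + θ)) (ex (T.τ s) * Complex.I, 0) with hN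
  have hNd : DifferentiableAt ℝ N 0 := by
    have h1 : ContDiff ℝ ∞ (fun θ : ℝ => ((T.γ s, (r : ℂ) * ex (T.τ s + θ)) : ℂ × ℂ)) :=
      contDiff_const.prodMk (contDiff_const.mul (ex_smooth.comp (contDiff_const.add contDiff_id)))
    have h2 : ContDiff ℝ ∞ (fun θ : ℝ => Φ (T.γ s, (r : ℂ) * ex (T.τ s + θ))) := by
      have h3 := hΦsm.comp (s := univ) h1.contDiffOn (fun θ _ => hmem s θ)
      exact contDiffOn_univ.1 h3
    have h4 : ContDiff ℝ ∞ N := h2.clm_apply contDiff_const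
    exact h4.differentiable (by simp) 0
  have R1 : HasDerivAt (fun θ : ℝ => - (Real.sin θ * N θ)) (- N 0) 0 := by
    have h1 := ((Real.hasDerivAt_sin 0).mul hNd.hasDerivAt).neg
    refine HasDerivAt.congr_deriv h1 ?_
    rw [Real.cos_zero, Real.sin_zero]; ring
  have hLR : (fun θ : ℝ => Real.cos θ * (fderiv ℝ f (s, θ) (1, 0) - κ * fderiv ℝ f (s, θ) (0, 1)))
      = fun θ : ℝ => - (Real.sin θ * N θ) := by
    funext θ
    rw [e1 s θ, e2 s θ, ← tr s θ]
    ring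
  rw [hLR] at L1
  have hN0 : N 0 = κ * T.gd F r 2 s := by
    have := L1.unique R1
    linarith
  have hN00 : N 0 = 0 := by
    rw [hN0]
    by_contra hne
    apply hcon
    refine ⟨lt_of_le_of_ne (T.curv s) fun h => hne ?_, fun h => hne ?_⟩
    · rw [← h, zero_mul]
    · rw [h, mul_zero]
  -- values of Φ at the glancing vector
  have hz0 : ((T.γ s, (r : ℂ) * ex (T.τ s)) : ℂ × ℂ) = (T.γ s, (r : ℂ) * ex (T.τ s + 0)) := by rw [add_zero]
  set t := ex (T.τ s) with ht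
  have hP1 : Φ (T.γ s, (r : ℂ) * t) (t, 0) = 0 := by
    have := tr s 0
    rw [Real.cos_zero, Real.sin_zero, zero_mul, one_mul, neg_zero, add_zero] at this
    exact this
  have hP2 : Φ (T.γ s, (r : ℂ) * t) (t * Complex.I, 0) = 0 := by
    have := hN00
    simp only [hN, add_zero] at this
    exact this
  have hP3 : Φ (T.γ s, (r : ℂ) * t) (0, t * Complex.I) = 0 := by
    have h1 := g1 s
    rw [e2, add_zero] at h1
    have h2 : ((0, (r : ℂ) * (t * Complex.I)) : ℂ × ℂ) = r • ((0, t * Complex.I) : ℂ × ℂ) := by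
      ext1
      · simp
      · simp
    rw [h2, map_smul, smul_eq_mul] at h1
    rcases mul_eq_zero.1 h1 with h3 | h3
    · exact absurd h3 hr.ne'
    · exact h3
  -- the energy
  have hE : HasFDerivAt energy ((innerSL ℝ ((r : ℂ) * t)).comp (ContinuousLinearMap.snd ℝ ℂ ℂ))
      (T.γ s, (r : ℂ) * t) := by
    have h1 : HasFDerivAt (fun z : ℂ × ℂ => z.2) (ContinuousLinearMap.snd ℝ ℂ ℂ) (T.γ s, (r : ℂ) * t) :=
      hasFDerivAt_snd
    have h2 := h1.norm_sq
    have h3 := h2.const_mul ((2 : ℝ)⁻¹)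
    have h4 : energy = fun z : ℂ × ℂ => (2 : ℝ)⁻¹ * ‖z.2‖ ^ 2 := by
      funext z; unfold energy; ring
    rw [h4]
    refine h3.congr_fderiv ?_
    apply ContinuousLinearMap.ext
    intro z
    simp only [ContinuousLinearMap.smul_apply, ContinuousLinearMap.comp_apply, smul_eq_mul, nsmul_eq_mul]
    push_cast
    ring
  have hnorm : (starRingEnd ℂ) t * t = 1 := by
    rw [ht, ex_conj, ← ex_add]; simp [ex]
  have hEv : ∀ a b c d : ℝ, fderiv ℝ energy (T.γ s, (r : ℂ) * t)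
      (a • t + b • (t * Complex.I), c • t + d • (t * Complex.I)) = r * c := by
    intro a b c d
    rw [hE.fderiv]
    simp only [ContinuousLinearMap.comp_apply, ContinuousLinearMap.coe_snd', innerSL_apply_apply]
    rw [Complex.inner]
    have h1 : (c • t + d • (t * Complex.I)) * (starRingEnd ℂ) ((r : ℂ) * t)
        = (r : ℂ) * ((c : ℂ) + d * Complex.I) * ((starRingEnd ℂ) t * t) := by
      simp only [map_mul, Complex.conj_ofReal, Complex.real_smul]
      ring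
    rw [h1, hnorm]
    simp
  have hFv : ∀ a b c d : ℝ, Φ (T.γ s, (r : ℂ) * t)
      (a • t + b • (t * Complex.I), c • t + d • (t * Complex.I)) = c * Φ (T.γ s, (r : ℂ) * t) (0, t) := by
    intro a b c d
    have h1 : ((a • t + b • (t * Complex.I), c • t + d • (t * Complex.I)) : ℂ × ℂ)
        = a • (t, 0) + b • (t * Complex.I, 0) + c • (0, t) + d • (0, t * Complex.I) := by
      ext1
      · simp
      · simp
    rw [h1]
    simp only [map_add, map_smul, hP1, hP2, hP3, smul_eq_mul, mul_zero, zero_add, add_zero]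
  have hdec : ∀ w : ℂ, w = ((starRingEnd ℂ) t * w).re • t + ((starRingEnd ℂ) t * w).im • (t * Complex.I) := by
    intro w
    have h1 : w = ((starRingEnd ℂ) t * w) * t := by
      calc w = ((starRingEnd ℂ) t * t) * w := by rw [hnorm, one_mul]
        _ = _ := by ring
    conv_lhs => rw [h1, ← Complex.re_add_im ((starRingEnd ℂ) t * w)]
    simp only [Complex.real_smul]
    ring
  rw [LinearIndependent.pair_iff] at hli
  have := hli r (- Φ (T.γ s, (r : ℂ) * t) (0, t)) (by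
    apply ContinuousLinearMap.ext
    rintro ⟨q, p⟩
    rw [hdec q, hdec p]
    simp only [ContinuousLinearMap.add_apply, ContinuousLinearMap.smul_apply, ContinuousLinearMap.zero_apply]
    rw [hEv]
    have h5 := hFv ((starRingEnd ℂ) t * q).re ((starRingEnd ℂ) t * q).im ((starRingEnd ℂ) t * p).re
      ((starRingEnd ℂ) t * p).im
    simp only [hΦ] at h5 ⊢
    rw [h5]
    simp only [smul_eq_mul]
    ring)
  exact hr.ne' this.1

end Pool.Agent.H46.BL
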