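/-
ANA : integrals that are analytic in the direction and flat at the glancing vectors over positive curvature.

PROOF.  (i) const0 : T.fn F r s 0 = T.fn F r s' 0 (hypothesis h0, proved in Ode).  Let A = {s | 0 < deriv τ s}, an open
set, nonempty because τ (0 + L) = τ 0 + 2π (otherwise τ would be constant).
(ii) For s ∈ A the function θ ↦ T.fn F r s θ = F (γ s) (r ex (τ s + θ)) is analytic on ℝ and all its derivatives of order
≥ 1 at 0 vanish, so it is constant = T.fn F r s 0 =: β r (does not depend on s).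
(iii) Let s₁ be arbitrary.  G α = F (γ s₁) (r ex α) - β r is analytic on ℝ and 2π-periodic.  Choose s₂ ∈ A with
γ s₂ ≠ γ s₁ (γ is not constant on the open set A) and an open interval J ∋ s₂, J ⊆ A, with γ s ≠ γ s₁ on J.  For s ∈ J
let w s = (γ s₁ - γ s)/|γ s₁ - γ s| = ex (arg (γ s₁ - γ s)).  By convexity and `flow` (from γ s to γ s₁):
F (γ s₁) (r w s) = F (γ s) (r w s) = β r.  If G were not identically 0 it would have finitely many zeros on the compact
interval [-π, π], so w would take finitely many values on J; w is continuous and J is connected, so w = w₀ is constant on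
J: then Im ((γ s - γ s₁) * conj w₀) = 0 on J, differentiate: Im (ex (τ s) * conj w₀) = sin (τ s - arg w₀) = 0 on J, and
differentiate again: cos (τ s - arg w₀) * deriv τ s = 0, contradiction (cos = ±1, deriv τ s > 0).  So G = 0.
(iv) q ∈ Y, p ≠ 0, r = ‖p‖: {t ≥ 0 | q - t p ∈ Y} is compact and nonempty; let t be its maximum; q - t p ∈ frontier Y
(points q - t' p, t' > t, are not in Y), so q - t p = γ s, and F q p = F (γ s) p = F (γ s) (r ex (arg p)) = β r.
-/
import Mathlib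
import Pool.Agent.H46.BL.Bas

set_option autoImplicit false

namespace Pool.Agent.H46.BL

open Set Filter Topology
open scoped ContDiff

/-- an analytic function on the line that is flat at `0` is constant -/
lemma ana_const {f : ℝ → ℝ} (hf : AnalyticOnNhd ℝ f univ)
    (h : ∀ k, 1 ≤ k → iteratedDeriv k f 0 = 0) (x : ℝ) : f x = f 0 := by
  have hg : AnalyticOnNhd ℝ (fun y => f y - f 0) univ := hf.sub analyticOnNhd_const
  have h0 : analyticOrderAt (fun y => f y - f 0) 0 = ⊤ := by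
    rw [ENat.eq_top_iff_forall_ge]
    intro n
    rw [natCast_le_analyticOrderAt_iff_iteratedDeriv_eq_zero (hg 0 (mem_univ _))]
    intro i hi
    rw [iteratedDeriv_fun_sub (hf 0 (mem_univ _)).contDiffAt contDiffAt_const, iteratedDeriv_const]
    rcases Nat.eq_zero_or_pos i with h1 | h1
    · subst h1
      simp
    · rw [h i h1, if_neg h1.ne']
      simp
  rw [analyticOrderAt_eq_top] at h0
  have h1 := hg.eqOn_zero_of_preconnected_of_eventuallyEq_zero isPreconnected_univ (mem_univ 0) h0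
  have h2 := h1 (mem_univ x)
  simp only [Pi.zero_apply] at h2
  linarith

/-- the zeros of a nonzero analytic function in a compact interval are finite in number -/
lemma ana_finite {f : ℝ → ℝ} (hf : AnalyticOnNhd ℝ f univ) {a : ℝ} (ha : f a ≠ 0) (b c : ℝ) :
    {x | x ∈ Icc b c ∧ f x = 0}.Finite := by
  by_contra hinf
  obtain ⟨x, -, hx⟩ := Set.Infinite.exists_accPt_of_subset_isCompact (K := Icc b c) hinf isCompact_Icc
    (fun y hy => hy.1)
  rw [accPt_iff_frequently_nhdsNE] at hx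
  have h1 := hf.eqOn_zero_of_preconnected_of_frequently_eq_zero isPreconnected_univ (mem_univ x)
    (hx.mono fun y hy => hy.2)
  exact ha (h1 (mem_univ a))

lemma ana_im (a : ℝ) : (ex a).im = Real.sin a := by
  unfold ex
  rw [Complex.exp_ofReal_mul_I_im]

lemma ana_polar (z : ℂ) : z = (‖z‖ : ℂ) * ex z.arg := by
  unfold ex
  exact (Complex.norm_mul_exp_arg_mul_I z).symm

/-- the directions from the points of a strictly convex arc to a fixed point are not constant -/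
lemma ana_turn (T : Table) (z : ℂ) (a s₂ δ : ℝ) (hδ : 0 < δ) (h2 : 0 < deriv T.τ s₂)
    (h : ∀ s ∈ Metric.ball s₂ δ, ∃ ρ : ℝ, z - T.γ s = (ρ : ℂ) * ex a) : False := by
  have h1 : ∀ s ∈ Metric.ball s₂ δ, Real.sin (T.τ s - a) = 0 := by
    intro s hs
    have h3 : HasDerivAt (fun s => ((z - T.γ s) * ex (-a)).im) ((-(ex (T.τ s)) * ex (-a)).im) s := by
      have h4 : HasDerivAt (fun s => (z - T.γ s) * ex (-a)) ((-(ex (T.τ s))) * ex (-a)) s := by
        have h5 := ((hasDerivAt_const s z).sub (T.tangent s)).mul_const (ex (-a))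
        simpa using h5
      exact (Complex.imCLM.hasFDerivAt.comp_hasDerivAt s h4)
    have h4 : (fun s => ((z - T.γ s) * ex (-a)).im) =ᶠ[𝓝 s] fun _ => 0 := by
      filter_upwards [Metric.isOpen_ball.mem_nhds hs] with s' hs'
      obtain ⟨ρ, hρ⟩ := h s' hs'
      rw [hρ, mul_assoc, ← ex_add, add_neg_cancel]
      have : ex 0 = 1 := by simp [ex]
      rw [this]
      simp
    have h5 := h3.unique ((hasDerivAt_const s (0 : ℝ)).congr_of_eventuallyEq h4)
    rw [neg_mul, ← ex_add, Complex.neg_im, ana_im] at h5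
    rw [sub_eq_add_neg]
    linarith
  have hs₂ : s₂ ∈ Metric.ball s₂ δ := Metric.mem_ball_self hδ
  have h3 : HasDerivAt (fun s => Real.sin (T.τ s - a)) (Real.cos (T.τ s₂ - a) * deriv T.τ s₂) s₂ := by
    have h4 : HasDerivAt T.τ (deriv T.τ s₂) s₂ :=
      (T.smooth.differentiable (by simp) s₂).hasDerivAt
    exact (h4.sub_const a).sin
  have h4 : (fun s => Real.sin (T.τ s - a)) =ᶠ[𝓝 s₂] fun _ => 0 := by
    filter_upwards [Metric.isOpen_ball.mem_nhds hs₂] with s' hs'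
    exact h1 s' hs'
  have h5 := h3.unique ((hasDerivAt_const s₂ (0 : ℝ)).congr_of_eventuallyEq h4)
  have h6 := h1 s₂ hs₂
  have h7 := Real.sin_sq_add_cos_sq (T.τ s₂ - a)
  rcases mul_eq_zero.1 h5 with h8 | h8
  · rw [h6, h8] at h7
    norm_num at h7
  · exact h2.ne' h8

/-- all directions over all boundary points -/
lemma ana_all (T : Table) {F : ℂ → ℂ → ℝ} (hF : T.Integral F)
    (han : ∀ s r : ℝ, 0 < r → AnalyticOnNhd ℝ (fun a : ℝ => F (T.γ s) ((r : ℂ) * ex a)) univ)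
    (h0 : ∀ r : ℝ, 0 < r → ∀ s s' : ℝ, T.fn F r s 0 = T.fn F r s' 0)
    (hflat : ∀ r : ℝ, 0 < r → ∀ s, 0 < deriv T.τ s → ∀ k, 1 ≤ k → T.gd F r k s = 0)
    (r : ℝ) (hr : 0 < r) (s₁ α : ℝ) : F (T.γ s₁) ((r : ℂ) * ex α) = T.fn F r 0 0 := by
  have hdc : Continuous (deriv T.τ) := T.smooth.continuous_deriv (by simp)
  have hAo : IsOpen {s | 0 < deriv T.τ s} := isOpen_lt continuous_const hdc
  have hAn : ∃ s, 0 < deriv T.τ s := by
    by_contra hne
    push Not at hne
    have h1 : ∀ s, deriv T.τ s = 0 := fun s => le_antisymm (hne s) (T.curv s)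
    have h2 := is_const_of_deriv_eq_zero (T.smooth.differentiable (by simp)) h1 (0 + T.L) 0
    rw [T.turning] at h2
    linarith [Real.pi_pos]
  -- over the points of positive curvature
  have hpos : ∀ s, 0 < deriv T.τ s → ∀ a, F (T.γ s) ((r : ℂ) * ex a) = T.fn F r 0 0 := by
    intro s hs a
    have h1 : AnalyticOnNhd ℝ (T.fn F r s) univ := by
      intro θ _
      have h2 : AnalyticAt ℝ (fun θ : ℝ => T.τ s + θ) θ := by fun_prop
      exact (han s r hr (T.τ s + θ) (mem_univ _)).fun_comp h2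
    have h3 := ana_const h1 (fun k hk => hflat r hr s hs k hk) (a - T.τ s)
    have h4 : T.fn F r s (a - T.τ s) = F (T.γ s) ((r : ℂ) * ex a) := by
      unfold Table.fn
      rw [add_sub_cancel]
    rw [← h4, h3]
    exact h0 r hr s 0
  by_contra hne
  have hG : AnalyticOnNhd ℝ (fun a : ℝ => F (T.γ s₁) ((r : ℂ) * ex a) - T.fn F r 0 0) univ :=
    (han s₁ r hr).sub analyticOnNhd_const
  have hfin := ana_finite hG (a := α) (sub_ne_zero.2 hne) (-Real.pi) Real.pi
  -- a point of positive curvature different from the given point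
  have h2 : ∃ s₂, 0 < deriv T.τ s₂ ∧ T.γ s₂ ≠ T.γ s₁ := by
    by_contra hcon
    push Not at hcon
    obtain ⟨a, ha⟩ := hAn
    have h3 : T.γ =ᶠ[𝓝 a] fun _ => T.γ s₁ := by
      filter_upwards [hAo.mem_nhds ha] with s hs
      exact hcon s hs
    have h4 := (T.tangent a).unique ((hasDerivAt_const a (T.γ s₁)).congr_of_eventuallyEq h3)
    exact ex_ne _ h4
  obtain ⟨s₂, hs₂, hs₂'⟩ := h2
  have hγc : Continuous T.γ := continuous_iff_continuousAt.2 fun s => (T.tangent s).continuousAt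
  have hO : IsOpen {s | 0 < deriv T.τ s ∧ T.γ s ≠ T.γ s₁} :=
    hAo.inter (isOpen_ne_fun hγc continuous_const)
  obtain ⟨δ, hδ, hball⟩ := Metric.isOpen_iff.1 hO s₂ ⟨hs₂, hs₂'⟩
  have hw : ContinuousOn (fun s => (T.γ s₁ - T.γ s) / (‖T.γ s₁ - T.γ s‖ : ℂ)) (Metric.ball s₂ δ) := by
    apply ContinuousOn.div
    · exact (continuous_const.sub hγc).continuousOn
    · exact (Complex.continuous_ofReal.comp (continuous_const.sub hγc).norm).continuousOn
    · intro s hs
      have h3 := (hball hs).2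
      rw [Complex.ofReal_ne_zero, norm_ne_zero_iff]
      exact sub_ne_zero.2 h3.symm
  have hwe : ∀ s ∈ Metric.ball s₂ δ,
      (T.γ s₁ - T.γ s) / (‖T.γ s₁ - T.γ s‖ : ℂ) = ex (T.γ s₁ - T.γ s).arg := by
    intro s hs
    have h3 := (hball hs).2
    have h4 : (‖T.γ s₁ - T.γ s‖ : ℂ) ≠ 0 := by
      rw [Complex.ofReal_ne_zero, norm_ne_zero_iff]
      exact sub_ne_zero.2 h3.symm
    rw [div_eq_iff h4, mul_comm]
    exact ana_polar _
  have hmaps : MapsTo (fun s => (T.γ s₁ - T.γ s) / (‖T.γ s₁ - T.γ s‖ : ℂ)) (Metric.ball s₂ δ)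
      (ex '' {x | x ∈ Icc (-Real.pi) Real.pi ∧
        F (T.γ s₁) ((r : ℂ) * ex x) - T.fn F r 0 0 = 0}) := by
    intro s hs
    refine ⟨(T.γ s₁ - T.γ s).arg, ⟨⟨(Complex.neg_pi_lt_arg _).le, Complex.arg_le_pi _⟩, ?_⟩,
      (hwe s hs).symm⟩
    rw [sub_eq_zero]
    obtain ⟨h3, h4⟩ := hball hs
    rw [← hpos s h3 (T.γ s₁ - T.γ s).arg]
    -- the motion from `γ s` to `γ s₁`
    have h5 : T.γ s + ((‖T.γ s₁ - T.γ s‖ / r : ℝ) : ℂ) * ((r : ℂ) * ex (T.γ s₁ - T.γ s).arg) =
        T.γ s₁ := by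
      have h6 : ((‖T.γ s₁ - T.γ s‖ / r : ℝ) : ℂ) * ((r : ℂ) * ex (T.γ s₁ - T.γ s).arg) =
          (‖T.γ s₁ - T.γ s‖ : ℂ) * ex (T.γ s₁ - T.γ s).arg := by
        have : (r : ℂ) ≠ 0 := by exact_mod_cast hr.ne'
        push_cast
        field_simp
      rw [h6, ← ana_polar]
      ring
    have h6 := hF.flow (T.γ s) (T.γ_mem s) ((r : ℂ) * ex (T.γ s₁ - T.γ s).arg)
      (mul_ne_zero (by exact_mod_cast hr.ne') (ex_ne _)) (‖T.γ s₁ - T.γ s‖ / r)
      (by rw [h5]; exact T.γ_mem s₁)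
    rw [h5] at h6
    exact h6
  have hfin' := hfin.image ex
  have hconst : ∀ s ∈ Metric.ball s₂ δ, (T.γ s₁ - T.γ s) / (‖T.γ s₁ - T.γ s‖ : ℂ) =
      (T.γ s₁ - T.γ s₂) / (‖T.γ s₁ - T.γ s₂‖ : ℂ) := fun s hs =>
    (convex_ball s₂ δ).isPreconnected.constant_of_mapsTo hfin'.isDiscrete hw hmaps hs (Metric.mem_ball_self hδ)
  refine ana_turn T (T.γ s₁) (T.γ s₁ - T.γ s₂).arg s₂ δ hδ hs₂ fun s hs => ?_
  refine ⟨‖T.γ s₁ - T.γ s‖, ?_⟩
  rw [← hwe s₂ (Metric.mem_ball_self hδ), ← hconst s hs, hwe s hs]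
  exact ana_polar _

lemma analytic_flat (T : Table) {F : ℂ → ℂ → ℝ} (hF : T.Integral F)
    (han : ∀ s r : ℝ, 0 < r → AnalyticOnNhd ℝ (fun a : ℝ => F (T.γ s) ((r : ℂ) * ex a)) univ)
    (h0 : ∀ r : ℝ, 0 < r → ∀ s s' : ℝ, T.fn F r s 0 = T.fn F r s' 0)
    (hflat : ∀ r : ℝ, 0 < r → ∀ s, 0 < deriv T.τ s → ∀ k, 1 ≤ k → T.gd F r k s = 0) :
    ∃ h : ℝ → ℝ, ∀ q ∈ T.Y, ∀ p : ℂ, p ≠ 0 → F q p = h ‖p‖ := by
  refine ⟨fun r => T.fn F r 0 0, fun q hq p hp => ?_⟩
  have hr : 0 < ‖p‖ := norm_pos_iff.2 hp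
  -- the last point of the backward motion
  have hcl : IsClosed {t : ℝ | 0 ≤ t ∧ q - (t : ℂ) * p ∈ T.Y} := by
    apply (isClosed_le continuous_const continuous_id).inter
    exact T.compact.isClosed.preimage (by fun_prop)
  obtain ⟨R, hR⟩ := T.compact.isBounded.exists_norm_le
  have hbd : {t : ℝ | 0 ≤ t ∧ q - (t : ℂ) * p ∈ T.Y} ⊆ Icc 0 ((‖q‖ + R) / ‖p‖) := by
    intro t ht
    refine ⟨ht.1, ?_⟩
    rw [le_div_iff₀ hr]
    have h1 := hR _ ht.2
    have h2 : (t : ℂ) * p = q - (q - (t : ℂ) * p) := by ring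
    have h3 : ‖(t : ℂ) * p‖ ≤ ‖q‖ + ‖q - (t : ℂ) * p‖ := by
      conv_lhs => rw [h2]
      exact norm_sub_le _ _
    rw [norm_mul, Complex.norm_real, Real.norm_eq_abs, abs_of_nonneg ht.1] at h3
    linarith
  have hcpt : IsCompact {t : ℝ | 0 ≤ t ∧ q - (t : ℂ) * p ∈ T.Y} :=
    isCompact_Icc.of_isClosed_subset hcl hbd
  obtain ⟨t, ht, hmax⟩ := hcpt.exists_isGreatest ⟨0, le_rfl, by simpa using hq⟩
  have hfr : q - (t : ℂ) * p ∈ frontier T.Y := by
    rw [T.compact.isClosed.frontier_eq]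
    refine ⟨ht.2, fun hint => ?_⟩
    have h1 : ∀ᶠ t' : ℝ in 𝓝 t, q - (t' : ℂ) * p ∈ interior T.Y := by
      have hc : ContinuousAt (fun t' : ℝ => q - (t' : ℂ) * p) t := by fun_prop
      exact hc.eventually (isOpen_interior.mem_nhds hint)
    obtain ⟨ε, hε, h2⟩ := Metric.eventually_nhds_iff.1 h1
    have h3 : q - ((t + ε / 2 : ℝ) : ℂ) * p ∈ interior T.Y := by
      apply h2
      rw [Real.dist_eq, add_sub_cancel_left, abs_of_pos (by positivity)]
      linarith
    have h4 : t + ε / 2 ≤ t := hmax ⟨by linarith [ht.1], interior_subset h3⟩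
    linarith
  rw [T.bdry] at hfr
  obtain ⟨s, hs⟩ := hfr
  have h1 := hF.flow (T.γ s) (T.γ_mem s) p hp t (by rw [hs]; simpa using hq)
  have h2 : T.γ s + (t : ℂ) * p = q := by
    rw [hs]
    ring
  rw [h2] at h1
  rw [h1]
  have h3 := ana_all T hF han h0 hflat ‖p‖ hr s p.arg
  rw [← ana_polar] at h3
  exact h3

end Pool.Agent.H46.BL
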