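/-
EXP : expansion of the two angles of a short chord.

PROOF.  Let φ x = τ (s + x) - τ s, X u = ∫_0^u cos φ, Z u = ∫_0^u sin φ.  Then γ (s+u) - γ s = ex (τ s) * (X u + Z u i)
(both sides vanish at u = 0 and have the same derivative), X and Z are smooth, and (taylor_isLittleO_univ, or by hand)
Z u = κ/2 u² + κ'/6 u³ + o(u³),  X u = u + o(u²)  (κ = deriv τ s, κ' = deriv (deriv τ) s; the derivatives at 0 are
Z' = sin φ = 0, Z'' = cos φ φ' = κ, Z''' = κ', X' = 1, X'' = 0).
So z u := Z u / u² (z 0 = κ/2) has derivative κ'/6 at 0 and x u := X u / u (x 0 = 1) has derivative 0 at 0, and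
w := z / x has w 0 = κ/2 and derivative κ'/6 at 0.  For small u > 0, X u > 0 and the chord has the angle
θ = arctan (Z u / X u) = arctan (u * w u) with the tangent at s.  Put a u = arctan (u * w u) / u for u ≠ 0,
a 0 = κ/2; as |arctan y - y| ≤ |y|^3 for small y (or: arctan has derivative 1 and second derivative 0 at 0),
a has derivative κ'/6 at 0.  Put b u = (φ u)/u - a u for u ≠ 0, b 0 = κ/2: φ u = κ u + κ'/2 u² + o(u²), so b has
derivative κ'/2 - κ'/6 = κ'/3 at 0.
(Only derivatives from the right, within Ici 0, are needed.)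
-/
import Mathlib
import Pool.Agent.H46.BL.Defs

set_option autoImplicit false

namespace Pool.Agent.H46.BL

open Set Filter Topology
open scoped ContDiff

lemma Exp_tendsto_id : Tendsto (fun u : ℝ => u) (𝓝[>] 0) (𝓝 0) :=
  tendsto_id.mono_left nhdsWithin_le_nhds

/-- from the limit of the slope to the derivative within `Ici 0` -/
lemma Exp_hasDeriv {f : ℝ → ℝ} {d : ℝ}
    (h : Tendsto (fun u : ℝ => (f u - f 0) / u) (𝓝[>] 0) (𝓝 d)) :
    HasDerivWithinAt f d (Ici 0) 0 := by
  rw [← hasDerivWithinAt_Ioi_iff_Ici, hasDerivWithinAt_iff_tendsto_slope' (by simp)]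
  refine h.congr fun u => ?_
  rw [slope_def_field, sub_zero]

lemma Exp_deriv_slope {f : ℝ → ℝ} {d : ℝ} (h : HasDerivAt f d 0) :
    Tendsto (fun u : ℝ => (f u - f 0) / u) (𝓝[>] 0) (𝓝 d) := by
  have h1 := h.hasDerivWithinAt (s := Ioi 0)
  rw [hasDerivWithinAt_iff_tendsto_slope' (by simp)] at h1
  refine h1.congr fun u => ?_
  rw [slope_def_field, sub_zero]

/-- second order expansion of a twice differentiable function at `0` -/
lemma Exp_second {f f' : ℝ → ℝ} {c : ℝ} (hf : ∀ u, HasDerivAt f (f' u) u) (h0 : f 0 = 0)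
    (hf' : HasDerivAt f' c 0) :
    Tendsto (fun u : ℝ => (f u - f' 0 * u) / u ^ 2) (𝓝[>] 0) (𝓝 (c / 2)) := by
  have hne : ∀ᶠ u : ℝ in 𝓝[>] 0, (2 : ℝ) * u ≠ 0 := by
    filter_upwards [self_mem_nhdsWithin] with u hu
    have : (0:ℝ) < u := hu
    positivity
  refine HasDerivAt.lhopital_zero_nhdsGT (f' := fun u => f' u - f' 0) (g' := fun u => 2 * u)
    ?_ ?_ hne ?_ ?_ ?_
  · refine Eventually.of_forall fun u => ?_
    have h := (hf u).sub ((hasDerivAt_id u).const_mul (f' 0))
    rw [mul_one] at h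
    exact h
  · refine Eventually.of_forall fun u => ?_
    have := hasDerivAt_pow 2 u
    simpa using this
  · have hc : Continuous (fun u => f u - f' 0 * u) := by
      have : Continuous f := continuous_iff_continuousAt.mpr fun u => (hf u).continuousAt
      fun_prop
    have := (hc.tendsto 0).mono_left (nhdsWithin_le_nhds (s := Ioi (0:ℝ)))
    simpa [h0] using this
  · have hc : Continuous (fun u : ℝ => u ^ 2) := by fun_prop
    have := (hc.tendsto 0).mono_left (nhdsWithin_le_nhds (s := Ioi (0:ℝ)))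
    simpa using this
  · have h1 := (Exp_deriv_slope hf').div_const 2
    refine h1.congr fun u => ?_
    rw [div_div, mul_comm u 2]

lemma Exp_abs_arctan_sub (y : ℝ) : |Real.arctan y - y| ≤ |y| ^ 3 := by
  have key : ∀ y : ℝ, 0 ≤ y → |Real.arctan y - y| ≤ y ^ 3 := by
    intro y hy
    have h1 : ∀ x : ℝ, HasDerivAt (fun x => x - Real.arctan x) (1 - 1 / (1 + x ^ 2)) x :=
      fun x => (hasDerivAt_id x).sub (Real.hasDerivAt_arctan x)
    have h2 : ∀ x : ℝ, HasDerivAt (fun x => x ^ 3 - (x - Real.arctan x))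
        (3 * x ^ 2 - (1 - 1 / (1 + x ^ 2))) x := by
      intro x
      have h := (hasDerivAt_pow 3 x).sub (h1 x)
      have e : ((3:ℕ):ℝ) * x ^ (3 - 1) - (1 - 1 / (1 + x ^ 2)) =
          3 * x ^ 2 - (1 - 1 / (1 + x ^ 2)) := by norm_num
      rw [e] at h
      exact h
    have m1 : MonotoneOn (fun x => x - Real.arctan x) (Ici 0) := by
      refine monotoneOn_of_deriv_nonneg (convex_Ici 0)
        (continuousOn_of_forall_continuousAt fun x _ => (h1 x).continuousAt)
        (fun x _ => (h1 x).differentiableAt.differentiableWithinAt) fun x _ => ?_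
      rw [(h1 x).deriv]
      have : 1 / (1 + x ^ 2) ≤ 1 := by
        rw [div_le_one (by positivity)]
        nlinarith [sq_nonneg x]
      linarith
    have m2 : MonotoneOn (fun x => x ^ 3 - (x - Real.arctan x)) (Ici 0) := by
      refine monotoneOn_of_deriv_nonneg (convex_Ici 0)
        (continuousOn_of_forall_continuousAt fun x _ => (h2 x).continuousAt)
        (fun x _ => (h2 x).differentiableAt.differentiableWithinAt) fun x _ => ?_
      rw [(h2 x).deriv]
      have hpos : (0:ℝ) < 1 + x ^ 2 := by positivity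
      have : 1 - 1 / (1 + x ^ 2) = x ^ 2 / (1 + x ^ 2) := by
        field_simp
        ring
      rw [this]
      have h3 : x ^ 2 / (1 + x ^ 2) ≤ x ^ 2 := by
        rw [div_le_iff₀ hpos]
        nlinarith [sq_nonneg x, sq_nonneg (x ^ 2)]
      nlinarith [sq_nonneg x]
    have a1 := m1 (mem_Ici.mpr le_rfl) (mem_Ici.mpr hy) hy
    have a2 := m2 (mem_Ici.mpr le_rfl) (mem_Ici.mpr hy) hy
    simp only [Real.arctan_zero] at a1 a2
    rw [abs_sub_comm, abs_of_nonneg (by linarith)]
    linarith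
  rcases le_total 0 y with hy | hy
  · rw [abs_of_nonneg hy]
    exact key y hy
  · have h := key (-y) (by linarith)
    rw [Real.arctan_neg] at h
    rw [abs_of_nonpos hy]
    have e : Real.arctan y - y = -(-Real.arctan y - -y) := by ring
    rw [e, abs_neg]
    exact h

lemma Exp_abs_sin_sub (y : ℝ) (hy : |y| ≤ 1) : |Real.sin y - y| ≤ |y| ^ 3 := by
  have h := Real.sin_bound hy
  have e : Real.sin y - y = (Real.sin y - (y - y ^ 3 / 6)) - y ^ 3 / 6 := by ring
  rw [e]
  have h2 : |y ^ 3 / 6| = |y| ^ 3 / 6 := by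
    rw [abs_div, abs_pow]
    norm_num
  have h3 : |y| ^ 5 ≤ |y| ^ 3 := pow_le_pow_of_le_one (abs_nonneg _) hy (by norm_num)
  have h4 : 0 ≤ |y| ^ 3 := by positivity
  calc |(Real.sin y - (y - y ^ 3 / 6)) - y ^ 3 / 6|
      ≤ |Real.sin y - (y - y ^ 3 / 6)| + |y ^ 3 / 6| := abs_sub _ _
    _ ≤ |y| ^ 5 / 100 + |y| ^ 3 / 6 := by rw [h2]; linarith
    _ ≤ |y| ^ 3 := by nlinarith

/-- if `y u / u` converges and `|F y - y| ≤ |y|^3` for small `y`, then `(F (y u) - y u) / u ^ 2 → 0` -/
lemma Exp_cubic {F y : ℝ → ℝ} {c : ℝ} (hF : ∀ z : ℝ, |z| ≤ 1 → |F z - z| ≤ |z| ^ 3)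
    (hy : Tendsto (fun u : ℝ => y u / u) (𝓝[>] 0) (𝓝 c)) :
    Tendsto (fun u : ℝ => (F (y u) - y u) / u ^ 2) (𝓝[>] 0) (𝓝 0) := by
  have hy0 : Tendsto y (𝓝[>] 0) (𝓝 0) := by
    have h1 := hy.mul Exp_tendsto_id
    rw [mul_zero] at h1
    refine h1.congr' ?_
    filter_upwards [self_mem_nhdsWithin] with u hu
    have : u ≠ 0 := ne_of_gt hu
    field_simp
  have hb : Tendsto (fun u : ℝ => |y u / u| ^ 3 * u) (𝓝[>] 0) (𝓝 0) := by
    have := ((hy.abs).pow 3).mul Exp_tendsto_id
    simpa using this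
  refine squeeze_zero_norm' ?_ hb
  have h1 : ∀ᶠ u in 𝓝[>] (0:ℝ), |y u| ≤ 1 := by
    have := hy0.abs
    rw [abs_zero] at this
    exact (this.eventually (gt_mem_nhds one_pos)).mono fun u hu => le_of_lt hu
  filter_upwards [h1, self_mem_nhdsWithin] with u hu1 hu
  have hu' : (0:ℝ) < u := hu
  rw [Real.norm_eq_abs, abs_div, abs_of_nonneg (by positivity : (0:ℝ) ≤ u ^ 2),
    div_le_iff₀ (by positivity)]
  refine (hF _ hu1).trans (le_of_eq ?_)
  rw [abs_div, abs_of_pos hu', div_pow]
  field_simp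

lemma chord_exp (T : Table) (s : ℝ) : ∃ a b : ℝ → ℝ,
    a 0 = deriv T.τ s / 2 ∧ b 0 = deriv T.τ s / 2 ∧
    HasDerivWithinAt a (deriv (deriv T.τ) s / 6) (Ici 0) 0 ∧
    HasDerivWithinAt b (deriv (deriv T.τ) s / 3) (Ici 0) 0 ∧
    ∃ η > 0, ∀ u ∈ Ioo 0 η, T.τ (s + u) = T.τ s + u * a u + u * b u ∧
      ∃ ℓ : ℝ, T.γ (s + u) = T.γ s + (ℓ : ℂ) * ex (T.τ s + u * a u) := by
  set κ : ℝ := deriv T.τ s with hκ
  set κ' : ℝ := deriv (deriv T.τ) s with hκ'
  -- smoothness of `τ`
  have hτ1 : ∀ x, HasDerivAt T.τ (deriv T.τ x) x := fun x =>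
    ((T.smooth.differentiable (by simp)) x).hasDerivAt
  have hd : ContDiff ℝ ∞ (deriv T.τ) := (contDiff_infty_iff_deriv.mp T.smooth).2
  have hτ2 : ∀ x, HasDerivAt (deriv T.τ) (deriv (deriv T.τ) x) x := fun x =>
    ((hd.differentiable (by simp)) x).hasDerivAt
  obtain ⟨φ, hφ⟩ : ∃ φ : ℝ → ℝ, ∀ u, φ u = T.τ (s + u) - T.τ s := ⟨_, fun u => rfl⟩
  have hφfun : φ = fun u => T.τ (s + u) - T.τ s := funext hφ
  have hφ0 : φ 0 = 0 := by rw [hφ, add_zero, sub_self]
  have hφ1 : ∀ u, HasDerivAt φ (deriv T.τ (s + u)) u := by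
    intro u
    rw [hφfun]
    have h := (hτ1 (s + u)).comp_const_add s u
    exact h.sub_const _
  have hφ2 : HasDerivAt (fun u => deriv T.τ (s + u)) κ' 0 := by
    have h := (hτ2 (s + 0)).comp_const_add s 0
    rw [add_zero] at h
    exact h
  have hφc : Continuous φ := continuous_iff_continuousAt.mpr fun u => (hφ1 u).continuousAt
  -- the limits for `φ`
  have L1 : Tendsto (fun u : ℝ => (φ u - κ * u) / u ^ 2) (𝓝[>] 0) (𝓝 (κ' / 2)) := by
    have h := Exp_second hφ1 hφ0 hφ2
    simp only [add_zero] at h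
    exact h
  have L0 : Tendsto (fun u : ℝ => φ u / u) (𝓝[>] 0) (𝓝 κ) := by
    have h := Exp_deriv_slope (f := φ) (d := κ) (by
      have := hφ1 0
      rwa [add_zero] at this)
    simpa [hφ0] using h
  -- the integrals
  obtain ⟨X, hX⟩ : ∃ X : ℝ → ℝ, ∀ u, X u = ∫ t in (0:ℝ)..u, Real.cos (φ t) := ⟨_, fun u => rfl⟩
  obtain ⟨Z, hZ⟩ : ∃ Z : ℝ → ℝ, ∀ u, Z u = ∫ t in (0:ℝ)..u, Real.sin (φ t) := ⟨_, fun u => rfl⟩
  have hcc : Continuous fun t => Real.cos (φ t) := Real.continuous_cos.comp hφc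
  have hsc : Continuous fun t => Real.sin (φ t) := Real.continuous_sin.comp hφc
  have hX1 : ∀ u, HasDerivAt X (Real.cos (φ u)) u := by
    intro u
    rw [funext hX]
    exact (hcc.integral_hasStrictDerivAt 0 u).hasDerivAt
  have hZ1 : ∀ u, HasDerivAt Z (Real.sin (φ u)) u := by
    intro u
    rw [funext hZ]
    exact (hsc.integral_hasStrictDerivAt 0 u).hasDerivAt
  have hX0 : X 0 = 0 := by rw [hX]; simp
  have hZ0 : Z 0 = 0 := by rw [hZ]; simp
  -- the chord
  have hchord : ∀ u, T.γ (s + u) = T.γ s + ex (T.τ s) * ((X u : ℂ) + (Z u : ℂ) * Complex.I) := by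
    obtain ⟨D, hD⟩ : ∃ D : ℝ → ℂ, ∀ u, D u =
      T.γ (s + u) - ex (T.τ s) * ((X u : ℂ) + (Z u : ℂ) * Complex.I) := ⟨_, fun u => rfl⟩
    have hDd : ∀ u, HasDerivAt D 0 u := by
      intro u
      have h1 : HasDerivAt (fun u => T.γ (s + u)) (ex (T.τ (s + u))) u :=
        (T.tangent (s + u)).comp_const_add s u
      have h2 : HasDerivAt (fun u => ((X u : ℂ) + (Z u : ℂ) * Complex.I))
          ((Real.cos (φ u) : ℂ) + (Real.sin (φ u) : ℂ) * Complex.I) u :=
        (hX1 u).ofReal_comp.add ((hZ1 u).ofReal_comp.mul_const _)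
      have h3 := h1.sub (h2.const_mul (ex (T.τ s)))
      have e : ex (T.τ (s + u)) -
          ex (T.τ s) * ((Real.cos (φ u) : ℂ) + (Real.sin (φ u) : ℂ) * Complex.I) = 0 := by
        have e1 : T.τ (s + u) = T.τ s + φ u := by rw [hφ]; ring
        rw [e1]
        simp only [ex]
        rw [Complex.ofReal_cos, Complex.ofReal_sin, ← Complex.exp_mul_I, ← Complex.exp_add]
        rw [sub_eq_zero]
        congr 1
        push_cast
        ring
      rw [e] at h3
      rw [funext hD]
      exact h3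
    have hconst : ∀ u, D u = D 0 := by
      intro u
      have hdiff : Differentiable ℝ D := fun x => (hDd x).differentiableAt
      exact is_const_of_deriv_eq_zero hdiff (fun x => (hDd x).deriv) u 0
    intro u
    have h := hconst u
    rw [hD, hD, hX0, hZ0, add_zero] at h
    simp only [Complex.ofReal_zero, zero_mul, add_zero, mul_zero, sub_zero] at h
    rw [← h]
    ring
  -- expansions of the integrals
  have hsin : Tendsto (fun u : ℝ => (Real.sin (φ u) - κ * u) / u ^ 2) (𝓝[>] 0) (𝓝 (κ' / 2)) := by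
    have h1 := Exp_cubic (F := Real.sin) (fun z hz => Exp_abs_sin_sub z hz) L0
    have h2 := h1.add L1
    rw [zero_add] at h2
    refine h2.congr fun u => ?_
    rw [← add_div]
    congr 1
    ring
  have hcos : Tendsto (fun u : ℝ => (Real.cos (φ u) - 1) / u) (𝓝[>] 0) (𝓝 0) := by
    have h1 : HasDerivAt (fun u => Real.cos (φ u)) (-Real.sin (φ 0) * deriv T.τ (s + 0)) 0 :=
      (hφ1 0).cos
    rw [hφ0, Real.sin_zero, neg_zero, zero_mul] at h1
    have h2 := Exp_deriv_slope h1
    simpa [hφ0] using h2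
  have hid2 : Tendsto (fun u : ℝ => u ^ 2) (𝓝[>] 0) (𝓝 0) := by
    have := Exp_tendsto_id.pow 2
    simpa using this
  have hid3 : Tendsto (fun u : ℝ => u ^ 3) (𝓝[>] 0) (𝓝 0) := by
    have := Exp_tendsto_id.pow 3
    simpa using this
  have L2 : Tendsto (fun u : ℝ => (Z u - κ / 2 * u ^ 2) / u ^ 3) (𝓝[>] 0) (𝓝 (κ' / 6)) := by
    refine HasDerivAt.lhopital_zero_nhdsGT (f' := fun u => Real.sin (φ u) - κ * u)
      (g' := fun u => 3 * u ^ 2) ?_ ?_ ?_ ?_ hid3 ?_
    · refine Eventually.of_forall fun u => ?_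
      have h := (hZ1 u).sub ((hasDerivAt_pow 2 u).const_mul (κ / 2))
      have e : Real.sin (φ u) - κ / 2 * ((2:ℕ) * u ^ (2 - 1)) = Real.sin (φ u) - κ * u := by
        norm_num
        ring
      rw [e] at h
      exact h
    · refine Eventually.of_forall fun u => ?_
      have := hasDerivAt_pow 3 u
      simpa using this
    · filter_upwards [self_mem_nhdsWithin] with u hu
      have : (0:ℝ) < u := hu
      positivity
    · have hc : Continuous fun u => Z u - κ / 2 * u ^ 2 := by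
        have : Continuous Z := continuous_iff_continuousAt.mpr fun u => (hZ1 u).continuousAt
        fun_prop
      have := (hc.tendsto 0).mono_left (nhdsWithin_le_nhds (s := Ioi (0:ℝ)))
      simpa [hZ0] using this
    · have h1 := hsin.div_const 3
      have e : κ' / 2 / 3 = κ' / 6 := by ring
      rw [e] at h1
      refine h1.congr fun u => ?_
      rw [div_div, mul_comm (u ^ 2) 3]
  have L3 : Tendsto (fun u : ℝ => (X u - u) / u ^ 2) (𝓝[>] 0) (𝓝 0) := by
    refine HasDerivAt.lhopital_zero_nhdsGT (f' := fun u => Real.cos (φ u) - 1)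
      (g' := fun u => 2 * u) ?_ ?_ ?_ ?_ hid2 ?_
    · exact Eventually.of_forall fun u => (hX1 u).sub (hasDerivAt_id u)
    · refine Eventually.of_forall fun u => ?_
      have := hasDerivAt_pow 2 u
      simpa using this
    · filter_upwards [self_mem_nhdsWithin] with u hu
      have : (0:ℝ) < u := hu
      positivity
    · have hc : Continuous fun u => X u - u := by
        have : Continuous X := continuous_iff_continuousAt.mpr fun u => (hX1 u).continuousAt
        fun_prop
      have := (hc.tendsto 0).mono_left (nhdsWithin_le_nhds (s := Ioi (0:ℝ)))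
      simpa [hX0] using this
    · have h1 := hcos.div_const 2
      rw [zero_div] at h1
      refine h1.congr fun u => ?_
      rw [div_div, mul_comm u 2]
  have LX : Tendsto (fun u : ℝ => X u / u) (𝓝[>] 0) (𝓝 1) := by
    have h1 := (L3.mul Exp_tendsto_id).add_const 1
    rw [mul_zero, zero_add] at h1
    refine h1.congr' ?_
    filter_upwards [self_mem_nhdsWithin] with u hu
    have : u ≠ 0 := ne_of_gt hu
    field_simp
    ring
  -- `Z / X`
  have LY : Tendsto (fun u : ℝ => (Z u / X u - κ / 2 * u) / u ^ 2) (𝓝[>] 0) (𝓝 (κ' / 6)) := by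
    have h1 := (L2.sub (L3.const_mul (κ / 2))).div LX one_ne_zero
    rw [mul_zero, sub_zero, div_one] at h1
    refine h1.congr' ?_
    have hXe : ∀ᶠ u in 𝓝[>] (0:ℝ), X u / u ≠ 0 := LX.eventually_ne one_ne_zero
    filter_upwards [self_mem_nhdsWithin, hXe] with u hu hXu
    have hu0 : u ≠ 0 := ne_of_gt hu
    have hX0' : X u ≠ 0 := fun h => hXu (by rw [h, zero_div])
    simp only [Pi.div_apply]
    field_simp
    ring
  have LY0 : Tendsto (fun u : ℝ => Z u / X u / u) (𝓝[>] 0) (𝓝 (κ / 2)) := by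
    have h1 := (LY.mul Exp_tendsto_id).add_const (κ / 2)
    rw [mul_zero, zero_add] at h1
    refine h1.congr' ?_
    filter_upwards [self_mem_nhdsWithin] with u hu
    have : u ≠ 0 := ne_of_gt hu
    generalize Z u / X u = y
    field_simp
    ring
  have LA : Tendsto (fun u : ℝ => (Real.arctan (Z u / X u) - κ / 2 * u) / u ^ 2) (𝓝[>] 0)
      (𝓝 (κ' / 6)) := by
    have h1 := Exp_cubic (F := Real.arctan) (y := fun u => Z u / X u)
      (fun z _ => Exp_abs_arctan_sub z) LY0
    have h2 := h1.add LY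
    rw [zero_add] at h2
    refine h2.congr fun u => ?_
    rw [← add_div]
    congr 1
    ring
  obtain ⟨a, ha⟩ : ∃ a : ℝ → ℝ, ∀ u, a u =
    if u = 0 then κ / 2 else Real.arctan (Z u / X u) / u := ⟨_, fun u => rfl⟩
  obtain ⟨b, hb⟩ : ∃ b : ℝ → ℝ, ∀ u, b u =
    if u = 0 then κ / 2 else φ u / u - a u := ⟨_, fun u => rfl⟩
  have ha0 : a 0 = κ / 2 := by rw [ha, if_pos rfl]
  have hb0 : b 0 = κ / 2 := by rw [hb, if_pos rfl]
  refine ⟨a, b, ha0, hb0, Exp_hasDeriv ?_, Exp_hasDeriv ?_, ?_⟩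
  · refine LA.congr' ?_
    filter_upwards [self_mem_nhdsWithin] with u hu
    have hu0 : u ≠ 0 := ne_of_gt hu
    rw [ha0, ha, if_neg hu0]
    field_simp
  · have h1 := L1.sub LA
    have e : κ' / 2 - κ' / 6 = κ' / 3 := by ring
    rw [e] at h1
    refine h1.congr' ?_
    filter_upwards [self_mem_nhdsWithin] with u hu
    have hu0 : u ≠ 0 := ne_of_gt hu
    rw [hb0, hb, ha, if_neg hu0, if_neg hu0]
    field_simp
    ring
  · have hXe : ∀ᶠ u in 𝓝[>] (0:ℝ), 0 < X u / u := LX.eventually (lt_mem_nhds one_pos)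
    obtain ⟨η, hη, hηX⟩ := mem_nhdsGT_iff_exists_Ioo_subset.mp hXe
    refine ⟨η, hη, fun u hu => ?_⟩
    have hu0 : u ≠ 0 := ne_of_gt hu.1
    have hXp : 0 < X u := by
      have h := hηX hu
      have h' : 0 < X u / u := h
      have h2 := mul_pos h' hu.1
      rwa [div_mul_cancel₀ _ hu0] at h2
    have hua : u * a u = Real.arctan (Z u / X u) := by
      rw [ha, if_neg hu0]
      field_simp
    have hub : u * b u = φ u - Real.arctan (Z u / X u) := by
      rw [hb, if_neg hu0, mul_sub, hua]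
      field_simp
    refine ⟨?_, X u / Real.cos (Real.arctan (Z u / X u)), ?_⟩
    · rw [hua, hub, hφ]
      ring
    · rw [hchord u, hua]
      set θ := Real.arctan (Z u / X u) with hθ
      have hcp : 0 < Real.cos θ := Real.cos_arctan_pos _
      have ht : Real.tan θ = Z u / X u := Real.tan_arctan _
      have hs : Real.sin θ = Z u / X u * Real.cos θ := by
        rw [← ht, Real.tan_mul_cos hcp.ne']
      have hZe : Z u = X u / Real.cos θ * Real.sin θ := by
        rw [hs]
        field_simp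
      have hXe' : X u = X u / Real.cos θ * Real.cos θ := by field_simp
      have hex : ex (T.τ s + θ) = ex (T.τ s) * ((Real.cos θ : ℂ) + (Real.sin θ : ℂ) * Complex.I) := by
        simp only [ex]
        rw [Complex.ofReal_cos, Complex.ofReal_sin, ← Complex.exp_mul_I, ← Complex.exp_add]
        congr 1
        push_cast
        ring
      rw [hex]
      have e1 : (X u : ℂ) + (Z u : ℂ) * Complex.I =
          ((X u / Real.cos θ : ℝ) : ℂ) * ((Real.cos θ : ℂ) + (Real.sin θ : ℂ) * Complex.I) := by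
        have e2 : (Z u : ℂ) = ((X u / Real.cos θ : ℝ) : ℂ) * (Real.sin θ : ℂ) := by
          rw [← Complex.ofReal_mul, ← hZe]
        have e3 : (X u : ℂ) = ((X u / Real.cos θ : ℝ) : ℂ) * (Real.cos θ : ℂ) := by
          rw [← Complex.ofReal_mul, ← hXe']
        rw [mul_add, ← e3, ← mul_assoc, ← e2]
      rw [e1]
      ring

end Pool.Agent.H46.BL
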