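/-
TAY : smooth functions of two variables: derivatives in the second variable, uniform Taylor formula.
Mathlib only.

PROOFS.
* smooth_iter: induction on k.  iteratedDeriv (k+1) (f s) θ = deriv (iteratedDeriv k (f s)) θ
  = fderiv ℝ (fun z => iteratedDeriv k (f z.1) z.2) (s, θ) (0, 1), and the latter is smooth in (s, θ)
  (ContDiff.fderiv_right / contDiff_infty_iff_fderiv, applied to a constant vector).
* taylor_unif: C = sup of |iteratedDeriv (m+2) (f s) θ| over the compact set Icc α β ×ˢ Icc (-1) 1 (continuous by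
  smooth_iter).  For θ = 0 trivial.  For θ ≠ 0 use taylor_mean_remainder_lagrange_iteratedDeriv (n = m + 1) for the
  function f s at 0: f s θ = ∑_{j ≤ m+1} iteratedDeriv j (f s) 0 / j! θ^j + iteratedDeriv (m+2) (f s) ξ /(m+2)! θ^(m+2),
  where only the terms j = 0 and j = m do not vanish (taylorWithinEval_succ / taylorWithinEval as a sum; alternatively
  prove the estimate by induction on m, integrating the derivative).  (m+2)! ≥ 1.
-/
import Mathlib

set_option autoImplicit false

namespace Pool.Agent.H46.BL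

open Set Filter Topology
open scoped ContDiff

lemma smooth_iter {f : ℝ → ℝ → ℝ} (hf : ContDiff ℝ ∞ (fun z : ℝ × ℝ => f z.1 z.2)) (k : ℕ) :
    ContDiff ℝ ∞ (fun z : ℝ × ℝ => iteratedDeriv k (f z.1) z.2) := by
  induction k with
  | zero =>
    simp only [iteratedDeriv_zero]
    exact hf
  | succ k ih =>
    have h1 : (fun z : ℝ × ℝ => iteratedDeriv (k + 1) (f z.1) z.2) =
        fun z : ℝ × ℝ => fderiv ℝ (fun z : ℝ × ℝ => iteratedDeriv k (f z.1) z.2) z ((0 : ℝ), (1 : ℝ)) := by
      funext z
      rw [iteratedDeriv_succ]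
      have hd : HasFDerivAt (fun z : ℝ × ℝ => iteratedDeriv k (f z.1) z.2)
          (fderiv ℝ (fun z : ℝ × ℝ => iteratedDeriv k (f z.1) z.2) z) (z.1, z.2) :=
        ((ih.differentiable (by simp)) z).hasFDerivAt
      have hp : HasDerivAt (fun θ : ℝ => (z.1, θ)) ((0 : ℝ), (1 : ℝ)) z.2 :=
        (hasDerivAt_const z.2 z.1).prodMk (hasDerivAt_id z.2)
      exact (hd.comp_hasDerivAt z.2 hp).deriv
    rw [h1]
    exact (ih.fderiv_right (m := ∞) (by simp)).clm_apply contDiff_const

lemma Tay_gen (n : ℕ) : ∀ (g : ℝ → ℝ) (C : ℝ), ContDiff ℝ ∞ g →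
    (∀ t ∈ Icc (-1 : ℝ) 1, |iteratedDeriv (n + 1) g t| ≤ C) → ∀ θ ∈ Icc (-1 : ℝ) 1,
      |g θ - ∑ j ∈ Finset.range (n + 1), iteratedDeriv j g 0 / (j.factorial : ℝ) * θ ^ j| ≤
        C * |θ| ^ (n + 1) := by
  induction n with
  | zero =>
    intro g C hg hC θ hθ
    have h1 := (convex_uIcc (0 : ℝ) θ).norm_image_sub_le_of_norm_deriv_le (f := g) (C := C)
      (fun x _ => (hg.differentiable (by simp)) x)
      (fun x hx => by
        have h2 : x ∈ Icc (-1 : ℝ) 1 := by
          have h3 : uIcc (0 : ℝ) θ ⊆ Icc (-1 : ℝ) 1 := by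
            apply uIcc_subset_Icc
            · constructor <;> norm_num
            · exact hθ
          exact h3 hx
        have h4 := hC x h2
        rw [zero_add, iteratedDeriv_one] at h4
        rw [Real.norm_eq_abs]
        exact h4)
      (left_mem_uIcc) (right_mem_uIcc)
    rw [Real.norm_eq_abs, Real.norm_eq_abs, sub_zero] at h1
    simp only [zero_add, Finset.range_one, Finset.sum_singleton, iteratedDeriv_zero,
      Nat.factorial_zero, Nat.cast_one, div_one, pow_zero, mul_one, pow_one]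
    exact h1
  | succ n ih =>
    intro g C hg hC θ hθ
    have hg' : ContDiff ℝ ∞ (deriv g) := (contDiff_infty_iff_deriv.1 hg).2
    have hC0 : 0 ≤ C := (abs_nonneg _).trans (hC 0 (by constructor <;> norm_num))
    have ih' := ih (deriv g) C hg' (by
      intro t ht
      have := hC t ht
      rwa [iteratedDeriv_succ'] at this)
    obtain ⟨R, hR⟩ : ∃ R : ℝ → ℝ, R = fun θ => g θ -
        ∑ j ∈ Finset.range (n + 1 + 1), iteratedDeriv j g 0 / (j.factorial : ℝ) * θ ^ j := ⟨_, rfl⟩
    have hR0 : R 0 = 0 := by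
      rw [hR]
      simp only
      rw [Finset.sum_eq_single 0]
      · simp
      · intro j _ hj
        simp [hj]
      · intro h
        exact absurd (Finset.mem_range.2 (by omega)) h
    have hRd : ∀ t, HasDerivAt R (deriv g t -
        ∑ j ∈ Finset.range (n + 1), iteratedDeriv j (deriv g) 0 / (j.factorial : ℝ) * t ^ j) t := by
      intro t
      rw [hR]
      apply HasDerivAt.sub
      · exact ((hg.differentiable (by simp)) t).hasDerivAt
      · have h1 : HasDerivAt (fun θ : ℝ => ∑ j ∈ Finset.range (n + 1 + 1),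
            iteratedDeriv j g 0 / (j.factorial : ℝ) * θ ^ j)
            (∑ j ∈ Finset.range (n + 1 + 1), iteratedDeriv j g 0 / (j.factorial : ℝ) *
              ((j : ℝ) * t ^ (j - 1))) t := by
          apply HasDerivAt.fun_sum
          intro j _
          exact (hasDerivAt_pow j t).const_mul _
        have h2 : ∑ j ∈ Finset.range (n + 1 + 1), iteratedDeriv j g 0 / (j.factorial : ℝ) *
              ((j : ℝ) * t ^ (j - 1)) =
            ∑ j ∈ Finset.range (n + 1), iteratedDeriv j (deriv g) 0 / (j.factorial : ℝ) * t ^ j := by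
          rw [Finset.sum_range_succ' _ (n + 1)]
          simp only [Nat.cast_zero, zero_mul, mul_zero, add_zero, Nat.add_sub_cancel]
          refine Finset.sum_congr rfl fun j _ => ?_
          rw [← iteratedDeriv_succ', Nat.factorial_succ]
          push_cast
          field_simp
        rw [h2] at h1
        exact h1
    have h1 := (convex_uIcc (0 : ℝ) θ).norm_image_sub_le_of_norm_hasDerivWithin_le (f := R)
      (f' := fun t => deriv g t -
        ∑ j ∈ Finset.range (n + 1), iteratedDeriv j (deriv g) 0 / (j.factorial : ℝ) * t ^ j)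
      (C := C * |θ| ^ (n + 1))
      (fun x _ => (hRd x).hasDerivWithinAt)
      (fun x hx => by
        have h3 : uIcc (0 : ℝ) θ ⊆ Icc (-1 : ℝ) 1 := by
          apply uIcc_subset_Icc
          · constructor <;> norm_num
          · exact hθ
        have h4 := ih' x (h3 hx)
        rw [Real.norm_eq_abs]
        refine h4.trans (mul_le_mul_of_nonneg_left ?_ hC0)
        refine pow_le_pow_left₀ (abs_nonneg _) ?_ _
        have h5 := abs_sub_left_of_mem_uIcc hx
        rwa [sub_zero, sub_zero] at h5)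
      (left_mem_uIcc) (right_mem_uIcc)
    rw [hR0, sub_zero, sub_zero, Real.norm_eq_abs, Real.norm_eq_abs, mul_assoc, ← pow_succ] at h1
    rw [hR] at h1
    exact h1

lemma taylor_unif {f : ℝ → ℝ → ℝ} (hf : ContDiff ℝ ∞ (fun z : ℝ × ℝ => f z.1 z.2)) (m : ℕ) (hm : 1 ≤ m)
    (α β : ℝ) : ∃ C : ℝ, 0 ≤ C ∧ ∀ s ∈ Icc α β,
      (∀ j, 1 ≤ j → j < m → iteratedDeriv j (f s) 0 = 0) → iteratedDeriv (m + 1) (f s) 0 = 0 →
      ∀ θ ∈ Icc (-1 : ℝ) 1,
        |f s θ - f s 0 - iteratedDeriv m (f s) 0 / (m.factorial : ℝ) * θ ^ m| ≤ C * |θ| ^ (m + 2) := by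
  obtain ⟨C, hC⟩ := (isCompact_Icc.prod isCompact_Icc :
    IsCompact (Icc α β ×ˢ Icc (-1 : ℝ) 1)).exists_bound_of_continuousOn
    (smooth_iter hf (m + 2)).continuous.continuousOn
  refine ⟨max C 0, le_max_right _ _, ?_⟩
  intro s hs h0 h1 θ hθ
  have hsm : ContDiff ℝ ∞ (f s) := hf.comp (contDiff_const.prodMk contDiff_id)
  have h2 := Tay_gen (m + 1) (f s) (max C 0) hsm (by
    intro t ht
    have := hC (s, t) ⟨hs, ht⟩
    rw [Real.norm_eq_abs] at this
    exact this.trans (le_max_left _ _)) θ hθ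
  have h3 : ∑ j ∈ Finset.range (m + 1 + 1), iteratedDeriv j (f s) 0 / (j.factorial : ℝ) * θ ^ j =
      f s 0 + iteratedDeriv m (f s) 0 / (m.factorial : ℝ) * θ ^ m := by
    rw [Finset.sum_range_succ, h1, zero_div, zero_mul, add_zero, Finset.sum_range_succ]
    congr 1
    rw [Finset.sum_eq_single 0]
    · simp
    · intro j hj hj0
      rw [h0 j (by omega) (Finset.mem_range.1 hj), zero_div, zero_mul]
    · intro h
      exact absurd (Finset.mem_range.2 (by omega)) h
  rw [h3] at h2
  have h4 : f s θ - f s 0 - iteratedDeriv m (f s) 0 / (m.factorial : ℝ) * θ ^ m =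
      f s θ - (f s 0 + iteratedDeriv m (f s) 0 / (m.factorial : ℝ) * θ ^ m) := by ring
  rw [h4]
  exact h2

end Pool.Agent.H46.BL
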