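/-
ODE : transport equation for the first nonvanishing derivative at the glancing vectors.
-/
import Mathlib
import Pool.Agent.H46.BL.Bas
import Pool.Agent.H46.BL.Exp
import Pool.Agent.H46.BL.Tay

set_option autoImplicit false

namespace Pool.Agent.H46.BL

open Set Filter Topology
open scoped ContDiff

lemma Table.gd_smooth (T : Table) {F : ℂ → ℂ → ℝ} (hF : T.Integral F) {r : ℝ} (hr : 0 < r) (k : ℕ) :
    ContDiff ℝ ∞ (T.gd F r k) := by
  have h1 := smooth_iter (T.fn_smooth hF hr) k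
  have h2 : ContDiff ℝ ∞ (fun s : ℝ => ((s, 0) : ℝ × ℝ)) := contDiff_id.prodMk contDiff_const
  exact h1.comp h2

lemma Ode_aux {D : ℝ → ℝ} {C η : ℝ} (hη : 0 < η) (h0 : D 0 = 0) (h : ∀ u ∈ Ioo 0 η, |D u| ≤ C * u ^ 2) :
    HasDerivWithinAt D 0 (Ici 0) 0 := by
  rw [hasDerivWithinAt_iff_isLittleO]
  have h1 : (fun u => D u) =O[𝓝[Ici 0] (0 : ℝ)] (fun u : ℝ => u ^ 2) := by
    refine Asymptotics.IsBigO.of_bound C ?_
    have h2 : Ico 0 η ∈ 𝓝[Ici 0] (0 : ℝ) := by
      rw [← Ici_inter_Iio]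
      exact inter_mem self_mem_nhdsWithin (mem_nhdsWithin_of_mem_nhds (Iio_mem_nhds hη))
    filter_upwards [h2] with u hu
    rcases eq_or_lt_of_le hu.1 with h3 | h3
    · rw [← h3, h0]; simp
    · rw [Real.norm_eq_abs, Real.norm_eq_abs, abs_of_nonneg (sq_nonneg u)]
      exact h u ⟨h3, hu.2⟩
  have h3 : (fun u : ℝ => u ^ 2) =o[𝓝[Ici 0] (0 : ℝ)] (fun u : ℝ => u) := by
    have h4 : (fun u : ℝ => u ^ 2) =o[𝓝 (0 : ℝ)] (fun u : ℝ => u ^ 1) :=
      Asymptotics.isLittleO_pow_pow (by norm_num)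
    simpa using h4.mono nhdsWithin_le_nhds
  have h5 := h1.trans_isLittleO h3
  simpa [h0] using h5

/-- bounds of continuous functions near `0` from the right -/
lemma Ode_bdd {a : ℝ → ℝ} {a' : ℝ} (ha : HasDerivWithinAt a a' (Ici 0) 0) :
    ∃ M > 0, ∃ η > 0, ∀ u ∈ Ioo 0 η, |a u| ≤ M := by
  have hc := ha.continuousWithinAt
  have h1 : ∀ᶠ u in 𝓝[Ici 0] (0 : ℝ), |a u| ≤ |a 0| + 1 := by
    have h2 : ∀ᶠ y in 𝓝 (a 0), |y| < |a 0| + 1 := by
      have h3 : Continuous fun y : ℝ => |y| := continuous_abs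
      exact h3.continuousAt.eventually (gt_mem_nhds (by linarith))
    filter_upwards [hc.eventually h2] with u hu using hu.le
  rw [eventually_nhdsWithin_iff, Metric.eventually_nhds_iff] at h1
  obtain ⟨η, hη, h⟩ := h1
  refine ⟨|a 0| + 1, by positivity, η, hη, fun u hu => ?_⟩
  exact h (by rw [Real.dist_eq, sub_zero, abs_of_pos hu.1]; exact hu.2) hu.1.le

/-- the value at the glancing vectors is constant -/
lemma Table.fn_zero_const (T : Table) {F : ℂ → ℂ → ℝ} (hF : T.Integral F) {r : ℝ} (hr : 0 < r) (s s' : ℝ) :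
    T.fn F r s 0 = T.fn F r s' 0 := by
  have hsm : ContDiff ℝ ∞ (fun s => T.fn F r s 0) := by
    have := T.gd_smooth hF hr 0
    have h2 : T.gd F r 0 = fun s => T.fn F r s 0 := by
      funext s; simp [Table.gd]
    rwa [h2] at this
  have hd : Differentiable ℝ (fun s => T.fn F r s 0) := hsm.differentiable (by simp)
  refine is_const_of_deriv_eq_zero hd (fun s => ?_) s s'
  obtain ⟨a, b, ha0, hb0, ha, hb, η, hη, hab⟩ := chord_exp T s
  obtain ⟨C, hC, hT⟩ := taylor_unif (T.fn_smooth hF hr) 2 (by norm_num) (s - 1) (s + 1)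
  -- bound of the second derivative
  obtain ⟨B, hB⟩ : ∃ B, ∀ x ∈ Icc (s - 1) (s + 1), |T.gd F r 2 x| ≤ B := by
    obtain ⟨B, hB⟩ := isCompact_Icc.exists_bound_of_continuousOn
      ((T.gd_smooth hF hr 2).continuous.continuousOn (s := Icc (s - 1) (s + 1)))
    exact ⟨B, fun x hx => by have := hB x hx; rwa [Real.norm_eq_abs] at this⟩
  have hB0 : 0 ≤ B := (abs_nonneg _).trans (hB s ⟨by linarith, by linarith⟩)
  have hquad : ∀ x ∈ Icc (s - 1) (s + 1), ∀ θ ∈ Icc (-1 : ℝ) 1,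
      |T.fn F r x θ - T.fn F r x 0| ≤ (C + B) * θ ^ 2 := by
    intro x hx θ hθ
    have h1 := hT x hx (by
      intro j hj1 hj2
      have : j = 1 := by omega
      subst this
      exact T.gd_odd hF hr (by decide) x) (T.gd_odd hF hr (by decide) x) θ hθ
    have h2 : |θ| ≤ 1 := abs_le.2 ⟨hθ.1, hθ.2⟩
    have h3 : |θ| ^ (2 + 2) ≤ θ ^ 2 := by
      have h4 : |θ| ^ (2 + 2) = |θ| ^ 2 * |θ| ^ 2 := by ring
      rw [h4, sq_abs]
      have h5 : θ ^ 2 ≤ 1 := by rw [← sq_abs]; exact pow_le_one₀ (abs_nonneg _) h2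
      have h6 := sq_nonneg θ
      nlinarith
    have h4 : |iteratedDeriv 2 (T.fn F r x) 0 / ((2 : ℕ).factorial : ℝ) * θ ^ 2| ≤ B * θ ^ 2 := by
      rw [abs_mul, abs_of_nonneg (sq_nonneg θ)]
      refine mul_le_mul_of_nonneg_right ?_ (sq_nonneg θ)
      rw [abs_div]
      have h5 := hB x hx
      unfold Table.gd at h5
      have h6 : |(((2 : ℕ).factorial : ℕ) : ℝ)| = 2 := by norm_num [Nat.factorial]
      rw [h6]
      have := abs_nonneg (iteratedDeriv 2 (T.fn F r x) 0)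
      linarith
    have h5 : C * |θ| ^ (2 + 2) ≤ C * θ ^ 2 := mul_le_mul_of_nonneg_left h3 hC
    have h6 := abs_sub_abs_le_abs_sub (T.fn F r x θ - T.fn F r x 0)
      (iteratedDeriv 2 (T.fn F r x) 0 / ((2 : ℕ).factorial : ℝ) * θ ^ 2)
    have h7 : (C + B) * θ ^ 2 = C * θ ^ 2 + B * θ ^ 2 := by ring
    rw [h7]
    have h8 := h6.trans (h1.trans h5)
    rw [sub_le_iff_le_add] at h8
    exact h8.trans (add_le_add_right h4 _)
  obtain ⟨Ma, hMa, ηa, hηa, hMa'⟩ := Ode_bdd ha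
  obtain ⟨Mb, hMb, ηb, hηb, hMb'⟩ := Ode_bdd hb
  set D : ℝ → ℝ := fun u => T.fn F r (s + u) 0 - T.fn F r s 0 with hD
  have hder : HasDerivWithinAt D (deriv (fun s => T.fn F r s 0) s) (Ici 0) 0 := by
    have h1 : HasDerivAt (fun s => T.fn F r s 0) (deriv (fun s => T.fn F r s 0) s) (s + 0) := by
      rw [add_zero]; exact (hd s).hasDerivAt
    have h2 : HasDerivAt (fun u => T.fn F r (s + u) 0) (deriv (fun s => T.fn F r s 0) s) 0 :=
      h1.comp_const_add s 0
    exact (h2.sub_const _).hasDerivWithinAt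
  have hzero : HasDerivWithinAt D 0 (Ici 0) 0 := by
    refine Ode_aux (η := min (min η 1) (min (min ηa ηb) (min (1 / Ma) (1 / Mb))))
      (C := (C + B) * (Ma ^ 2 + Mb ^ 2)) (by positivity) (by simp [hD]) ?_
    intro u hu
    have hu0 := hu.1
    have hu1 : u < η := hu.2.trans_le ((min_le_left _ _).trans (min_le_left _ _))
    have hu2 : u < 1 := hu.2.trans_le ((min_le_left _ _).trans (min_le_right _ _))
    have hu3 : u < ηa := hu.2.trans_le ((min_le_right _ _).trans ((min_le_left _ _).trans (min_le_left _ _)))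
    have hu4 : u < ηb := hu.2.trans_le ((min_le_right _ _).trans ((min_le_left _ _).trans (min_le_right _ _)))
    have hu5 : u < 1 / Ma := hu.2.trans_le ((min_le_right _ _).trans ((min_le_right _ _).trans (min_le_left _ _)))
    have hu6 : u < 1 / Mb := hu.2.trans_le ((min_le_right _ _).trans ((min_le_right _ _).trans (min_le_right _ _)))
    obtain ⟨h1, ℓ, h2⟩ := hab u ⟨hu0, hu1⟩
    have hch := T.fn_chord hF hr h1 h2
    have ha1 := hMa' u ⟨hu0, hu3⟩
    have hb1 := hMb' u ⟨hu0, hu4⟩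
    have ha2 : |u * a u| ≤ u * Ma := by
      rw [abs_mul, abs_of_pos hu0]; exact mul_le_mul_of_nonneg_left ha1 hu0.le
    have hb2 : |u * b u| ≤ u * Mb := by
      rw [abs_mul, abs_of_pos hu0]; exact mul_le_mul_of_nonneg_left hb1 hu0.le
    have ha3 : u * Ma ≤ 1 := by
      rw [lt_div_iff₀ hMa] at hu5; exact hu5.le
    have hb3 : u * Mb ≤ 1 := by
      rw [lt_div_iff₀ hMb] at hu6; exact hu6.le
    have q1 := hquad s ⟨by linarith, by linarith⟩ (u * a u) (abs_le.1 (ha2.trans ha3))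
    have q2 := hquad (s + u) ⟨by linarith, by linarith⟩ (u * b u) (abs_le.1 (hb2.trans hb3))
    have ha4 : (u * a u) ^ 2 ≤ (u * Ma) ^ 2 := by
      rw [← sq_abs (u * a u)]; exact pow_le_pow_left₀ (abs_nonneg _) ha2 2
    have hb4 : (u * b u) ^ 2 ≤ (u * Mb) ^ 2 := by
      rw [← sq_abs (u * b u)]; exact pow_le_pow_left₀ (abs_nonneg _) hb2 2
    have hCB : 0 ≤ C + B := by linarith
    have q1' := q1.trans (mul_le_mul_of_nonneg_left ha4 hCB)
    have q2' := q2.trans (mul_le_mul_of_nonneg_left hb4 hCB)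
    have h3 : D u = (T.fn F r s (u * a u) - T.fn F r s 0)
        - (T.fn F r (s + u) (u * b u) - T.fn F r (s + u) 0) := by
      simp only [hD]; rw [hch]; ring
    rw [h3]
    refine (abs_sub _ _).trans ?_
    have h4 : (C + B) * (Ma ^ 2 + Mb ^ 2) * u ^ 2 = (C + B) * (u * Ma) ^ 2 + (C + B) * (u * Mb) ^ 2 := by ring
    rw [h4]
    linarith
  exact (uniqueDiffWithinAt_Ici (0 : ℝ)).eq_deriv _ hder hzero

lemma Table.ode (T : Table) {F : ℂ → ℂ → ℝ} (hF : T.Integral F) {r : ℝ} (hr : 0 < r) {m : ℕ} (hm : 1 ≤ m)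
    (hme : Even m) {s : ℝ} (hs : 0 < deriv T.τ s)
    (h : ∀ᶠ s' in 𝓝 s, ∀ j, 1 ≤ j → j < m → T.gd F r j s' = 0) :
    deriv (T.gd F r m) s * deriv T.τ s + m / 3 * T.gd F r m s * deriv (deriv T.τ) s = 0 := by
  obtain ⟨a, b, ha0, hb0, ha, hb, η, hη, hab⟩ := chord_exp T s
  obtain ⟨C, hC, hT⟩ := taylor_unif (T.fn_smooth hF hr) m hm (s - 1) (s + 1)
  obtain ⟨Ma, hMa, ηa, hηa, hMa'⟩ := Ode_bdd ha
  obtain ⟨Mb, hMb, ηb, hηb, hMb'⟩ := Ode_bdd hb
  rw [Metric.eventually_nhds_iff] at h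
  obtain ⟨ηh, hηh, h⟩ := h
  have hodd : Odd (m + 1) := hme.add_one
  set β : ℝ → ℝ := T.gd F r m with hβ
  have hβd : HasDerivAt β (deriv β s) s :=
    ((T.gd_smooth hF hr m).differentiable (by simp) s).hasDerivAt
  set D : ℝ → ℝ := fun u => β s * a u ^ m - β (s + u) * b u ^ m with hD
  have hder : HasDerivWithinAt D (β s * (m * (a 0) ^ (m - 1) * (deriv (deriv T.τ) s / 6))
      - (deriv β s * (b 0) ^ m + β (s + 0) * (m * (b 0) ^ (m - 1) * (deriv (deriv T.τ) s / 3))))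
      (Ici 0) 0 := by
    have h2 : HasDerivAt (fun u => β (s + u)) (deriv β s) 0 :=
      HasDerivAt.comp_const_add s 0 (by rw [add_zero]; exact hβd)
    exact ((ha.pow m).const_mul (β s)).sub (h2.hasDerivWithinAt.mul (hb.pow m))
  have hfac : (0 : ℝ) < (m.factorial : ℝ) := by exact_mod_cast m.factorial_pos
  have hzero : HasDerivWithinAt D 0 (Ici 0) 0 := by
    refine Ode_aux (η := min (min (min η 1) ηh) (min (min ηa ηb) (min (1 / Ma) (1 / Mb))))
      (C := m.factorial * (C * (Ma ^ (m + 2) + Mb ^ (m + 2)))) (by positivity)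
      (by simp [hD, ha0, hb0]) ?_
    intro u hu
    have hu0 := hu.1
    have hu1 : u < η := hu.2.trans_le ((min_le_left _ _).trans ((min_le_left _ _).trans (min_le_left _ _)))
    have hu2 : u < 1 := hu.2.trans_le ((min_le_left _ _).trans ((min_le_left _ _).trans (min_le_right _ _)))
    have hu7 : u < ηh := hu.2.trans_le ((min_le_left _ _).trans (min_le_right _ _))
    have hu3 : u < ηa := hu.2.trans_le ((min_le_right _ _).trans ((min_le_left _ _).trans (min_le_left _ _)))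
    have hu4 : u < ηb := hu.2.trans_le ((min_le_right _ _).trans ((min_le_left _ _).trans (min_le_right _ _)))
    have hu5 : u < 1 / Ma := hu.2.trans_le ((min_le_right _ _).trans ((min_le_right _ _).trans (min_le_left _ _)))
    have hu6 : u < 1 / Mb := hu.2.trans_le ((min_le_right _ _).trans ((min_le_right _ _).trans (min_le_right _ _)))
    obtain ⟨h1, ℓ, h2⟩ := hab u ⟨hu0, hu1⟩
    have hch := T.fn_chord hF hr h1 h2
    have ha1 := hMa' u ⟨hu0, hu3⟩
    have hb1 := hMb' u ⟨hu0, hu4⟩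
    have ha2 : |u * a u| ≤ u * Ma := by
      rw [abs_mul, abs_of_pos hu0]; exact mul_le_mul_of_nonneg_left ha1 hu0.le
    have hb2 : |u * b u| ≤ u * Mb := by
      rw [abs_mul, abs_of_pos hu0]; exact mul_le_mul_of_nonneg_left hb1 hu0.le
    have ha3 : u * Ma ≤ 1 := by
      rw [lt_div_iff₀ hMa] at hu5; exact hu5.le
    have hb3 : u * Mb ≤ 1 := by
      rw [lt_div_iff₀ hMb] at hu6; exact hu6.le
    have q1 := hT s ⟨by linarith, by linarith⟩ (h (by simpa using hηh))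
      (T.gd_odd hF hr hodd s) (u * a u) (abs_le.1 (ha2.trans ha3))
    have q2 := hT (s + u) ⟨by linarith, by linarith⟩
      (h (by rw [Real.dist_eq]; simpa [abs_of_pos hu0] using hu7))
      (T.gd_odd hF hr hodd (s + u)) (u * b u) (abs_le.1 (hb2.trans hb3))
    have ha4 : |u * a u| ^ (m + 2) ≤ (u * Ma) ^ (m + 2) := pow_le_pow_left₀ (abs_nonneg _) ha2 _
    have hb4 : |u * b u| ^ (m + 2) ≤ (u * Mb) ^ (m + 2) := pow_le_pow_left₀ (abs_nonneg _) hb2 _
    have q1' := q1.trans (mul_le_mul_of_nonneg_left ha4 hC)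
    have q2' := q2.trans (mul_le_mul_of_nonneg_left hb4 hC)
    have hz := T.fn_zero_const hF hr s (s + u)
    have key : u ^ m * D u = m.factorial * ((T.fn F r (s + u) (u * b u) - T.fn F r (s + u) 0
        - iteratedDeriv m (T.fn F r (s + u)) 0 / (m.factorial : ℝ) * (u * b u) ^ m)
        - (T.fn F r s (u * a u) - T.fn F r s 0
        - iteratedDeriv m (T.fn F r s) 0 / (m.factorial : ℝ) * (u * a u) ^ m)) := by
      rw [hch, hz]
      simp only [hD, hβ, Table.gd, mul_pow]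
      field_simp
      ring
    have h3 : |u ^ m * D u| ≤ u ^ m * (m.factorial * (C * (Ma ^ (m + 2) + Mb ^ (m + 2))) * u ^ 2) := by
      rw [key, abs_mul, abs_of_pos hfac]
      have h4 : u ^ m * (m.factorial * (C * (Ma ^ (m + 2) + Mb ^ (m + 2))) * u ^ 2)
          = m.factorial * (C * (u * Mb) ^ (m + 2) + C * (u * Ma) ^ (m + 2)) := by
        rw [mul_pow, mul_pow]; ring
      rw [h4]
      refine mul_le_mul_of_nonneg_left ?_ hfac.le
      refine (abs_sub _ _).trans ?_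
      linarith
    rw [abs_mul, abs_of_pos (pow_pos hu0 m)] at h3
    exact le_of_mul_le_mul_left h3 (pow_pos hu0 m)
  have heq := (uniqueDiffWithinAt_Ici (0 : ℝ)).eq_deriv _ hder hzero
  rw [ha0, hb0, add_zero] at heq
  obtain ⟨n, rfl⟩ : ∃ n, m = n + 1 := ⟨m - 1, by omega⟩
  simp only [Nat.add_sub_cancel] at heq
  set κ := deriv T.τ s with hκ
  set κ' := deriv (deriv T.τ) s with hκ'
  have hp : (0 : ℝ) < (κ / 2) ^ n := pow_pos (by linarith) n
  have h5 : (κ / 2) ^ n * (deriv β s * κ + ((n + 1 : ℕ) : ℝ) / 3 * β s * κ') = 0 := by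
    have h6 : (κ / 2) ^ (n + 1) = (κ / 2) ^ n * (κ / 2) := pow_succ _ _
    rw [h6] at heq
    linear_combination (-2) * heq
  rcases mul_eq_zero.1 h5 with h6 | h6
  · exact absurd h6 hp.ne'
  · exact h6

end Pool.Agent.H46.BL
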