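/-
DIC : dichotomy: flat at all glancing vectors over positive curvature, or positive curvature everywhere and a nowhere
vanishing leading derivative.
-/
import Mathlib
import Pool.Agent.H46.BL.Ode

set_option autoImplicit false

namespace Pool.Agent.H46.BL

open Set Filter Topology
open scoped ContDiff

lemma dichotomy (T : Table) {F : ℂ → ℂ → ℝ} (hF : T.Integral F) {r : ℝ} (hr : 0 < r)
    (hnf : ∃ s k, 0 < deriv T.τ s ∧ 1 ≤ k ∧ T.gd F r k s ≠ 0) :
    (∀ s, 0 < deriv T.τ s) ∧ ∃ m : ℕ, 2 ≤ m ∧ Even m ∧ (∀ s j, 1 ≤ j → j < m → T.gd F r j s = 0) ∧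
      ∃ C : ℝ, C ≠ 0 ∧ ∀ s, T.gd F r m s ^ 3 * deriv T.τ s ^ m = C := by
  classical
  have hex : ∃ k, 1 ≤ k ∧ ∃ s, 0 < deriv T.τ s ∧ T.gd F r k s ≠ 0 := by
    obtain ⟨s, k, h1, h2, h3⟩ := hnf
    exact ⟨k, h2, s, h1, h3⟩
  obtain ⟨m, hm⟩ : ∃ m, m = Nat.find hex := ⟨_, rfl⟩
  obtain ⟨hm1, s₁, hs₁, hne⟩ := Nat.find_spec hex
  rw [← hm] at hm1 hne
  have hmin : ∀ j, 1 ≤ j → j < m → ∀ s, 0 < deriv T.τ s → T.gd F r j s = 0 := by
    intro j hj1 hj2 s hs
    by_contra hcon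
    exact Nat.find_min hex (hm ▸ hj2) ⟨hj1, s, hs, hcon⟩
  have hme : Even m := by
    by_contra hcon
    rw [Nat.not_even_iff_odd] at hcon
    exact hne (T.gd_odd hF hr hcon s₁)
  have hm2 : 2 ≤ m := by
    rcases hme with ⟨k, hk⟩; omega
  have hκsm : ContDiff ℝ ∞ (deriv T.τ) := (contDiff_infty_iff_deriv.1 T.smooth).2
  have hκd : Differentiable ℝ (deriv T.τ) := hκsm.differentiable (by simp)
  have hκc : Continuous (deriv T.τ) := hκsm.continuous
  have hgd : Differentiable ℝ (T.gd F r m) := (T.gd_smooth hF hr m).differentiable (by simp)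
  set c : ℝ → ℝ := fun s => T.gd F r m s ^ 3 * deriv T.τ s ^ m with hc
  have hcd : ∀ s, HasDerivAt c 0 s := by
    intro s
    have h1 := (hgd s).hasDerivAt
    have h2 := (hκd s).hasDerivAt
    have h3 := (h1.pow 3).mul (h2.pow m)
    obtain ⟨n, hn⟩ : ∃ n, m = n + 1 := ⟨m - 1, by omega⟩
    have h4 : (((3 : ℕ) : ℝ) * T.gd F r m s ^ (3 - 1) * deriv (T.gd F r m) s) * deriv T.τ s ^ m
        + T.gd F r m s ^ 3 * ((m : ℝ) * deriv T.τ s ^ (m - 1) * deriv (deriv T.τ) s) = 0 := by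
      rcases (T.curv s).eq_or_lt with h0 | h0
      · have h5 : deriv (deriv T.τ) s = 0 := by
          have : IsLocalMin (deriv T.τ) s := by
            refine Filter.Eventually.of_forall fun x => ?_
            rw [← h0]; exact T.curv x
          exact this.deriv_eq_zero
        rw [h5, ← h0, zero_pow (by omega)]
        ring
      · have h5 := T.ode hF hr hm1 hme h0 (by
          have h6 : ∀ᶠ s' in 𝓝 s, 0 < deriv T.τ s' := hκc.continuousAt.eventually (lt_mem_nhds h0)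
          filter_upwards [h6] with s' hs' j hj1 hj2
          exact hmin j hj1 hj2 s' hs')
        have h6 : deriv T.τ s ^ m = deriv T.τ s ^ (m - 1) * deriv T.τ s := by
          rw [← pow_succ]; congr 1; omega
        rw [h6]
        simp only [Nat.add_one_sub_one, show (3 - 1 : ℕ) = 2 from rfl]
        push_cast
        linear_combination (3 * T.gd F r m s ^ 2 * deriv T.τ s ^ (m - 1)) * h5
    have h5 : HasDerivAt c ((((3 : ℕ) : ℝ) * T.gd F r m s ^ (3 - 1) * deriv (T.gd F r m) s) * deriv T.τ s ^ m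
        + T.gd F r m s ^ 3 * ((m : ℝ) * deriv T.τ s ^ (m - 1) * deriv (deriv T.τ) s)) s := h3
    rw [h4] at h5
    exact h5
  have hconst : ∀ s s', c s = c s' :=
    is_const_of_deriv_eq_zero (fun s => (hcd s).differentiableAt) (fun s => (hcd s).deriv)
  have hC : c s₁ ≠ 0 := mul_ne_zero (pow_ne_zero _ hne) (pow_ne_zero _ hs₁.ne')
  have hκ : ∀ s, 0 < deriv T.τ s := by
    intro s
    refine lt_of_le_of_ne (T.curv s) fun h0 => ?_
    apply hC
    rw [hconst s₁ s]
    simp only [hc]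
    rw [← h0, zero_pow (by omega), mul_zero]
  exact ⟨hκ, m, hm2, hme, fun s j h1 h2 => hmin j h1 h2 s (hκ s), c s₁, hC, fun s => hconst s s₁⟩

end Pool.Agent.H46.BL
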