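/-
FOL : the foliation near the boundary.
-/
import Mathlib
import Pool.Agent.H46.BL.Bas
import Pool.Agent.H46.BL.Tay
import Pool.Agent.H46.BL.Cmp

set_option autoImplicit false

namespace Pool.Agent.H46.BL

open Set Filter Topology
open scoped ContDiff

/-- a continuous nowhere vanishing function on the line has a constant sign -/
lemma Fol_sign {b : ℝ → ℝ} (hb : Continuous b) (h : ∀ s, b s ≠ 0) :
    ∃ σ : ℝ, σ ≠ 0 ∧ ∀ s, 0 < σ * b s := by
  rcases lt_or_gt_of_ne (h 0) with h0 | h0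
  · refine ⟨-1, by norm_num, fun s => ?_⟩
    by_contra hcon
    have h1 : 0 ≤ b s := by linarith
    have h2 : (0 : ℝ) ∈ b '' univ := by
      have h3 := (isPreconnected_univ : IsPreconnected (univ : Set ℝ)).image b hb.continuousOn
      have h4 := h3.ordConnected.out (mem_image_of_mem b (mem_univ 0)) (mem_image_of_mem b (mem_univ s))
      exact h4 ⟨h0.le, h1⟩
    obtain ⟨x, -, hx⟩ := h2
    exact h x hx
  · refine ⟨1, by norm_num, fun s => ?_⟩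
    by_contra hcon
    have h1 : b s ≤ 0 := by linarith
    have h2 : (0 : ℝ) ∈ b '' univ := by
      have h3 := (isPreconnected_univ : IsPreconnected (univ : Set ℝ)).image b hb.continuousOn
      have h4 := h3.ordConnected.out (mem_image_of_mem b (mem_univ s)) (mem_image_of_mem b (mem_univ 0))
      exact h4 ⟨h1, h0.le⟩
    obtain ⟨x, -, hx⟩ := h2
    exact h x hx

/-- existence of the foliation for an abstract family of increasing functions -/
lemma Fol_graphs {G : ℝ → ℝ → ℝ} {L θ₀ θ₁ : ℝ} (hL : 0 < L) (h01 : 0 < θ₁) (h10 : θ₁ ≤ θ₀)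
    (hG : Continuous (fun z : ℝ × ℝ => G z.1 z.2)) (hper : ∀ s, G (s + L) = G s)
    (hz : ∀ s, G s 0 = 0) (hmono : ∀ s, StrictMonoOn (G s) (Icc 0 θ₀)) :
    ∃ (g : ℝ → ℝ → ℝ) (ε cb : ℝ), 0 < ε ∧ 0 < cb ∧
      ContinuousOn (fun z : ℝ × ℝ => g z.1 z.2) (Ioo 0 1 ×ˢ univ) ∧
      (∀ c ∈ Ioo (0 : ℝ) 1, ∀ s, g c s ∈ Ioo 0 θ₁ ∧ G s (g c s) = c * cb) ∧
      (∀ s, ∀ θ ∈ Ioo 0 ε, ∃ c ∈ Ioo (0 : ℝ) 1, g c s = θ) ∧
      (∀ δ > 0, ∃ c₀ ∈ Ioo (0 : ℝ) 1, ∀ c ∈ Ioo 0 c₀, ∀ s, g c s < δ) := by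
  have hθ₀ : 0 < θ₀ := h01.trans_le h10
  have hper' : Function.Periodic G L := hper
  -- positive minimum
  have hmin : ∀ θ, 0 < θ → θ ≤ θ₀ → ∃ μ > 0, ∀ s, μ ≤ G s θ := by
    intro θ hθ hθ'
    have hc : Continuous fun s => G s θ := hG.comp (continuous_id.prodMk continuous_const)
    obtain ⟨x, hx, hmin⟩ := isCompact_Icc.exists_isMinOn (nonempty_Icc.2 hL.le) (hc.continuousOn (s := Icc 0 L))
    refine ⟨G x θ, ?_, fun s => ?_⟩
    · have := hmono x ⟨le_rfl, hθ₀.le⟩ ⟨hθ.le, hθ'⟩ hθ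
      rwa [hz] at this
    · obtain ⟨y, hy, hyy⟩ := hper'.exists_mem_Ico₀ hL s
      rw [hyy]
      exact hmin ⟨hy.1, hy.2.le⟩
  obtain ⟨cb, hcb, hcb'⟩ := hmin θ₁ h01 h10
  have hex : ∀ c s, ∃ θ, c ∈ Ioo (0 : ℝ) 1 → θ ∈ Ioo 0 θ₁ ∧ G s θ = c * cb := by
    intro c s
    by_cases hc : c ∈ Ioo (0 : ℝ) 1
    · have hcs : ContinuousOn (G s) (Icc 0 θ₁) :=
        (hG.comp (continuous_const.prodMk continuous_id)).continuousOn
      have h1 : c * cb ∈ Ioo (G s 0) (G s θ₁) := by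
        rw [hz]
        refine ⟨mul_pos hc.1 hcb, lt_of_lt_of_le ?_ (hcb' s)⟩
        have := mul_lt_mul_of_pos_right hc.2 hcb
        linarith
      obtain ⟨θ, hθ, hθ'⟩ := intermediate_value_Ioo h01.le hcs h1
      exact ⟨θ, fun _ => ⟨hθ, hθ'⟩⟩
    · exact ⟨0, fun h => absurd h hc⟩
  choose g hg using hex
  have hgI : ∀ c ∈ Ioo (0 : ℝ) 1, ∀ s, g c s ∈ Ioo 0 θ₁ ∧ G s (g c s) = c * cb := fun c hc s => hg c s hc
  have hsub : ∀ {θ}, θ ∈ Icc 0 θ₁ → θ ∈ Icc 0 θ₀ := fun {θ} h => ⟨h.1, h.2.trans h10⟩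
  refine ⟨g, ?_⟩
  -- bound of G near 0
  have hG0 : ∃ ε > 0, ε ≤ θ₁ ∧ ∀ s, ∀ θ ∈ Ioo 0 ε, G s θ < cb := by
    have huc := (isCompact_Icc (a := (0 : ℝ)) (b := L)).prod (isCompact_Icc (a := (0 : ℝ)) (b := θ₁))
    have h1 := huc.uniformContinuousOn_of_continuous (hG.continuousOn)
    rw [Metric.uniformContinuousOn_iff] at h1
    obtain ⟨ε, hε, h1⟩ := h1 cb hcb
    refine ⟨min ε θ₁, lt_min hε h01, min_le_right _ _, fun s θ hθ => ?_⟩
    obtain ⟨y, hy, hyy⟩ := hper'.exists_mem_Ico₀ hL s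
    rw [hyy]
    have h2 := h1 (y, θ) ⟨⟨hy.1, hy.2.le⟩, ⟨hθ.1.le, (hθ.2.trans_le (min_le_right _ _)).le⟩⟩ (y, 0)
      ⟨⟨hy.1, hy.2.le⟩, ⟨le_rfl, h01.le⟩⟩ (by
        rw [Prod.dist_eq]
        simp only [dist_self, Real.dist_eq, sub_zero, abs_of_pos hθ.1]
        exact max_lt hε (hθ.2.trans_le (min_le_left _ _)))
    simp only [Real.dist_eq, hz, sub_zero] at h2
    exact (le_abs_self _).trans_lt h2
  obtain ⟨ε, hε, hεθ, hG0⟩ := hG0
  refine ⟨ε, cb, hε, hcb, ?_, hgI, ?_, ?_⟩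
  · rintro ⟨c₀, s₀⟩ ⟨hc₀, -⟩
    obtain ⟨hg1, hg2⟩ := hgI c₀ hc₀ s₀
    rw [Metric.continuousWithinAt_iff']
    intro e he
    set g₀ := g c₀ s₀ with hg₀
    set e' := min (e / 2) (min (g₀ / 2) ((θ₁ - g₀) / 2)) with he'
    have he'0 : 0 < e' := lt_min (by linarith) (lt_min (by linarith [hg1.1]) (by linarith [hg1.2]))
    have he1 : e' ≤ e / 2 := min_le_left _ _
    have he2 : e' ≤ g₀ / 2 := (min_le_right _ _).trans (min_le_left _ _)
    have he3 : e' ≤ (θ₁ - g₀) / 2 := (min_le_right _ _).trans (min_le_right _ _)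
    have hm1 : g₀ - e' ∈ Icc 0 θ₁ := ⟨by linarith [hg1.1], by linarith [hg1.2]⟩
    have hm2 : g₀ + e' ∈ Icc 0 θ₁ := ⟨by linarith [hg1.1], by linarith [hg1.2]⟩
    have hm0 : g₀ ∈ Icc 0 θ₁ := ⟨hg1.1.le, hg1.2.le⟩
    have hl : G s₀ (g₀ - e') < c₀ * cb := by
      rw [← hg2]; exact hmono s₀ (hsub hm1) (hsub hm0) (by linarith)
    have hu : c₀ * cb < G s₀ (g₀ + e') := by
      rw [← hg2]; exact hmono s₀ (hsub hm0) (hsub hm2) (by linarith)
    have hc1 : Continuous fun z : ℝ × ℝ => G z.2 (g₀ - e') - z.1 * cb :=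
      (hG.comp (continuous_snd.prodMk continuous_const)).sub (continuous_fst.mul continuous_const)
    have hc2 : Continuous fun z : ℝ × ℝ => G z.2 (g₀ + e') - z.1 * cb :=
      (hG.comp (continuous_snd.prodMk continuous_const)).sub (continuous_fst.mul continuous_const)
    have ev1 : ∀ᶠ z in 𝓝[Ioo 0 1 ×ˢ univ] (c₀, s₀), G z.2 (g₀ - e') - z.1 * cb < 0 :=
      (hc1.continuousAt.eventually (gt_mem_nhds (by simp only; linarith))).filter_mono nhdsWithin_le_nhds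
    have ev2 : ∀ᶠ z in 𝓝[Ioo 0 1 ×ˢ univ] (c₀, s₀), 0 < G z.2 (g₀ + e') - z.1 * cb :=
      (hc2.continuousAt.eventually (lt_mem_nhds (by simp only; linarith))).filter_mono nhdsWithin_le_nhds
    filter_upwards [ev1, ev2, self_mem_nhdsWithin] with z hz1 hz2 hz3
    obtain ⟨hz4, hz5⟩ := hgI z.1 hz3.1 z.2
    have hmz : g z.1 z.2 ∈ Icc 0 θ₁ := ⟨hz4.1.le, hz4.2.le⟩
    have k1 : g₀ - e' < g z.1 z.2 := by
      rw [← (hmono z.2).lt_iff_lt (hsub hm1) (hsub hmz)]; rw [hz5]; linarith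
    have k2 : g z.1 z.2 < g₀ + e' := by
      rw [← (hmono z.2).lt_iff_lt (hsub hmz) (hsub hm2)]; rw [hz5]; linarith
    rw [Real.dist_eq, abs_lt]
    exact ⟨by linarith, by linarith⟩
  · intro s θ hθ
    have h1 := hG0 s θ hθ
    have hθm : θ ∈ Icc 0 θ₁ := ⟨hθ.1.le, (hθ.2.trans_le hεθ).le⟩
    have h2 : 0 < G s θ := by
      have := hmono s ⟨le_rfl, hθ₀.le⟩ (hsub hθm) hθ.1
      rwa [hz] at this
    have hc : G s θ / cb ∈ Ioo (0 : ℝ) 1 := ⟨div_pos h2 hcb, (div_lt_one hcb).2 h1⟩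
    refine ⟨G s θ / cb, hc, ?_⟩
    obtain ⟨h3, h4⟩ := hgI _ hc s
    rw [div_mul_cancel₀ _ hcb.ne'] at h4
    exact (hmono s).injOn (hsub ⟨h3.1.le, h3.2.le⟩) (hsub hθm) h4
  · intro δ hδ
    have hd0 : 0 < min δ θ₁ := lt_min hδ h01
    obtain ⟨μ, hμ, hμ'⟩ := hmin (min δ θ₁) hd0 ((min_le_right _ _).trans h10)
    refine ⟨min (1 / 2) (μ / cb), ⟨lt_min (by norm_num) (div_pos hμ hcb), (min_le_left _ _).trans_lt (by norm_num)⟩,
      fun c hc s => ?_⟩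
    have hc1 : c ∈ Ioo (0 : ℝ) 1 := ⟨hc.1, (hc.2.trans_le (min_le_left _ _)).trans (by norm_num)⟩
    obtain ⟨h3, h4⟩ := hgI c hc1 s
    have h5 : c * cb < μ := by
      have := hc.2.trans_le (min_le_right _ _)
      rwa [lt_div_iff₀ hcb] at this
    have h6 : g c s < min δ θ₁ := by
      rw [← (hmono s).lt_iff_lt (hsub ⟨h3.1.le, h3.2.le⟩) (hsub ⟨hd0.le, min_le_right _ _⟩)]
      rw [h4]; exact h5.trans_le (hμ' s)
    exact h6.trans_le (min_le_left _ _)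

lemma foliated (T : Table) {F : ℂ → ℂ → ℝ} (hF : T.Integral F) {r : ℝ} (hr : 0 < r)
    (hκ : ∀ s, 0 < deriv T.τ s) {m : ℕ} (hm : 2 ≤ m) (hme : Even m)
    (h0 : ∀ s s', T.fn F r s 0 = T.fn F r s' 0)
    (h1 : ∀ s j, 1 ≤ j → j < m → T.gd F r j s = 0) (h2 : ∀ s, T.gd F r m s ≠ 0) :
    ∃ g ε, T.Foliated g ε ∧ ∀ c ∈ Ioo (0 : ℝ) 1, ∀ s s', T.fn F r s (g c s) = T.fn F r s' (g c s') := by
  have hsm := T.fn_smooth hF hr
  have hgdc : Continuous (T.gd F r m) := by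
    have h3 := smooth_iter hsm m
    have h4 : ContDiff ℝ ∞ (fun s : ℝ => ((s, 0) : ℝ × ℝ)) := contDiff_id.prodMk contDiff_const
    exact (h3.comp h4).continuous
  have hperf : Function.Periodic (T.fn F r) T.L := fun s => by
    funext θ; exact T.fn_periodic F r s θ
  obtain ⟨σ, hσ, hσb⟩ := Fol_sign hgdc h2
  -- minimum of σ * gd m
  obtain ⟨μ, hμ, hμ'⟩ : ∃ μ > 0, ∀ s ∈ Icc 0 T.L, μ ≤ σ * T.gd F r m s := by
    obtain ⟨x, hx, hmin⟩ := isCompact_Icc.exists_isMinOn (nonempty_Icc.2 T.Lpos.le)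
      ((continuous_const.mul hgdc).continuousOn (s := Icc 0 T.L) (f := fun s => σ * T.gd F r m s))
    exact ⟨_, hσb x, fun s hs => hmin hs⟩
  -- Taylor for the first derivative
  have hsm1 : ContDiff ℝ ∞ (fun z : ℝ × ℝ => deriv (T.fn F r z.1) z.2) := by
    have := smooth_iter hsm 1
    simpa only [iteratedDeriv_one] using this
  obtain ⟨C, hC, hT⟩ := taylor_unif (f := fun s => deriv (T.fn F r s)) hsm1 (m - 1) (by omega) 0 T.L
  have hit : ∀ j s, iteratedDeriv j (deriv (T.fn F r s)) 0 = T.gd F r (j + 1) s := by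
    intro j s
    unfold Table.gd
    rw [iteratedDeriv_succ']
  have hfac : (0 : ℝ) < ((m - 1).factorial : ℝ) := by exact_mod_cast (m - 1).factorial_pos
  obtain ⟨ν, hν⟩ : ∃ ν, ν = μ / ((m - 1).factorial : ℝ) := ⟨_, rfl⟩
  have hν0 : 0 < ν := by rw [hν]; positivity
  have hσ0 : 0 < |σ| := abs_pos.2 hσ
  -- choice of θ₀
  obtain ⟨θ₀, hθ₀, hθ₀1, hθ₀C⟩ : ∃ θ₀ > 0, θ₀ ≤ 1 ∧ |σ| * C * θ₀ ^ 2 < ν := by
    refine ⟨min 1 (ν / (|σ| * C + ν + 1)), lt_min one_pos (by positivity), min_le_left _ _, ?_⟩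
    set t := min 1 (ν / (|σ| * C + ν + 1)) with ht
    have h3 : 0 < t := lt_min one_pos (by positivity)
    have h4 : t ≤ 1 := min_le_left _ _
    have h5 : t * (|σ| * C + ν + 1) ≤ ν := by
      rw [← le_div_iff₀ (by positivity)]; exact min_le_right _ _
    have h6 : 0 ≤ |σ| * C := by positivity
    have h7 : |σ| * C * t ^ 2 ≤ |σ| * C * t := by
      refine mul_le_mul_of_nonneg_left ?_ h6
      nlinarith
    nlinarith
  have hderiv : ∀ s, ∀ θ, 0 < θ → θ < θ₀ → 0 < σ * deriv (T.fn F r s) θ := by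
    intro s θ hθ hθ'
    obtain ⟨y, hy, hyy⟩ := hperf.exists_mem_Ico₀ T.Lpos s
    rw [hyy]
    have h3 := hT y ⟨hy.1, hy.2.le⟩ (by
      intro j hj1 hj2
      rw [hit]
      exact h1 y (j + 1) (by omega) (by omega)) (by
      rw [hit]
      have : m - 1 + 1 + 1 = m + 1 := by omega
      rw [this]
      exact T.gd_odd hF hr hme.add_one y) θ ⟨by linarith, by linarith⟩
    have h4 : deriv (T.fn F r y) 0 = 0 := by
      have := T.gd_odd hF hr (k := 1) (by decide) y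
      unfold Table.gd at this
      rwa [iteratedDeriv_one] at this
    rw [h4, hit, sub_zero] at h3
    have h5 : m - 1 + 1 = m := by omega
    have h6 : m - 1 + 2 = (m - 1) + 2 := rfl
    rw [h5, abs_of_pos hθ] at h3
    have h7 := hμ' y ⟨hy.1, hy.2.le⟩
    have hθp : 0 < θ ^ (m - 1) := pow_pos hθ _
    -- σ * deriv ≥ σ * gd/(m-1)! θ^(m-1) - |σ| C θ^(m+1)
    have h8 : |σ * deriv (T.fn F r y) θ - σ * (T.gd F r m y / ((m - 1).factorial : ℝ) * θ ^ (m - 1))|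
        ≤ |σ| * (C * θ ^ (m - 1 + 2)) := by
      rw [← mul_sub, abs_mul]
      exact mul_le_mul_of_nonneg_left h3 (abs_nonneg _)
    have h9 := (abs_le.1 h8).1
    have h10 : ν * θ ^ (m - 1) ≤ σ * (T.gd F r m y / ((m - 1).factorial : ℝ) * θ ^ (m - 1)) := by
      have h11 : σ * (T.gd F r m y / ((m - 1).factorial : ℝ) * θ ^ (m - 1))
          = (σ * T.gd F r m y) / ((m - 1).factorial : ℝ) * θ ^ (m - 1) := by ring
      rw [h11, hν]
      refine mul_le_mul_of_nonneg_right ?_ hθp.le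
      exact div_le_div_of_nonneg_right h7 hfac.le
    have h11 : |σ| * (C * θ ^ (m - 1 + 2)) < ν * θ ^ (m - 1) := by
      have h12 : |σ| * (C * θ ^ (m - 1 + 2)) = (|σ| * C * θ ^ 2) * θ ^ (m - 1) := by
        rw [pow_add]; ring
      rw [h12]
      refine mul_lt_mul_of_pos_right ?_ hθp
      refine lt_of_le_of_lt ?_ hθ₀C
      exact mul_le_mul_of_nonneg_left (pow_le_pow_left₀ hθ.le hθ'.le 2) (by positivity)
    linarith
  set G : ℝ → ℝ → ℝ := fun s θ => σ * (T.fn F r s θ - T.fn F r 0 0) with hG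
  have hGc : Continuous (fun z : ℝ × ℝ => G z.1 z.2) := by
    have := hsm.continuous
    simp only [hG]
    exact continuous_const.mul (this.sub continuous_const)
  have hGper : ∀ s, G (s + T.L) = G s := by
    intro s; funext θ; simp only [hG]; rw [T.fn_periodic]
  have hGz : ∀ s, G s 0 = 0 := by
    intro s; simp only [hG]; rw [h0 s 0, sub_self, mul_zero]
  have hfd : ∀ s, Differentiable ℝ (T.fn F r s) := by
    intro s
    have h3 : ContDiff ℝ ∞ (fun θ : ℝ => ((s, θ) : ℝ × ℝ)) := contDiff_const.prodMk contDiff_id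
    exact (hsm.comp h3).differentiable (by simp)
  have hGmono : ∀ s, StrictMonoOn (G s) (Icc 0 θ₀) := by
    intro s
    refine strictMonoOn_of_deriv_pos (convex_Icc 0 θ₀) ?_ ?_
    · exact (hGc.comp (continuous_const.prodMk continuous_id)).continuousOn
    · intro θ hθ
      rw [interior_Icc] at hθ
      have h3 : deriv (G s) θ = σ * deriv (T.fn F r s) θ := by
        have h4 := (((hfd s) θ).hasDerivAt.sub_const (T.fn F r 0 0)).const_mul σ
        exact h4.deriv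
      rw [h3]
      exact hderiv s θ hθ.1 hθ.2
  obtain ⟨δ, hδ, hδ'⟩ := small_angle T hκ hθ₀
  obtain ⟨g, ε, cb, hε, hcb, hgc, hgI, hfill, hsmall⟩ := Fol_graphs (θ₁ := min δ θ₀) T.Lpos
    (lt_min hδ hθ₀) (min_le_right _ _) hGc hGper hGz hGmono
  have hlt : ∀ c ∈ Ioo (0 : ℝ) 1, ∀ s, g c s < δ ∧ g c s < θ₀ := fun c hc s =>
    ⟨(hgI c hc s).1.2.trans_le (min_le_left _ _), (hgI c hc s).1.2.trans_le (min_le_right _ _)⟩
  have hmem : ∀ c ∈ Ioo (0 : ℝ) 1, ∀ s, g c s ∈ Icc 0 θ₀ := fun c hc s =>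
    ⟨(hgI c hc s).1.1.le, (hlt c hc s).2.le⟩
  have hval : ∀ c ∈ Ioo (0 : ℝ) 1, ∀ s, G s (g c s) = c * cb := fun c hc s => (hgI c hc s).2
  refine ⟨g, ε, ⟨hε, hgc, ?_, ?_, ?_, ?_, hfill, hsmall⟩, ?_⟩
  · intro c hc s
    refine (hGmono s).injOn (hmem c hc _) (hmem c hc _) ?_
    rw [hval c hc s, ← hGper s, hval c hc (s + T.L)]
  · intro c hc s
    refine ⟨(hgI c hc s).1.1, ?_⟩
    have := (hlt c hc s).2
    have := Real.pi_gt_three
    linarith
  · intro c hc s θ s' θ' hB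
    obtain ⟨hB1, hB2, hB3, hB4, hB5, ℓ, hℓ, hB6⟩ := hB
    have hch := T.fn_chord hF hr hB5 hB6
    have hGG : G s θ = G s' θ' := by simp only [hG]; rw [hch]
    obtain ⟨hd1, hd2⟩ := hδ' s θ s' θ' ⟨hB1, hB2, hB3, hB4, hB5, ℓ, hℓ, hB6⟩
    constructor
    · intro h
      have h3 : θ' < θ₀ := hd1 (by rw [h]; exact (hlt c hc s).1)
      refine (hGmono s').injOn ⟨hB2.1.le, h3.le⟩ (hmem c hc s') ?_
      rw [← hGG, h, hval c hc s, hval c hc s']
    · intro h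
      have h3 : θ < θ₀ := hd2 (by rw [h]; exact (hlt c hc s').1)
      refine (hGmono s).injOn ⟨hB1.1.le, h3.le⟩ (hmem c hc s) ?_
      rw [hGG, h, hval c hc s, hval c hc s']
  · intro c hc c' hc' hcc s
    rw [← (hGmono s).lt_iff_lt (hmem c hc s) (hmem c' hc' s), hval c hc s, hval c' hc' s]
    exact mul_lt_mul_of_pos_right hcc hcb
  · intro c hc s s'
    have h3 : G s (g c s) = G s' (g c s') := by rw [hval c hc s, hval c hc s']
    simp only [hG] at h3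
    have h4 := mul_left_cancel₀ hσ h3
    linarith

end Pool.Agent.H46.BL
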