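/-
FIN : the theorem.
-/
import Mathlib
import Pool.Agent.H46.BL.Dic
import Pool.Agent.H46.BL.Fol
import Pool.Agent.H46.BL.Pon
import Pool.Agent.H46.BL.Ana

set_option autoImplicit false

namespace Pool.Agent.H46.BL

open Set Filter Topology
open scoped ContDiff

theorem main_nonflat (T : Table) {F : ℂ → ℂ → ℝ} (hF : T.Integral F) {r : ℝ} (hr : 0 < r)
    (hnf : ∃ s k, 0 < deriv T.τ s ∧ 1 ≤ k ∧ T.gd F r k s ≠ 0) :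
    (∀ s, 0 < deriv T.τ s) ∧
    (∃ m : ℕ, 2 ≤ m ∧ Even m ∧ (∀ s j, 1 ≤ j → j < m → T.gd F r j s = 0) ∧
      ∃ C : ℝ, C ≠ 0 ∧ ∀ s, T.gd F r m s ^ 3 * deriv T.τ s ^ m = C) ∧
    (∃ g ε, T.Foliated g ε ∧ ∀ c ∈ Ioo (0 : ℝ) 1, ∀ s s', T.fn F r s (g c s) = T.fn F r s' (g c s')) ∧
    T.Closed := by
  obtain ⟨hκ, m, hm, hme, h1, C, hC, hC'⟩ := dichotomy T hF hr hnf
  have h2 : ∀ s, T.gd F r m s ≠ 0 := by
    intro s h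
    have := hC' s
    rw [h] at this
    apply hC
    rw [← this]; simp
  obtain ⟨g, ε, hg, hg'⟩ := foliated T hF hr hκ hm hme (fun s s' => T.fn_zero_const hF hr s s') h1 h2
  exact ⟨hκ, ⟨m, hm, hme, h1, C, hC, hC'⟩, ⟨g, ε, hg, hg'⟩, closed_of_foliated T hκ hg⟩

theorem main_analytic (T : Table) {F : ℂ → ℂ → ℝ} (hF : T.Integral F)
    (han : ∀ s r : ℝ, 0 < r → AnalyticOnNhd ℝ (fun a : ℝ => F (T.γ s) ((r : ℂ) * ex a)) univ)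
    (hnc : ¬ ∃ h : ℝ → ℝ, ∀ q ∈ T.Y, ∀ p : ℂ, p ≠ 0 → F q p = h ‖p‖) :
    (∀ s, 0 < deriv T.τ s) ∧ (∃ g ε, T.Foliated g ε) ∧ T.Closed := by
  by_cases hnf : ∃ r : ℝ, 0 < r ∧ ∃ s k, 0 < deriv T.τ s ∧ 1 ≤ k ∧ T.gd F r k s ≠ 0
  · obtain ⟨r, hr, h⟩ := hnf
    obtain ⟨h1, -, ⟨g, ε, hg, -⟩, h4⟩ := main_nonflat T hF hr h
    exact ⟨h1, ⟨g, ε, hg⟩, h4⟩
  · exfalso
    apply hnc
    refine analytic_flat T hF han (fun r hr s s' => T.fn_zero_const hF hr s s') ?_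
    intro r hr s hs k hk
    by_contra hne
    exact hnf ⟨r, hr, s, k, hs, hk, hne⟩

end Pool.Agent.H46.BL
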